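import Pool.Agent.Work.Disc32.Defs

/-!
# The one-dimensional entropy lemma
-/

namespace Disc32

open Finset

variable {D : ℕ}

lemma bias1D_aux {r : ℝ} (h0 : 0 ≤ r) (h2 : r ≤ 2) :
    (r - 1) + (r - 1) ^ 2 / 6 ≤ r * Real.log r := by
  rcases h0.eq_or_lt with h | h
  · rw [← h]; norm_num
  · set q := Real.sqrt r with hq
    have hqpos : 0 < q := Real.sqrt_pos.mpr h
    have hqq : q ^ 2 = r := Real.sq_sqrt h0
    have hlog : Real.log r = 2 * Real.log q := by
      rw [← hqq, Real.log_pow]; norm_num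
    have h1 : 1 - q⁻¹ ≤ Real.log q := Real.one_sub_inv_le_log_of_pos hqpos
    have h3 : q ≤ 3 / 2 := by nlinarith
    have h4 : 2 * q ^ 2 - 2 * q ≤ r * Real.log r := by
      rw [hlog, ← hqq]
      have : q ^ 2 * (2 * (1 - q⁻¹)) ≤ q ^ 2 * (2 * Real.log q) := by
        apply mul_le_mul_of_nonneg_left _ (by positivity)
        linarith
      have h5 : q ^ 2 * (2 * (1 - q⁻¹)) = 2 * q ^ 2 - 2 * q := by
        field_simp
      linarith
    have h6 : (q + 1) ^ 2 ≤ 6 := by nlinarith
    have h7 : (q - 1) ^ 2 * (q + 1) ^ 2 ≤ (q - 1) ^ 2 * 6 :=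
      mul_le_mul_of_nonneg_left h6 (by positivity)
    rw [← hqq] at h4 ⊢
    nlinarith

/-- two-point inequality for `r log r` -/
theorem two_point {u v : ℝ} (hu : 0 ≤ u) (hv : 0 ≤ v) :
    (u - v) ^ 2 / (24 * ((u + v) / 2)) ≤
      (u * Real.log u + v * Real.log v) / 2 - (u + v) / 2 * Real.log ((u + v) / 2) := by
  set m := (u + v) / 2 with hm
  have hm0 : 0 ≤ m := by positivity
  rcases hm0.eq_or_lt with h | h
  · have hu0 : u = 0 := by linarith
    have hv0 : v = 0 := by linarith
    rw [← h, hu0, hv0]; simp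
  · have key : ∀ w : ℝ, 0 ≤ w → w ≤ 2 * m →
        w - m + (w - m) ^ 2 / (6 * m) + w * Real.log m ≤ w * Real.log w := by
      intro w hw hw2
      have h1 := bias1D_aux (r := w / m) (by positivity) (by rw [div_le_iff₀ h]; linarith)
      have h2 : m * ((w / m - 1) + (w / m - 1) ^ 2 / 6) = w - m + (w - m) ^ 2 / (6 * m) := by
        field_simp
      have h3 : m * (w / m * Real.log (w / m)) = w * Real.log w - w * Real.log m := by
        rcases hw.eq_or_lt with h' | h'
        · rw [← h']; simp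
        · rw [Real.log_div h'.ne' h.ne']
          field_simp
      have h4 := mul_le_mul_of_nonneg_left h1 h.le
      rw [h2, h3] at h4
      linarith
    have k1 := key u hu (by linarith)
    have k2 := key v hv (by linarith)
    have e1 : (u - m) ^ 2 / (6 * m) = (u - v) ^ 2 / (24 * m) := by
      have : u - m = (u - v) / 2 := by rw [hm]; ring
      rw [this]; field_simp; ring
    have e2 : (v - m) ^ 2 / (6 * m) = (u - v) ^ 2 / (24 * m) := by
      have : v - m = -((u - v) / 2) := by rw [hm]; ring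
      rw [this]; field_simp; ring
    rw [e1] at k1
    rw [e2] at k2
    have e3 : u + v = 2 * m := by rw [hm]; ring
    have e4 : u * Real.log m + v * Real.log m = 2 * (m * Real.log m) := by
      rw [← add_mul, e3]; ring
    linarith

lemma bias1D_step {V : Cube D → ℝ} (h0 : ∀ x, 0 ≤ V x) {t : ℕ} (ht : t < D) :
    avc (fun x => (Mt t (fun y => sg t y * V y) x) ^ 2 / Mt t V x) ≤
      6 * (avc (fun x => Mt (t + 1) V x * Real.log (Mt (t + 1) V x))
        - avc (fun x => Mt t V x * Real.log (Mt t V x))) := by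
  rw [avc_setb ht (fun x => Mt (t + 1) V x * Real.log (Mt (t + 1) V x)), ← avc_sub,
    ← avc_mul_left]
  refine avc_mono fun x => ?_
  have hsg : ∀ x y : Cube D, agree (t + 1) x y → sg t x = sg t y :=
    fun x y h => sg_agree (Nat.lt_succ_self t) h
  have e1 : Mt t V x = (Mt (t + 1) V (setb t true x) + Mt (t + 1) V (setb t false x)) / 2 := by
    rw [Mt_succ ht, smul_eq_mul]; ring
  have e2 : Mt t (fun y => sg t y * V y) x =
      (Mt (t + 1) V (setb t true x) - Mt (t + 1) V (setb t false x)) / 2 := by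
    rw [Mt_succ ht, Mt_mul_left hsg, Mt_mul_left hsg, sg_setb ht, sg_setb ht, smul_eq_mul]
    simp; ring
  set u := Mt (t + 1) V (setb t true x) with hu
  set v := Mt (t + 1) V (setb t false x) with hv
  have hu0 : 0 ≤ u := Mt_nonneg _ h0 _
  have hv0 : 0 ≤ v := Mt_nonneg _ h0 _
  rw [e1, e2, smul_eq_mul]
  have := two_point hu0 hv0
  have e3 : ((u - v) / 2) ^ 2 / ((u + v) / 2) = 6 * ((u - v) ^ 2 / (24 * ((u + v) / 2))) := by
    rcases eq_or_ne (u + v) 0 with h | h
    · rw [h]; simp
    · field_simp; ring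
  rw [e3]
  linarith

theorem bias1D {V : Cube D → ℝ} (h0 : ∀ x, 0 ≤ V x) (h1 : ∀ x, V x ≤ 1) {n : ℕ} (hn : n ≤ D) :
    ∑ t ∈ range n, avc (fun x => (Mt t (fun y => sg t y * V y) x) ^ 2 / Mt t V x) ≤
      6 * Real.negMulLog (avc V) := by
  have hsum : ∑ t ∈ range n, avc (fun x => (Mt t (fun y => sg t y * V y) x) ^ 2 / Mt t V x) ≤
      ∑ t ∈ range n, 6 * (avc (fun x => Mt (t + 1) V x * Real.log (Mt (t + 1) V x))
        - avc (fun x => Mt t V x * Real.log (Mt t V x))) := by
    refine Finset.sum_le_sum fun t ht => bias1D_step h0 ?_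
    rw [Finset.mem_range] at ht
    omega
  have htel : ∑ t ∈ range n, 6 * (avc (fun x => Mt (t + 1) V x * Real.log (Mt (t + 1) V x))
        - avc (fun x => Mt t V x * Real.log (Mt t V x))) =
      6 * (avc (fun x => Mt n V x * Real.log (Mt n V x))
        - avc (fun x => Mt 0 V x * Real.log (Mt 0 V x))) := by
    rw [← Finset.mul_sum]
    congr 1
    exact Finset.sum_range_sub (fun t => avc (fun x => Mt t V x * Real.log (Mt t V x))) n
  have hend : avc (fun x => Mt n V x * Real.log (Mt n V x)) ≤ 0 := by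
    have : avc (fun x => Mt n V x * Real.log (Mt n V x)) ≤ avc (fun _ : Cube D => (0 : ℝ)) := by
      refine avc_mono fun x => ?_
      have a0 : 0 ≤ Mt n V x := Mt_nonneg _ h0 _
      have a1 : Mt n V x ≤ 1 := by
        have := Mt_mono n h1 x
        rwa [Mt_const] at this
      exact mul_nonpos_of_nonneg_of_nonpos a0 (Real.log_nonpos a0 a1)
    rwa [avc_const] at this
  have hstart : avc (fun x => Mt 0 V x * Real.log (Mt 0 V x)) = avc V * Real.log (avc V) := by
    simp only [Mt_zero]
    exact avc_const _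
  rw [htel, hstart] at hsum
  have hneg : Real.negMulLog (avc V) = -(avc V * Real.log (avc V)) := by
    simp [Real.negMulLog]
  rw [hneg]
  linarith

/-- concavity of `negMulLog` for weighted averages -/
theorem negMulLog_avg {ι : Type*} (s : Finset ι) {c r : ι → ℝ} (hc : ∀ i ∈ s, 0 ≤ c i)
    (hc1 : ∑ i ∈ s, c i = 1) (hr : ∀ i ∈ s, 0 ≤ r i) :
    ∑ i ∈ s, c i * Real.negMulLog (r i) ≤ Real.negMulLog (∑ i ∈ s, c i * r i) := by
  have := Real.concaveOn_negMulLog.le_map_sum (t := s) (w := c) (p := r) hc hc1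
    (fun i hi => hr i hi)
  simpa only [smul_eq_mul] using this

end Disc32
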