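import Pool.Agent.Work.Disc32.Defs

/-!
# Translations in `w`, the mass identity

Module J3a of the transfer theorem.
-/

namespace Disc32

open Finset

variable {D : ℕ}

section

variable {G : Type*} [AddCommGroup G] [DecidableEq G]

/-! ### elementary facts on `ind`, `uu`, `vv`, `aa`, `bb`, `pp` -/

lemma trans_ind_nonneg (S : Finset G) (w : G) : 0 ≤ ind S w := by
  unfold ind; split_ifs <;> norm_num

lemma trans_ind_le_one (S : Finset G) (w : G) : ind S w ≤ 1 := by
  unfold ind; split_ifs <;> norm_num

lemma trans_uu_nonneg (S : Finset G) (F : Cube D → Cube D → G) (s : ℕ) (x z : Cube D) (w : G) :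
    0 ≤ uu S F s x z w := trans_ind_nonneg _ _

lemma trans_vv_nonneg (S : Finset G) (F : Cube D → Cube D → G) (s : ℕ) (x z : Cube D) (w : G) :
    0 ≤ vv S F s x z w := trans_ind_nonneg _ _

lemma trans_uu_congr (S : Finset G) (F : Cube D → Cube D → G) {s : ℕ} {x x' : Cube D}
    (hx : agree s x x') (z : Cube D) (w : G) : uu S F s x z w = uu S F s x' z w := by
  unfold uu
  rw [cut_of_agree hx]

lemma trans_vv_congr (S : Finset G) {F : Cube D → Cube D → G} {s t : ℕ} (hF : Split F s t)
    (x : Cube D) {z z' : Cube D} (hz : agree t z z') (w : G) :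
    vv S F s x z w = vv S F s x z' w := by
  unfold vv
  have h := hF x (cut s x) z z' (agree_symm (agree_cut s x)) hz
  have h2 : F x z - F (cut s x) z = F x z' - F (cut s x) z' := by
    rw [sub_eq_sub_iff_add_eq_add, h, add_comm]
  rw [h2]

lemma trans_aa_nonneg (S : Finset G) (F : Cube D → Cube D → G) (s t : ℕ) (x z : Cube D) (w : G) :
    0 ≤ aa S F s t x z w := Mt_nonneg _ (fun _ => trans_uu_nonneg _ _ _ _ _ _) _

lemma trans_bb_nonneg (S : Finset G) (F : Cube D → Cube D → G) (s r : ℕ) (x z : Cube D) (w : G) :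
    0 ≤ bb S F s r x z w := Mt_nonneg _ (fun _ => trans_vv_nonneg _ _ _ _ _ _) _

lemma trans_aa_congr (S : Finset G) (F : Cube D → Cube D → G) {s t : ℕ} {x x' z z' : Cube D}
    (hx : agree s x x') (hz : agree t z z') (w : G) :
    aa S F s t x z w = aa S F s t x' z' w := by
  unfold aa
  rw [Mt_congr _ hz]
  exact Mt_congr_fun _ (fun y _ => trans_uu_congr S F hx y w)

lemma trans_bb_congr (S : Finset G) {F : Cube D → Cube D → G} {s t r : ℕ} (hF : Split F s t)
    {x x' z z' : Cube D} (hx : agree r x x') (hz : agree t z z') (w : G) :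
    bb S F s r x z w = bb S F s r x' z' w := by
  unfold bb
  rw [Mt_congr _ hx]
  exact Mt_congr_fun _ (fun y _ => trans_vv_congr S hF y hz w)

lemma trans_norm_Lam (θ : ℝ) (Φ : Cube D → Cube D → ℝ) (r : ℕ) (x z : Cube D) :
    ‖Lam θ Φ r x z‖ = 1 := by
  unfold Lam
  rw [mul_comm, Complex.norm_exp_ofReal_mul_I]

lemma trans_norm_pp_le (S : Finset G) (F : Cube D → Cube D → G) (θ : ℝ)
    (Φ : Cube D → Cube D → ℝ) (s r t : ℕ) (x z : Cube D) (w : G) :
    ‖pp S F θ Φ s r t x z w‖ ≤ aa S F s t x z w := by
  unfold pp aa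
  refine (Mt_norm_le _ _ _).trans (Mt_mono _ (fun z' => ?_) _)
  rw [norm_smul, trans_norm_Lam, mul_one, Real.norm_of_nonneg (trans_uu_nonneg _ _ _ _ _ _)]

lemma trans_sq_div_le {p a : ℝ} (hp : 0 ≤ p) (h : p ≤ a) : p ^ 2 / a ≤ a := by
  rcases eq_or_lt_of_le (hp.trans h) with h0 | h0
  · rw [← h0, div_zero]
  · rw [div_le_iff₀ h0]
    nlinarith

variable [Fintype G]

/-! ### calculus of `EE` -/

lemma trans_EE_congr (S : Finset G) {g h : Cube D → Cube D → G → ℝ}
    (H : ∀ x z w, g x z w = h x z w) : EE S g = EE S h := by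
  have : g = h := by
    funext x z w
    exact H x z w
  rw [this]

lemma trans_EE_mono (S : Finset G) {g h : Cube D → Cube D → G → ℝ}
    (H : ∀ x z w, g x z w ≤ h x z w) : EE S g ≤ EE S h := by
  unfold EE
  refine mul_le_mul_of_nonneg_left (Finset.sum_le_sum fun w _ => ?_) (by positivity)
  exact avc_mono fun x => avc_mono fun z => H x z w

lemma trans_EE_nonneg (S : Finset G) {g : Cube D → Cube D → G → ℝ}
    (H : ∀ x z w, 0 ≤ g x z w) : 0 ≤ EE S g := by
  unfold EE
  refine mul_nonneg (by positivity) (Finset.sum_nonneg fun w _ => ?_)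
  exact avc_nonneg fun x => avc_nonneg fun z => H x z w

lemma trans_EE_add (S : Finset G) (g h : Cube D → Cube D → G → ℝ) :
    EE S (fun x z w => g x z w + h x z w) = EE S g + EE S h := by
  unfold EE
  rw [← mul_add, ← Finset.sum_add_distrib]
  simp only [avc_add]

lemma trans_EE_sub (S : Finset G) (g h : Cube D → Cube D → G → ℝ) :
    EE S (fun x z w => g x z w - h x z w) = EE S g - EE S h := by
  unfold EE
  rw [← mul_sub, ← Finset.sum_sub_distrib]
  simp only [avc_sub]

lemma trans_EE_const_mul (S : Finset G) (a : ℝ) (g : Cube D → Cube D → G → ℝ) :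
    EE S (fun x z w => a * g x z w) = a * EE S g := by
  unfold EE
  simp only [avc_mul_left]
  rw [← Finset.mul_sum]
  ring

lemma trans_EE_sum {ι : Type*} (r : Finset ι) (S : Finset G) (g : ι → Cube D → Cube D → G → ℝ) :
    EE S (fun x z w => ∑ i ∈ r, g i x z w) = ∑ i ∈ r, EE S (g i) := by
  unfold EE
  simp only [avc_sum]
  rw [Finset.sum_comm, Finset.mul_sum]

/-- the sum over `w` can be done first -/
lemma trans_EE_eq (S : Finset G) (g : Cube D → Cube D → G → ℝ) :
    EE S g = avc (fun x => avc (fun z => (S.card : ℝ)⁻¹ * ∑ w, g x z w)) := by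
  unfold EE
  rw [avc_congr (fun x => avc_mul_left (S.card : ℝ)⁻¹ (fun z => ∑ w, g x z w)), avc_mul_left]
  congr 1
  simp only [avc_sum]

/-- translation of `w` -/
theorem EE_shift (S : Finset G) (g : Cube D → Cube D → G → ℝ) (d : Cube D → Cube D → G) :
    EE S (fun x z w => g x z (w + d x z)) = EE S g := by
  rw [trans_EE_eq, trans_EE_eq]
  refine avc_congr fun x => avc_congr fun z => ?_
  congr 1
  exact Equiv.sum_comp (Equiv.addRight (d x z)) (fun w => g x z w)

theorem mass {S : Finset G} (F : Cube D → Cube D → G) (s : ℕ)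
    (h : Cube D → Cube D → ℝ) :
    EE S (fun x z w => uu S F s x z w * vv S F s x z w * h x z) =
      avc (fun x => avc (fun z => KK S (F x z) * h x z)) := by
  rw [← EE_shift S _ (fun x z => F (cut s x) z), trans_EE_eq]
  refine avc_congr fun x => avc_congr fun z => ?_
  unfold KK
  rw [mul_assoc, Finset.sum_mul]
  congr 1
  have h1 : ∀ w : G, uu S F s x z (w + F (cut s x) z) * vv S F s x z (w + F (cut s x) z) * h x z =
      if w ∈ S then ind S (w + F x z) * h x z else 0 := by
    intro w
    unfold uu vv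
    rw [add_sub_cancel_right, add_assoc, add_sub_cancel]
    by_cases hw : w ∈ S
    · rw [if_pos hw]
      have : ind S w = 1 := if_pos hw
      rw [this, one_mul]
    · rw [if_neg hw]
      have : ind S w = 0 := if_neg hw
      rw [this, zero_mul, zero_mul]
  rw [Finset.sum_congr rfl (fun w _ => h1 w), Finset.sum_ite_mem, Finset.univ_inter]

/-- `E[a_t b_r h] = E[u v h]` when `h` depends on `x_{<r}`, `z_{<t}`, `w` only -/
theorem EE_aa_bb {S : Finset G} {F : Cube D → Cube D → G} {s t r : ℕ} (hF : Split F s t)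
    (hr : s ≤ r) {t' : ℕ} (ht : t ≤ t') {h : Cube D → Cube D → ℝ}
    (hh : ∀ x x' z z', agree s x x' → agree t z z' → h x z = h x' z') :
    EE S (fun x z w => aa S F s t' x z w * bb S F s r x z w * h x z) =
      avc (fun x => avc (fun z => KK S (F x z) * h x z)) := by
  rw [← mass F s h]
  unfold EE
  congr 1
  refine Finset.sum_congr rfl fun w _ => ?_
  have h1 : ∀ x : Cube D, avc (fun z => aa S F s t' x z w * bb S F s r x z w * h x z) =
      avc (fun z => uu S F s x z w * bb S F s r x z w * h x z) := by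
    intro x
    have := avc_mul_Mt (s := t') (h := fun z => bb S F s r x z w * h x z)
      (fun z z' hz => by
        rw [trans_bb_congr S hF (agree_refl r x) (agree_mono ht hz) w,
          hh x x z z' (agree_refl s x) (agree_mono ht hz)])
      (fun z => uu S F s x z w)
    calc avc (fun z => aa S F s t' x z w * bb S F s r x z w * h x z)
        = avc (fun z => (bb S F s r x z w * h x z) * Mt t' (fun z' => uu S F s x z' w) z) :=
          avc_congr fun z => by unfold aa; ring
      _ = avc (fun z => (bb S F s r x z w * h x z) * uu S F s x z w) := this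
      _ = _ := avc_congr fun z => by ring
  rw [avc_congr h1, avc_comm, avc_comm (fun x z => uu S F s x z w * vv S F s x z w * h x z)]
  refine avc_congr fun z => ?_
  have := avc_mul_Mt (s := r) (h := fun x => uu S F s x z w * h x z)
    (fun x x' hx => by
      rw [trans_uu_congr S F (agree_mono hr hx) z w,
        hh x x' z z (agree_mono hr hx) (agree_refl t z)])
    (fun x => vv S F s x z w)
  calc avc (fun x => uu S F s x z w * bb S F s r x z w * h x z)
      = avc (fun x => (uu S F s x z w * h x z) * Mt r (fun x' => vv S F s x' z w) x) :=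
        avc_congr fun x => by unfold bb; ring
    _ = avc (fun x => (uu S F s x z w * h x z) * vv S F s x z w) := this
    _ = _ := avc_congr fun x => by ring

theorem En_zero_le {S : Finset G} {F : Cube D → Cube D → G} {θ : ℝ} {Φ : Cube D → Cube D → ℝ}
    {ν : ℕ} (hF : Split F 0 ν) :
    En S F θ Φ ν 0 ≤ avc (fun x => avc (fun z => KK S (F x z))) := by
  have h1 := EE_aa_bb (S := S) hF le_rfl (t' := ν - 0 + 1) (by omega) (h := fun _ _ => (1 : ℝ))
    (fun _ _ _ _ _ _ => rfl)
  simp only [mul_one] at h1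
  rw [← h1]
  unfold En
  refine trans_EE_mono S fun x z w => ?_
  rw [mul_div_assoc, mul_comm (aa S F 0 (ν - 0 + 1) x z w)]
  exact mul_le_mul_of_nonneg_left
    (trans_sq_div_le (norm_nonneg _) (trans_norm_pp_le S F θ Φ 0 0 (ν - 0 + 1) x z w))
    (trans_bb_nonneg S F 0 0 x z w)

end

end Disc32
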