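import Pool.Agent.Work.Disc32.Bias1D
import Pool.Agent.Work.Disc32.Trans

/-!
# The sums of the biases

Module J5 of the transfer theorem.
-/

namespace Disc32

open Finset

variable {D : ℕ}

lemma bias2_avc_negMulLog {r : Cube D → ℝ} (hr : ∀ x, 0 ≤ r x) :
    avc (fun x => Real.negMulLog (r x)) ≤ Real.negMulLog (avc r) := by
  have h1 : ∑ _i : Cube D, ((2 : ℝ) ^ D)⁻¹ = 1 := by
    rw [Finset.sum_const, Finset.card_univ, card_cube, nsmul_eq_mul]
    push_cast
    exact mul_inv_cancel₀ (by positivity)
  have h := negMulLog_avg (Finset.univ : Finset (Cube D)) (c := fun _ => ((2 : ℝ) ^ D)⁻¹) (r := r)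
    (fun _ _ => by positivity) h1 (fun x _ => hr x)
  rw [avc_real, avc_real, Finset.mul_sum, Finset.mul_sum]
  exact h

lemma bias2_avg {G : Type*} {S : Finset G} (hS : S.Nonempty) {g : G → Cube D → ℝ}
    (hg : ∀ c x, 0 ≤ g c x) :
    (S.card : ℝ)⁻¹ * ∑ c ∈ S, avc (fun x => Real.negMulLog (g c x)) ≤
      Real.negMulLog ((S.card : ℝ)⁻¹ * ∑ c ∈ S, avc (fun x => g c x)) := by
  have hc : (0 : ℝ) < S.card := by exact_mod_cast hS.card_pos
  have h1 : ∑ _i ∈ S, (S.card : ℝ)⁻¹ = 1 := by
    rw [Finset.sum_const, nsmul_eq_mul]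
    exact mul_inv_cancel₀ hc.ne'
  have h := negMulLog_avg S (c := fun _ => (S.card : ℝ)⁻¹) (r := fun c => avc (fun x => g c x))
    (fun _ _ => by positivity) h1 (fun c _ => avc_nonneg (hg c))
  calc (S.card : ℝ)⁻¹ * ∑ c ∈ S, avc (fun x => Real.negMulLog (g c x))
      ≤ (S.card : ℝ)⁻¹ * ∑ c ∈ S, Real.negMulLog (avc (fun x => g c x)) := by
        refine mul_le_mul_of_nonneg_left (Finset.sum_le_sum fun c _ => ?_) (by positivity)
        exact bias2_avc_negMulLog (hg c)
    _ = ∑ c ∈ S, (S.card : ℝ)⁻¹ * Real.negMulLog (avc (fun x => g c x)) := by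
        rw [Finset.mul_sum]
    _ ≤ Real.negMulLog (∑ c ∈ S, (S.card : ℝ)⁻¹ * avc (fun x => g c x)) := h
    _ = _ := by rw [Finset.mul_sum]

section

variable {G : Type*} [AddCommGroup G] [DecidableEq G] [Fintype G]

/-- the functional of the one-dimensional lemma -/
noncomputable def bias2_Q (t : ℕ) (V : Cube D → ℝ) (z : Cube D) : ℝ :=
  (Mt t (fun y => sg t y * V y) z) ^ 2 / Mt t V z

lemma bias2_Q_congr {t : ℕ} {V V' : Cube D → ℝ} {z : Cube D}
    (H : ∀ y, agree t y z → V y = V' y) : bias2_Q t V z = bias2_Q t V' z := by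
  unfold bias2_Q
  rw [Mt_congr_fun (g := V) (h := V') z H,
    Mt_congr_fun (g := fun y => sg t y * V y) (h := fun y => sg t y * V' y) z
      (fun y hy => by rw [H y hy])]

lemma bias2_Q_agree (t : ℕ) (V : Cube D → ℝ) {z z' : Cube D} (h : agree t z z') :
    bias2_Q t V z = bias2_Q t V z' := by
  unfold bias2_Q
  rw [Mt_congr V h, Mt_congr (fun y => sg t y * V y) h]

lemma bias2_ind_sum (S : Finset G) (f : G → ℝ) : ∑ w, ind S w * f w = ∑ c ∈ S, f c := by
  have h1 : ∀ w : G, ind S w * f w = if w ∈ S then f w else 0 := by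
    intro w
    unfold ind
    split_ifs <;> simp
  rw [Finset.sum_congr rfl (fun w _ => h1 w), Finset.sum_ite_mem, Finset.univ_inter]

lemma bias2_betaz_eq (S : Finset G) {F : Cube D → Cube D → G} {s t : ℕ} (hF : Split F s t) :
    betaz S F s t = (S.card : ℝ)⁻¹ * ∑ c ∈ S, avc (fun x => avc (fun z =>
      bias2_Q t (fun z' => ind S (c - F x z')) z)) := by
  have h1 : betaz S F s t = EE S (fun x z w => vv S F s x z w *
      bias2_Q t (fun z' => uu S F s x z' w) z) := by
    unfold betaz EE
    congr 1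
    refine Finset.sum_congr rfl fun w _ => ?_
    rw [avc_comm, avc_comm (fun x z => vv S F s x z w * bias2_Q t (fun z' => uu S F s x z' w) z)]
    refine avc_congr fun z => ?_
    have := avc_mul_Mt (s := s) (h := fun x => bias2_Q t (fun z' => uu S F s x z' w) z)
      (fun x x' hx => by
        have : (fun z' => uu S F s x z' w) = (fun z' => uu S F s x' z' w) := by
          funext z'
          exact trans_uu_congr S F hx z' w
        beta_reduce
        rw [this])
      (fun x => vv S F s x z w)
    calc _ = avc (fun x => bias2_Q t (fun z' => uu S F s x z' w) z *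
          Mt s (fun x' => vv S F s x' z w) x) := avc_congr fun x => by
            unfold bb aa bias2_Q; ring
      _ = _ := this
      _ = _ := avc_congr fun x => by ring
  rw [h1, ← EE_shift S _ (fun x z => -(F x z - F (cut s x) z)), trans_EE_eq]
  have h2 : ∀ x z : Cube D, ∀ w : G,
      vv S F s x z (w + -(F x z - F (cut s x) z)) *
        bias2_Q t (fun z' => uu S F s x z' (w + -(F x z - F (cut s x) z))) z =
      ind S w * bias2_Q t (fun z' => ind S (w - F x z')) z := by
    intro x z w
    have e1 : vv S F s x z (w + -(F x z - F (cut s x) z)) = ind S w := by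
      unfold vv
      congr 1
      abel
    rw [e1]
    congr 1
    refine bias2_Q_congr fun y hy => ?_
    unfold uu
    congr 1
    have h := hF x (cut s x) z y (agree_symm (agree_cut s x)) (agree_symm hy)
    have h' : F x z - F (cut s x) z = F x y - F (cut s x) y := by
      rw [sub_eq_sub_iff_add_eq_add, h, add_comm]
    rw [h']
    abel
  have h3 : ∀ x z : Cube D, (S.card : ℝ)⁻¹ * ∑ w, (vv S F s x z (w + -(F x z - F (cut s x) z)) *
        bias2_Q t (fun z' => uu S F s x z' (w + -(F x z - F (cut s x) z))) z) =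
      (S.card : ℝ)⁻¹ * ∑ c ∈ S, bias2_Q t (fun z' => ind S (c - F x z')) z := by
    intro x z
    congr 1
    rw [Finset.sum_congr rfl (fun w _ => h2 x z w), bias2_ind_sum]
  rw [avc_congr fun x => avc_congr fun z => h3 x z]
  rw [avc_congr fun x => avc_mul_left (S.card : ℝ)⁻¹
    (fun z => ∑ c ∈ S, bias2_Q t (fun z' => ind S (c - F x z')) z), avc_mul_left]
  congr 1
  rw [avc_congr fun x => avc_sum S (fun c z => bias2_Q t (fun z' => ind S (c - F x z')) z), avc_sum]

lemma bias2_betax_eq (S : Finset G) {F : Cube D → Cube D → G} {s t : ℕ} (hF : Split F s t) :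
    betax S F s t = (S.card : ℝ)⁻¹ * ∑ c ∈ S, avc (fun z => avc (fun x =>
      bias2_Q s (fun x' => ind S (c + F x' z)) x)) := by
  have h1 : betax S F s t = EE S (fun x z w => uu S F s x z w *
      bias2_Q s (fun x' => vv S F s x' z w) x) := by
    unfold betax EE
    congr 1
    refine Finset.sum_congr rfl fun w _ => ?_
    refine avc_congr fun x => ?_
    have := avc_mul_Mt (s := t) (h := fun z => bias2_Q s (fun x' => vv S F s x' z w) x)
      (fun z z' hz => by
        have : (fun x' => vv S F s x' z w) = (fun x' => vv S F s x' z' w) := by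
          funext x'
          exact trans_vv_congr S hF x' hz w
        beta_reduce
        rw [this])
      (fun z => uu S F s x z w)
    calc _ = avc (fun z => bias2_Q s (fun x' => vv S F s x' z w) x *
          Mt t (fun z' => uu S F s x z' w) z) := avc_congr fun z => by
            unfold bb aa bias2_Q; ring
      _ = _ := this
      _ = _ := avc_congr fun z => by ring
  rw [h1, ← EE_shift S _ (fun x z => F (cut s x) z), trans_EE_eq]
  have h2 : ∀ x z : Cube D, ∀ w : G,
      uu S F s x z (w + F (cut s x) z) *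
        bias2_Q s (fun x' => vv S F s x' z (w + F (cut s x) z)) x =
      ind S w * bias2_Q s (fun x' => ind S (w + F x' z)) x := by
    intro x z w
    have e1 : uu S F s x z (w + F (cut s x) z) = ind S w := by
      unfold uu
      congr 1
      abel
    rw [e1]
    congr 1
    refine bias2_Q_congr fun y hy => ?_
    unfold vv
    congr 1
    rw [cut_of_agree hy]
    abel
  have h3 : ∀ x z : Cube D, (S.card : ℝ)⁻¹ * ∑ w, (uu S F s x z (w + F (cut s x) z) *
        bias2_Q s (fun x' => vv S F s x' z (w + F (cut s x) z)) x) =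
      (S.card : ℝ)⁻¹ * ∑ c ∈ S, bias2_Q s (fun x' => ind S (c + F x' z)) x := by
    intro x z
    congr 1
    rw [Finset.sum_congr rfl (fun w _ => h2 x z w), bias2_ind_sum]
  rw [avc_congr fun x => avc_congr fun z => h3 x z, avc_comm]
  rw [avc_congr fun z => avc_mul_left (S.card : ℝ)⁻¹
    (fun x => ∑ c ∈ S, bias2_Q s (fun x' => ind S (c + F x' z)) x), avc_mul_left]
  congr 1
  rw [avc_congr fun z => avc_sum S (fun c x => bias2_Q s (fun x' => ind S (c + F x' z)) x), avc_sum]

lemma bias2_ind_KK (S : Finset G) (g : G) :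
    (S.card : ℝ)⁻¹ * ∑ c ∈ S, ind S (c - g) = KK S g := by
  unfold KK
  congr 1
  rw [← bias2_ind_sum S (fun c => ind S (c - g)), ← bias2_ind_sum S (fun c => ind S (c + g))]
  rw [← Equiv.sum_comp (Equiv.addRight g) (fun c => ind S c * ind S (c - g))]
  refine Finset.sum_congr rfl fun c _ => ?_
  simp only [Equiv.coe_addRight, add_sub_cancel_right]
  ring

lemma bias2_reflect (f : ℕ → ℝ) (ν : ℕ) :
    ∑ s ∈ range (ν + 1), f (ν - s) = ∑ t ∈ range (ν + 1), f t := by
  have := Finset.sum_range_reflect f (ν + 1)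
  rw [← this]
  refine Finset.sum_congr rfl fun s _ => ?_
  congr 1

theorem sum_betaz {S : Finset G} (hS : S.Nonempty) {F : Cube D → Cube D → G} {ν : ℕ} (hν : ν < D)
    (hF : ∀ s ≤ ν, Split F s (ν - s)) :
    ∑ s ∈ range (ν + 1), betaz S F s (ν - s) ≤
      6 * Real.negMulLog (avc (fun x => avc (fun z => KK S (F x z)))) := by
  have e1 : ∑ s ∈ range (ν + 1), betaz S F s (ν - s) =
      (S.card : ℝ)⁻¹ * ∑ c ∈ S, avc (fun x => ∑ t ∈ range (ν + 1), avc (fun z =>
        bias2_Q t (fun z' => ind S (c - F x z')) z)) := by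
    rw [Finset.sum_congr rfl (fun s hs => bias2_betaz_eq S
      (hF s (Nat.lt_succ_iff.mp (Finset.mem_range.mp hs))))]
    rw [← Finset.mul_sum, Finset.sum_comm]
    congr 1
    refine Finset.sum_congr rfl fun c _ => ?_
    rw [← avc_sum]
    exact avc_congr fun x => bias2_reflect (fun t => avc (fun z =>
        bias2_Q t (fun z' => ind S (c - F x z')) z)) ν
  rw [e1]
  have e2 : ∀ (c : G) (x : Cube D), ∑ t ∈ range (ν + 1), avc (fun z =>
        bias2_Q t (fun z' => ind S (c - F x z')) z) ≤
      6 * Real.negMulLog (avc (fun z => ind S (c - F x z))) := by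
    intro c x
    exact bias1D (V := fun z => ind S (c - F x z)) (fun z => trans_ind_nonneg S _)
      (fun z => trans_ind_le_one S _) (Nat.succ_le_of_lt hν)
  calc (S.card : ℝ)⁻¹ * ∑ c ∈ S, avc (fun x => ∑ t ∈ range (ν + 1), avc (fun z =>
        bias2_Q t (fun z' => ind S (c - F x z')) z))
      ≤ (S.card : ℝ)⁻¹ * ∑ c ∈ S, avc (fun x =>
          6 * Real.negMulLog (avc (fun z => ind S (c - F x z)))) := by
        refine mul_le_mul_of_nonneg_left (Finset.sum_le_sum fun c _ => ?_) (by positivity)
        exact avc_mono fun x => e2 c x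
    _ = 6 * ((S.card : ℝ)⁻¹ * ∑ c ∈ S, avc (fun x =>
          Real.negMulLog (avc (fun z => ind S (c - F x z))))) := by
        rw [Finset.sum_congr rfl (fun c _ => avc_mul_left 6 (fun x =>
          Real.negMulLog (avc (fun z => ind S (c - F x z))))), ← Finset.mul_sum]
        ring
    _ ≤ 6 * Real.negMulLog ((S.card : ℝ)⁻¹ * ∑ c ∈ S, avc (fun x =>
          avc (fun z => ind S (c - F x z)))) := by
        refine mul_le_mul_of_nonneg_left ?_ (by norm_num)
        exact bias2_avg hS (fun c x => avc_nonneg fun z => trans_ind_nonneg S _)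
    _ = _ := by
        congr 2
        rw [← avc_sum, ← avc_mul_left]
        refine avc_congr fun x => ?_
        rw [← avc_sum, ← avc_mul_left]
        exact avc_congr fun z => bias2_ind_KK S (F x z)

theorem sum_betax {S : Finset G} (hS : S.Nonempty) {F : Cube D → Cube D → G} {ν : ℕ} (hν : ν < D)
    (hF : ∀ s ≤ ν, Split F s (ν - s)) :
    ∑ s ∈ range (ν + 1), betax S F s (ν - s) ≤
      6 * Real.negMulLog (avc (fun x => avc (fun z => KK S (F x z)))) := by
  have e1 : ∑ s ∈ range (ν + 1), betax S F s (ν - s) =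
      (S.card : ℝ)⁻¹ * ∑ c ∈ S, avc (fun z => ∑ s ∈ range (ν + 1), avc (fun x =>
        bias2_Q s (fun x' => ind S (c + F x' z)) x)) := by
    rw [Finset.sum_congr rfl (fun s hs => bias2_betax_eq S
      (hF s (Nat.lt_succ_iff.mp (Finset.mem_range.mp hs))))]
    rw [← Finset.mul_sum, Finset.sum_comm]
    congr 1
    refine Finset.sum_congr rfl fun c _ => ?_
    rw [← avc_sum]
  rw [e1]
  have e2 : ∀ (c : G) (z : Cube D), ∑ s ∈ range (ν + 1), avc (fun x =>
        bias2_Q s (fun x' => ind S (c + F x' z)) x) ≤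
      6 * Real.negMulLog (avc (fun x => ind S (c + F x z))) := by
    intro c z
    exact bias1D (V := fun x => ind S (c + F x z)) (fun x => trans_ind_nonneg S _)
      (fun x => trans_ind_le_one S _) (Nat.succ_le_of_lt hν)
  calc (S.card : ℝ)⁻¹ * ∑ c ∈ S, avc (fun z => ∑ s ∈ range (ν + 1), avc (fun x =>
        bias2_Q s (fun x' => ind S (c + F x' z)) x))
      ≤ (S.card : ℝ)⁻¹ * ∑ c ∈ S, avc (fun z =>
          6 * Real.negMulLog (avc (fun x => ind S (c + F x z)))) := by
        refine mul_le_mul_of_nonneg_left (Finset.sum_le_sum fun c _ => ?_) (by positivity)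
        exact avc_mono fun z => e2 c z
    _ = 6 * ((S.card : ℝ)⁻¹ * ∑ c ∈ S, avc (fun z =>
          Real.negMulLog (avc (fun x => ind S (c + F x z))))) := by
        rw [Finset.sum_congr rfl (fun c _ => avc_mul_left 6 (fun z =>
          Real.negMulLog (avc (fun x => ind S (c + F x z))))), ← Finset.mul_sum]
        ring
    _ ≤ 6 * Real.negMulLog ((S.card : ℝ)⁻¹ * ∑ c ∈ S, avc (fun z =>
          avc (fun x => ind S (c + F x z)))) := by
        refine mul_le_mul_of_nonneg_left ?_ (by norm_num)
        exact bias2_avg hS (fun c z => avc_nonneg fun x => trans_ind_nonneg S _)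
    _ = _ := by
        congr 2
        rw [avc_comm (fun x z => KK S (F x z)), ← avc_sum, ← avc_mul_left]
        refine avc_congr fun z => ?_
        rw [← avc_sum, ← avc_mul_left]
        exact avc_congr fun x => rfl

end

end Disc32
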