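import Pool.Agent.Work.Disc32.DefsB

/-!
# Expectations and conditional expectations as averages over cubes
-/

namespace Disc32

open Finset Disc3

variable {L : ℕ}

/-- the three coordinates of a point -/
def Bridge_equiv : (Cube L × Cube L × Cube L) ≃ Om L where
  toFun p := emb p.1 p.2.1 p.2.2
  invFun ω := (ω 0, ω 1, ω 2)
  left_inv p := rfl
  right_inv ω := by
    funext c
    fin_cases c <;> rfl

theorem Ex_eq_avc (g : Om L → ℝ) :
    Ex (Pw L) g = avc (fun y => avc (fun x => avc (fun z => g (emb x z y)))) := by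
  have h1 : Ex (Pw L) g = ((8 : ℝ) ^ L)⁻¹ * ∑ ω, g ω := by
    unfold Ex Pw
    rw [Finset.mul_sum]
  have h2 : ∑ ω, g ω = ∑ y : Cube L, ∑ x : Cube L, ∑ z : Cube L, g (emb x z y) := by
    rw [← Equiv.sum_comp (Bridge_equiv (L := L)) g, Fintype.sum_prod_type]
    have h3 : ∀ x : Cube L, ∑ p : Cube L × Cube L, g (Bridge_equiv (x, p)) =
        ∑ y : Cube L, ∑ z : Cube L, g (emb x z y) := by
      intro x
      rw [Fintype.sum_prod_type, Finset.sum_comm]
      rfl
    rw [Finset.sum_congr rfl (fun x _ => h3 x), Finset.sum_comm]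
  have h8 : ((8 : ℝ) ^ L)⁻¹ = ((2 : ℝ) ^ L)⁻¹ * (((2 : ℝ) ^ L)⁻¹ * ((2 : ℝ) ^ L)⁻¹) := by
    rw [← mul_inv, ← mul_inv, ← mul_pow, ← mul_pow]
    norm_num
  rw [h1, h2, h8]
  simp only [avc_real, ← Finset.mul_sum]
  ring

lemma Bridge_rel {s t l : ℕ} {x x' z z' y y' : Cube L} (hx : agree s x x') (hz : agree t z z')
    (hy : agree l y y') : rel ![s, t, l] (emb x z y) (emb x' z' y') := by
  intro c i hi
  fin_cases c
  · exact hx i hi
  · exact hz i hi
  · exact hy i hi

theorem CE_eq_Mt {s t l : ℕ} (g : Om L → ℝ) (x z y : Cube L) :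
    CE (Pw L) ![s, t, l] g (emb x z y) =
      Mt s (fun x' => Mt t (fun z' => Mt l (fun y' => g (emb x' z' y')) y) z) x := by
  refine CE_unique (v := ![s, t, l]) (k := fun ω => Mt s (fun x' => Mt t (fun z' =>
    Mt l (fun y' => g (emb x' z' y')) (ω 2)) (ω 1)) (ω 0)) Pw_pos ?_ (fun h hh => ?_) (emb x z y)
  · intro ω ω' hr
    have h0 : agree s (ω 0) (ω' 0) := fun i hi => hr 0 i hi
    have h1 : agree t (ω 1) (ω' 1) := fun i hi => hr 1 i hi
    have h2 : agree l (ω 2) (ω' 2) := fun i hi => hr 2 i hi
    show Mt s (fun x' => Mt t (fun z' => Mt l (fun y' => g (emb x' z' y')) (ω 2)) (ω 1)) (ω 0) =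
      Mt s (fun x' => Mt t (fun z' => Mt l (fun y' => g (emb x' z' y')) (ω' 2)) (ω' 1)) (ω' 0)
    rw [Mt_congr _ h0]
    congr 1
    funext x'
    rw [Mt_congr _ h1]
    congr 1
    funext z'
    exact Mt_congr _ h2
  · rw [Ex_eq_avc, Ex_eq_avc]
    -- the three digit strings of a point
    have e : ∀ x z y : Cube L, h (emb x z y) * Mt s (fun x' => Mt t (fun z' =>
        Mt l (fun y' => g (emb x' z' y')) ((emb x z y : Om L) 2)) ((emb x z y : Om L) 1))
          ((emb x z y : Om L) 0) =
        h (emb x z y) * Mt s (fun x' => Mt t (fun z' =>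
          Mt l (fun y' => g (emb x' z' y')) y) z) x := fun _ _ _ => rfl
    have s1 : ∀ y z : Cube L, avc (fun x => h (emb x z y) * Mt s (fun x' => Mt t (fun z' =>
          Mt l (fun y' => g (emb x' z' y')) y) z) x) =
        avc (fun x => h (emb x z y) * Mt t (fun z' =>
          Mt l (fun y' => g (emb x z' y')) y) z) := fun y z =>
      avc_mul_Mt (fun a b hab => hh _ _ (Bridge_rel hab (agree_refl _ _) (agree_refl _ _))) _
    have s2 : ∀ y x : Cube L, avc (fun z => h (emb x z y) * Mt t (fun z' =>
          Mt l (fun y' => g (emb x z' y')) y) z) =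
        avc (fun z => h (emb x z y) * Mt l (fun y' => g (emb x z y')) y) := fun y x =>
      avc_mul_Mt (fun a b hab => hh _ _ (Bridge_rel (agree_refl _ _) hab (agree_refl _ _))) _
    have s3 : ∀ x z : Cube L, avc (fun y => h (emb x z y) * Mt l (fun y' => g (emb x z y')) y) =
        avc (fun y => h (emb x z y) * g (emb x z y)) := fun x z =>
      avc_mul_Mt (fun a b hab => hh _ _ (Bridge_rel (agree_refl _ _) (agree_refl _ _) hab)) _
    calc avc (fun y => avc (fun x => avc (fun z => h (emb x z y) * Mt s (fun x' =>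
            Mt t (fun z' => Mt l (fun y' => g (emb x' z' y')) ((emb x z y : Om L) 2))
              ((emb x z y : Om L) 1)) ((emb x z y : Om L) 0))))
        = avc (fun y => avc (fun z => avc (fun x => h (emb x z y) * Mt s (fun x' =>
            Mt t (fun z' => Mt l (fun y' => g (emb x' z' y')) y) z) x))) :=
          avc_congr fun y => avc_comm _
      _ = avc (fun y => avc (fun z => avc (fun x => h (emb x z y) *
            Mt t (fun z' => Mt l (fun y' => g (emb x z' y')) y) z))) :=
          avc_congr fun y => avc_congr fun z => s1 y z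
      _ = avc (fun y => avc (fun x => avc (fun z => h (emb x z y) *
            Mt t (fun z' => Mt l (fun y' => g (emb x z' y')) y) z))) :=
          avc_congr fun y => avc_comm _
      _ = avc (fun y => avc (fun x => avc (fun z => h (emb x z y) *
            Mt l (fun y' => g (emb x z y')) y))) :=
          avc_congr fun y => avc_congr fun x => s2 y x
      _ = avc (fun x => avc (fun z => avc (fun y => h (emb x z y) *
            Mt l (fun y' => g (emb x z y')) y))) := by
          rw [avc_comm]
          exact avc_congr fun x => avc_comm _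
      _ = avc (fun x => avc (fun z => avc (fun y => h (emb x z y) * g (emb x z y)))) :=
          avc_congr fun x => avc_congr fun z => s3 x z
      _ = avc (fun y => avc (fun x => avc (fun z => h (emb x z y) * g (emb x z y)))) := by
          symm
          rw [avc_comm]
          exact avc_congr fun x => avc_comm _

end Disc32
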