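import Pool.Agent.Work.Disc32.Level

/-!
# The small-ball bound for a set of levels, and its expanded form
-/

namespace Disc32

open Finset

variable {D : ℕ}

lemma claim_tri_nonneg (τ F : ℝ) : 0 ≤ tri τ F := le_max_left _ _

lemma claim_tri_le_one {τ : ℝ} (hτ : 0 ≤ τ) (F : ℝ) : tri τ F ≤ 1 :=
  max_le zero_le_one (sub_le_self 1 (div_nonneg (abs_nonneg F) hτ))

theorem claimP {m k q R : ℕ} {κ ε : ℝ} {F : ℕ → Cube (m * D) → Cube (m * D) → ℝ}
    {e : ℕ → ℕ → Cube (m * D) → Cube (m * D) → ℝ} (hm : 0 < m) (hq : 0 < q) (hR : 0 < R)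
    (hD : k ≤ D) (hk : 10 ^ 5 ≤ k) (hκ : 0 < κ) (hε0 : 0 ≤ ε) (hε : ε ≤ 1 / 512)
    (hτ1 : 128 * ((R : ℝ) / q) ^ 2 ≤ κ ^ 2 * k) (hτ2 : 256 * κ ^ 2 ≤ ((R : ℝ) / q) ^ 2)
    (fam : Fam m D k q κ ε F e) (Sl : Finset ℕ) (hSl : ∀ j ∈ Sl, k ≤ 2 * j ∧ j < k) :
    avc (fun x => avc (fun z => ∏ j ∈ Sl, tri (R / q) (F j x z))) ≤
      max ((3 / 4) ^ Sl.card) (Real.exp (-(k / 10 ^ 4))) := by
  have hτ0 : (0 : ℝ) ≤ (R : ℝ) / q := by positivity
  induction Sl using Finset.induction_on_max with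
  | empty =>
    refine le_max_of_le_left ?_
    simp only [Finset.prod_empty, Finset.card_empty, pow_zero, avc_const]
    exact le_rfl
  | insert ν Sl hmax ih =>
    have hν : ν ∉ Sl := fun h => lt_irrefl ν (hmax ν h)
    have ih' := ih (fun j hj => hSl j (Finset.mem_insert_of_mem hj))
    obtain ⟨hν1, hν2⟩ := hSl ν (Finset.mem_insert_self ν Sl)
    rw [Finset.card_insert_of_notMem hν, pow_succ]
    by_cases hZ : Real.exp (-(k / 10 ^ 4)) ≤
        avc (fun x => avc (fun z => ∏ j ∈ Sl, tri (R / q) (F j x z)))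
    · have hs := level_step hm hq hR hD hk hκ hε0 hε hτ1 hτ2 fam hν1 hν2 hmax hZ
      refine hs.trans ?_
      rcases le_max_iff.mp ih' with h | h
      · refine le_max_of_le_left ?_
        rw [mul_comm ((3 / 4 : ℝ) ^ Sl.card)]
        exact mul_le_mul_of_nonneg_left h (by norm_num)
      · refine le_max_of_le_right ?_
        have hpos := Real.exp_pos (-((k : ℝ) / 10 ^ 4))
        linarith
    · refine le_max_of_le_right ?_
      refine le_trans ?_ (not_le.mp hZ).le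
      refine avc_mono fun x => avc_mono fun z => ?_
      rw [Finset.prod_insert hν]
      have h1 : 0 ≤ ∏ j ∈ Sl, tri (R / q) (F j x z) :=
        Finset.prod_nonneg fun j _ => claim_tri_nonneg _ _
      exact mul_le_of_le_one_left h1 (claim_tri_le_one hτ0 _)

/-- the expanded form used with the Gibbs inequality; `Ico (k/2+1) k` is the set of levels -/
theorem prod_bound {m k q R : ℕ} {κ ε : ℝ} {F : ℕ → Cube (m * D) → Cube (m * D) → ℝ}
    {e : ℕ → ℕ → Cube (m * D) → Cube (m * D) → ℝ} (hm : 0 < m) (hq : 0 < q) (hR : 0 < R)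
    (hD : k ≤ D) (hk : 10 ^ 7 ≤ k) (hκ : 0 < κ) (hε0 : 0 ≤ ε) (hε : ε ≤ 1 / 512)
    (hτ1 : 128 * ((R : ℝ) / q) ^ 2 ≤ κ ^ 2 * k) (hτ2 : 256 * κ ^ 2 ≤ ((R : ℝ) / q) ^ 2)
    (fam : Fam m D k q κ ε F e) :
    avc (fun x => avc (fun z => ∏ j ∈ Ico (k / 2 + 1) k,
      (tri (R / q) (F j x z) + 1 / 10 ^ 4))) ≤ 2 * Real.exp (-(k / (2 * 10 ^ 4))) := by
  set I := Ico (k / 2 + 1) k with hI
  have hcard : I.card = k - (k / 2 + 1) := by rw [hI, Nat.card_Ico]
  have hc1 : 2 * I.card ≤ k := by omega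
  have hc2 : k ≤ 2 * I.card + 2 := by omega
  have hc1' : 2 * (I.card : ℝ) ≤ k := by exact_mod_cast hc1
  have hc2' : (k : ℝ) ≤ 2 * I.card + 2 := by exact_mod_cast hc2
  have hkR : (10 : ℝ) ^ 7 ≤ k := by exact_mod_cast hk
  have hexp : ∀ T : Finset ℕ, T ⊆ I →
      avc (fun x => avc (fun z => ∏ j ∈ T, tri (R / q) (F j x z))) ≤
        (3 / 4) ^ T.card + Real.exp (-(k / 10 ^ 4)) := by
    intro T hT
    have h := claimP hm hq hR hD (le_trans (by norm_num) hk) hκ hε0 hε hτ1 hτ2 fam T (by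
      intro j hj
      have := hT hj
      rw [hI, Finset.mem_Ico] at this
      constructor <;> omega)
    refine h.trans (max_le ?_ ?_)
    · have := Real.exp_pos (-((k : ℝ) / 10 ^ 4)); linarith
    · have : (0 : ℝ) ≤ (3 / 4) ^ T.card := by positivity
      linarith
  have hmain : avc (fun x => avc (fun z => ∏ j ∈ I, (tri (R / q) (F j x z) + 1 / 10 ^ 4))) =
      ∑ T ∈ I.powerset, avc (fun x => avc (fun z => ∏ j ∈ T, tri (R / q) (F j x z))) *
        (1 / 10 ^ 4) ^ (I \ T).card := by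
    have h1 : ∀ x z, ∏ j ∈ I, (tri (R / q) (F j x z) + 1 / 10 ^ 4) =
        ∑ T ∈ I.powerset, (∏ j ∈ T, tri (R / q) (F j x z)) * (1 / 10 ^ 4) ^ (I \ T).card := by
      intro x z
      rw [Finset.prod_add]
      refine Finset.sum_congr rfl fun T _ => ?_
      rw [Finset.prod_const]
    simp_rw [h1, avc_sum, avc_mul_right]
  rw [hmain]
  have hle : ∑ T ∈ I.powerset, avc (fun x => avc (fun z => ∏ j ∈ T, tri (R / q) (F j x z))) *
        (1 / 10 ^ 4) ^ (I \ T).card ≤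
      ∑ T ∈ I.powerset, ((3 / 4) ^ T.card * (1 / 10 ^ 4) ^ (I \ T).card
        + Real.exp (-(k / 10 ^ 4)) * (1 ^ T.card * (1 / 10 ^ 4) ^ (I \ T).card)) := by
    refine Finset.sum_le_sum fun T hT => ?_
    have h2 := hexp T (Finset.mem_powerset.mp hT)
    have h3 : (0 : ℝ) ≤ (1 / 10 ^ 4) ^ (I \ T).card := by positivity
    have h4 := mul_le_mul_of_nonneg_right h2 h3
    rw [one_pow, one_mul]
    linarith
  refine hle.trans ?_
  rw [Finset.sum_add_distrib, ← Finset.mul_sum]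
  have e1 : ∑ T ∈ I.powerset, ((3 / 4 : ℝ) ^ T.card * (1 / 10 ^ 4) ^ (I \ T).card) =
      (3 / 4 + 1 / 10 ^ 4) ^ I.card := by
    have := Finset.prod_add (fun _ : ℕ => (3 / 4 : ℝ)) (fun _ => (1 / 10 ^ 4 : ℝ)) I
    simp only [Finset.prod_const] at this
    exact this.symm
  have e2 : ∑ T ∈ I.powerset, ((1 : ℝ) ^ T.card * (1 / 10 ^ 4) ^ (I \ T).card) =
      (1 + 1 / 10 ^ 4) ^ I.card := by
    have := Finset.prod_add (fun _ : ℕ => (1 : ℝ)) (fun _ => (1 / 10 ^ 4 : ℝ)) I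
    simp only [Finset.prod_const] at this
    exact this.symm
  rw [e1, e2]
  have b1 : (3 / 4 + 1 / 10 ^ 4 : ℝ) ^ I.card ≤ Real.exp (-(k / (2 * 10 ^ 4))) := by
    have h5 : (3 / 4 + 1 / 10 ^ 4 : ℝ) ≤ Real.exp (-(1 / 8)) := by
      have := Real.add_one_le_exp (-(1 / 8 : ℝ))
      linarith
    calc (3 / 4 + 1 / 10 ^ 4 : ℝ) ^ I.card ≤ (Real.exp (-(1 / 8))) ^ I.card :=
          pow_le_pow_left₀ (by norm_num) h5 _
      _ = Real.exp (I.card * (-(1 / 8))) := by rw [Real.exp_nat_mul]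
      _ ≤ Real.exp (-(k / (2 * 10 ^ 4))) := by
          rw [Real.exp_le_exp]
          linarith
  have b2 : Real.exp (-(k / 10 ^ 4)) * (1 + 1 / 10 ^ 4 : ℝ) ^ I.card ≤
      Real.exp (-(k / (2 * 10 ^ 4))) := by
    have h5 : (1 + 1 / 10 ^ 4 : ℝ) ≤ Real.exp (1 / 10 ^ 4) := by
      have := Real.add_one_le_exp (1 / 10 ^ 4 : ℝ)
      linarith
    calc Real.exp (-(k / 10 ^ 4)) * (1 + 1 / 10 ^ 4 : ℝ) ^ I.card
        ≤ Real.exp (-(k / 10 ^ 4)) * (Real.exp (1 / 10 ^ 4)) ^ I.card :=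
          mul_le_mul_of_nonneg_left (pow_le_pow_left₀ (by norm_num) h5 _) (Real.exp_pos _).le
      _ = Real.exp (-(k / 10 ^ 4) + I.card * (1 / 10 ^ 4)) := by
          rw [Real.exp_add, Real.exp_nat_mul]
      _ ≤ Real.exp (-(k / (2 * 10 ^ 4))) := by
          rw [Real.exp_le_exp]
          linarith
  linarith

end Disc32
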