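import Pool.Agent.Work.Disc32.FnAlg
import Pool.Agent.Work.MP_d500f7_co.Lower
import Pool.Agent.Work.MP_d500f7_co.Boxes

/-!
# Discrepancy input for the staircase truncations
-/

namespace Disc32

open Finset Disc3

variable {L : ℕ}

lemma FnDisc_em_eq_one {N : ℕ} {u : Fin N → Fin 3 → ℝ} {s t l : ℕ} {ω : Om L}
    (he : em u s t l ω = 1) : ∀ i, ¬ inBox ![s, t, l] ω (u i) := by
  intro i hi
  unfold Disc3.em at he
  rw [if_pos ⟨i, hi⟩] at he
  exact zero_ne_one he

lemma FnDisc_em_mem {N : ℕ} (u : Fin N → Fin 3 → ℝ) (s t l : ℕ) (ω : Om L) :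
    0 ≤ em u s t l ω ∧ em u s t l ω ≤ 1 := by
  unfold Disc3.em
  split_ifs <;> norm_num

lemma FnDisc_setb_mem {k s : ℕ} (hk : k ≤ s) (b : Bool) (x : Cube L) :
    setb s b x ∈ OneD.S1 k x := by
  rw [OneD.mem_S1]
  intro i hi
  simp only [setb]
  rw [if_neg (by omega)]

lemma FnDisc_S1_sub {s a : ℕ} (h : s ≤ a) (b : Bool) {x y : Cube L}
    (hy : y ∈ OneD.S1 a (setb s b x)) : y ∈ OneD.S1 s x := by
  rw [OneD.mem_S1] at hy ⊢
  intro i hi
  rw [← hy i (by omega)]
  simp only [setb]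
  rw [if_neg (by omega)]

lemma FnDisc_d1_setb_other {s i : ℕ} (h : i ≠ s) (b : Bool) (x : Cube L) :
    OneD.d1 i (setb s b x) = OneD.d1 i x := by
  unfold OneD.d1
  by_cases hi : i < L
  · rw [dif_pos hi, dif_pos hi]
    have h1 : setb s b x ⟨i, hi⟩ = x ⟨i, hi⟩ := by
      simp only [setb]
      rw [if_neg h]
    simp only [h1]
  · rw [dif_neg hi, dif_neg hi]

lemma FnDisc_d1_setb_same {s : ℕ} (hs : s < L) (b : Bool) (x : Cube L) :
    OneD.d1 s (setb s b x) = if b then 1 else -1 := by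
  unfold OneD.d1
  rw [dif_pos hs]
  simp [setb]

/-- the difference of the averages of the coordinate -/
lemma FnDisc_diff_a1 {s a : ℕ} (hs : s < a) (ha : a ≤ L) (x : Cube L) :
    OneD.Av a (OneD.a1 L) (setb s true x) - OneD.Av a (OneD.a1 L) (setb s false x) =
      (1 / 2 : ℝ) ^ (s + 1) := by
  have h1 : ∀ b, OneD.Av a (OneD.a1 L) (setb s b x) = OneD.a1 L (setb s b x) -
      ∑ i ∈ Ico a L, OneD.d1 i (setb s b x) * (1 / 2 : ℝ) ^ (i + 2) := fun b => by
    have := OneD.Av_a1 ha (setb s b x)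
    linarith
  have h2 : ∀ b, ∑ i ∈ Ico a L, OneD.d1 i (setb s b x) * (1 / 2 : ℝ) ^ (i + 2) =
      ∑ i ∈ Ico a L, OneD.d1 i x * (1 / 2 : ℝ) ^ (i + 2) := fun b => by
    refine Finset.sum_congr rfl (fun i hi => ?_)
    rw [Finset.mem_Ico] at hi
    rw [FnDisc_d1_setb_other (by omega)]
  rw [h1, h1, h2, h2]
  unfold OneD.a1
  rw [sub_sub_sub_cancel_right, ← Finset.sum_sub_distrib,
    Finset.sum_eq_single_of_mem s (mem_range.2 (by omega))]
  · rw [FnDisc_d1_setb_same (by omega), FnDisc_d1_setb_same (by omega)]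
    simp only [if_true, Bool.false_eq_true, if_false]
    rw [pow_succ _ (s + 1)]
    ring
  · intro i _ hi
    rw [FnDisc_d1_setb_other hi, FnDisc_d1_setb_other hi, sub_self]

/-- the difference of the averages of an indicator which is constant on the interval -/
lemma FnDisc_diff_Ind {s a : ℕ} (hs : s ≤ a) (hL : s ≤ L) {p : ℝ} {x : Cube L}
    (h : ¬ (OneD.a1 s x ≤ p ∧ p < OneD.a1 s x + (1 / 2) ^ s)) (b : Bool) :
    OneD.Av a (OneD.Ind p) (setb s b x) = OneD.Ind p x := by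
  apply OneD.Av_const
  intro y hy
  exact OneD.Ind_const hL h y (FnDisc_S1_sub hs b hy)

theorem Fn_top {N : ℕ} {u : Fin N → Fin 3 → ℝ} (hu : ∀ i c, 0 ≤ u i c ∧ u i c < 1)
    {m n s t : ℕ} (hm : 0 < m) (hs : m * (s + 1) ≤ L) (ht : m * (t + 1) ≤ L)
    (hn : m * (s + t) ≤ n) (hl : n - m * (s + t) < L) (x z y : Cube L)
    (he : em u (m * s) (m * t) (n - m * (s + t)) (emb x z y) = 1) :
    |DD (fun x z => Fn (fD u) m n (s + t) (emb x z y)) (m * s) (m * t) x z| =
      N * (1 / 2 : ℝ) ^ n / 16 := by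
  have _ := hu
  rw [Fn_DD (fD u) hm x z y]
  have hsa : m * s < m * (s + 1) := by rw [mul_add, mul_one]; omega
  have htb : m * t < m * (t + 1) := by rw [mul_add, mul_one]; omega
  have hstn : m * s + m * t + (n - m * (s + t)) = n := by
    have : m * (s + t) = m * s + m * t := by ring
    omega
  set S := m * s with hS
  set T := m * t with hT
  set a := m * (s + 1) with ha
  set b := m * (t + 1) with hb
  set l := n - m * (s + t) with hl'
  have hbox := FnDisc_em_eq_one he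
  have e0 : ∀ x z : Cube L, (emb x z y : Om L) 0 = x := fun _ _ => rfl
  have e1 : ∀ x z : Cube L, (emb x z y : Om L) 1 = z := fun _ _ => rfl
  have e2 : ∀ x z : Cube L, (emb x z y : Om L) 2 = y := fun _ _ => rfl
  unfold DD
  simp only [OneD.Gd_expand, e0, e1, e2, OneD.Av_d1_a1 hl]
  have hpt : ∀ i,
      OneD.Av a (OneD.Ind (u i 0)) (setb S true x) * OneD.Av b (OneD.Ind (u i 1)) (setb T true z)
          * OneD.Av l (fun y => OneD.d1 l y * OneD.Ind (u i 2) y) y
        - OneD.Av a (OneD.Ind (u i 0)) (setb S true x) * OneD.Av b (OneD.Ind (u i 1)) (setb T false z)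
          * OneD.Av l (fun y => OneD.d1 l y * OneD.Ind (u i 2) y) y
        - OneD.Av a (OneD.Ind (u i 0)) (setb S false x) * OneD.Av b (OneD.Ind (u i 1)) (setb T true z)
          * OneD.Av l (fun y => OneD.d1 l y * OneD.Ind (u i 2) y) y
        + OneD.Av a (OneD.Ind (u i 0)) (setb S false x) * OneD.Av b (OneD.Ind (u i 1)) (setb T false z)
          * OneD.Av l (fun y => OneD.d1 l y * OneD.Ind (u i 2) y) y = 0 := by
    intro i
    by_cases h0 : OneD.a1 S x ≤ u i 0 ∧ u i 0 < OneD.a1 S x + (1 / 2) ^ S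
    · by_cases h1 : OneD.a1 T z ≤ u i 1 ∧ u i 1 < OneD.a1 T z + (1 / 2) ^ T
      · have h2 : ¬ (OneD.a1 l y ≤ u i 2 ∧ u i 2 < OneD.a1 l y + (1 / 2) ^ l) := by
          intro h3
          apply hbox i
          intro c
          fin_cases c
          · exact h0
          · exact h1
          · exact h3
        have h4 : OneD.Av l (fun y => OneD.d1 l y * OneD.Ind (u i 2) y) y = 0 := by
          apply OneD.Av_flip hl le_rfl
          intro y' hy
          rw [OneD.Ind_const hl.le h2 _ (OneD.fl_mem (l := ⟨l, hl⟩) le_rfl hy),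
            OneD.Ind_const hl.le h2 y' hy]
        rw [h4]
        ring
      · rw [FnDisc_diff_Ind htb.le (by omega) h1, FnDisc_diff_Ind htb.le (by omega) h1]
        ring
    · rw [FnDisc_diff_Ind hsa.le (by omega) h0, FnDisc_diff_Ind hsa.le (by omega) h0]
      ring
  have hsum := Finset.sum_congr (rfl : (univ : Finset (Fin N)) = univ)
    (fun i _ => hpt i)
  rw [Finset.sum_add_distrib, Finset.sum_sub_distrib, Finset.sum_sub_distrib,
    Finset.sum_const_zero] at hsum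
  have hx := FnDisc_diff_a1 hsa hs x
  have hz := FnDisc_diff_a1 htb ht z
  have hfin : ∀ A₁ A₂ B₁ B₂ C s₁ s₂ s₃ s₄ : ℝ, s₁ - s₂ - s₃ + s₄ = 0 →
      (s₁ - N * (A₁ * B₁ * C)) - (s₂ - N * (A₁ * B₂ * C)) - (s₃ - N * (A₂ * B₁ * C))
        + (s₄ - N * (A₂ * B₂ * C)) = -(N * ((A₁ - A₂) * (B₁ - B₂) * C)) := by
    intro A₁ A₂ B₁ B₂ C s₁ s₂ s₃ s₄ h
    linear_combination h
  rw [hfin _ _ _ _ _ _ _ _ _ hsum, hx, hz, abs_neg, abs_of_nonneg (by positivity)]
  rw [← hstn]
  rw [mul_div_assoc]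
  congr 1
  ring

lemma FnDisc_abs_CE_le {v : Fin 3 → ℕ} {g : Om L → ℝ} {B : ℝ} (ω : Om L)
    (hg : ∀ ω', rel v ω ω' → |g ω'| ≤ B) : |CE (Pw L) v g ω| ≤ B := by
  classical
  have h1 : CE (Pw L) v g ω = CE (Pw L) v (fun ω' => if rel v ω ω' then g ω' else 0) ω := by
    unfold CE
    congr 1
    refine Finset.sum_congr rfl (fun ω' hω' => ?_)
    rw [Finset.mem_filter] at hω'
    beta_reduce
    rw [if_pos hω'.2]
  rw [h1]
  apply abs_CE_le Pw_pos
  intro ω'
  split_ifs with h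
  · exact hg ω' h
  · rw [abs_zero]
    exact (abs_nonneg _).trans (hg ω (rel_refl v ω))

theorem Fn_close {N : ℕ} {u : Fin N → Fin 3 → ℝ} (hu : ∀ i c, 0 ≤ u i c ∧ u i c < 1)
    {m n ν : ℕ} (hL : m * (ν + 1) ≤ L) (hn : m * ν ≤ n) (hl : n - m * ν < L) (ω : Om L)
    (hI : II u m n ν ω = 1) :
    |Gd (fD u) L L (n - m * ν) ω - Fn (fD u) m n ν ω| ≤ (ν + 2) * (N * (1 / 2 : ℝ) ^ (n + m)) := by
  -- all boxes are empty
  have hem : ∀ s < ν + 2, em u (m * s) (m * (ν + 1 - s)) (n - m * ν) ω = 1 := by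
    intro s hs
    by_contra hne
    have h0 : em u (m * s) (m * (ν + 1 - s)) (n - m * ν) ω = 0 := by
      unfold Disc3.em at hne ⊢
      split_ifs at hne ⊢ with h
      · rfl
      · exact absurd rfl hne
    unfold II at hI
    rw [Finset.prod_eq_zero (mem_range.2 hs) h0] at hI
    exact zero_ne_one hI
  -- the four term function is small on an empty box
  have hfour : ∀ s ≤ ν + 1, ∀ ω' : Om L, em u (m * s) (m * (ν + 1 - s)) (n - m * ν) ω' = 1 →
      |Gd (fD u) L L (n - m * ν) ω' - Gd (fD u) (m * s) L (n - m * ν) ω'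
          - Gd (fD u) L (m * (ν + 1 - s)) (n - m * ν) ω'
          + Gd (fD u) (m * s) (m * (ν + 1 - s)) (n - m * ν) ω'| ≤ N * (1 / 2 : ℝ) ^ (n + m) := by
    intro s hs ω' he
    have hs1 : m * s ≤ L := le_trans (Nat.mul_le_mul_left m hs) hL
    have ht1 : m * (ν + 1 - s) ≤ L := le_trans (Nat.mul_le_mul_left m (Nat.sub_le _ _)) hL
    have hY := Y_identity hu hs1 ht1 hl ω' (FnDisc_em_eq_one he)
    have hdeg : m * s + m * (ν + 1 - s) + (n - m * ν) = n + m := by
      have h1 : m * s + m * (ν + 1 - s) = m * (ν + 1) := by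
        rw [← mul_add]
        congr 1
        omega
      have h2 : m * (ν + 1) = m * ν + m := by ring
      omega
    have hval : Gd (fD u) L L (n - m * ν) ω' - Gd (fD u) (m * s) L (n - m * ν) ω'
          - Gd (fD u) L (m * (ν + 1 - s)) (n - m * ν) ω'
          + Gd (fD u) (m * s) (m * (ν + 1 - s)) (n - m * ν) ω' =
        -(N * ((1 / 2 : ℝ) ^ (n + m + 2) * (Disc3.uu 0 (m * s) ω' *
          Disc3.uu 1 (m * (ν + 1 - s)) ω'))) := by
      rw [← hdeg]
      linarith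
    rw [hval, abs_neg, abs_mul, abs_mul, abs_mul, Nat.abs_cast, abs_of_pos (by positivity)]
    have h1 := uu_abs_le 0 (m * s) ω'
    have h2 := uu_abs_le 1 (m * (ν + 1 - s)) ω'
    have h3 : |Disc3.uu 0 (m * s) ω'| * |Disc3.uu 1 (m * (ν + 1 - s)) ω'| ≤ 1 := by
      calc _ ≤ (1 / 2 : ℝ) * (1 / 2) :=
            mul_le_mul h1 h2 (abs_nonneg _) (by norm_num)
        _ ≤ 1 := by norm_num
    have h4 : (1 / 2 : ℝ) ^ (n + m + 2) ≤ (1 / 2 : ℝ) ^ (n + m) :=
      pow_le_pow_of_le_one (by norm_num) (by norm_num) (by omega)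
    calc (N : ℝ) * ((1 / 2 : ℝ) ^ (n + m + 2) * (|Disc3.uu 0 (m * s) ω'| *
          |Disc3.uu 1 (m * (ν + 1 - s)) ω'|))
        ≤ (N : ℝ) * ((1 / 2 : ℝ) ^ (n + m) * 1) := by gcongr
      _ = N * (1 / 2 : ℝ) ^ (n + m) := by ring
  rw [Gd_sub_Fn (fD u) hL ω]
  have hlast : |Gd (fD u) L L (n - m * ν) ω - Gd (fD u) (m * (ν + 1)) L (n - m * ν) ω
          - Gd (fD u) L 0 (n - m * ν) ω + Gd (fD u) (m * (ν + 1)) 0 (n - m * ν) ω| ≤
      N * (1 / 2 : ℝ) ^ (n + m) := by
    have h1 := hfour (ν + 1) le_rfl ω (hem (ν + 1) (by omega))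
    rw [Nat.sub_self, mul_zero] at h1
    exact h1
  have hterm : ∀ s ∈ range (ν + 1), |CE (Pw L) ![m * (s + 1), L, L] (fun ω =>
        Gd (fD u) L L (n - m * ν) ω - Gd (fD u) (m * s) L (n - m * ν) ω
          - Gd (fD u) L (m * (ν + 1 - s)) (n - m * ν) ω
          + Gd (fD u) (m * s) (m * (ν + 1 - s)) (n - m * ν) ω) ω| ≤
      N * (1 / 2 : ℝ) ^ (n + m) := by
    intro s hs
    rw [mem_range] at hs
    apply FnDisc_abs_CE_le
    intro ω' hω'
    apply hfour s (by omega) ω'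
    rw [← hem s (by omega)]
    refine (em_meas u _ _ _ ω ω' (rel_mono ?_ hω')).symm
    intro c
    fin_cases c
    · exact Nat.mul_le_mul_left m (Nat.le_succ s)
    · exact le_trans (Nat.mul_le_mul_left m (Nat.sub_le _ _)) hL
    · exact hl.le
  calc _ ≤ |∑ s ∈ range (ν + 1), CE (Pw L) ![m * (s + 1), L, L] (fun ω =>
        Gd (fD u) L L (n - m * ν) ω - Gd (fD u) (m * s) L (n - m * ν) ω
          - Gd (fD u) L (m * (ν + 1 - s)) (n - m * ν) ω
          + Gd (fD u) (m * s) (m * (ν + 1 - s)) (n - m * ν) ω) ω| + _ := abs_add_le _ _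
    _ ≤ (ν + 1 : ℕ) * (N * (1 / 2 : ℝ) ^ (n + m)) + N * (1 / 2 : ℝ) ^ (n + m) := by
        refine add_le_add ?_ hlast
        refine (Finset.abs_sum_le_sum_abs _ _).trans ((Finset.sum_le_sum hterm).trans ?_)
        rw [Finset.sum_const, Finset.card_range, nsmul_eq_mul]
    _ = (ν + 2) * (N * (1 / 2 : ℝ) ^ (n + m)) := by
        push_cast
        ring

end Disc32
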