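import Pool.Agent.Work.Disc32.Bridge
import Pool.Agent.Work.MP_d500f7_co.Boxes

/-! J13: the values of `Fn` are in `2^(-6L) ℤ`; empty boxes are frequent after averaging `x`. -/

namespace Disc32

open Finset Disc3

variable {L : ℕ}

/-- `x` is in `2^{-k} ℤ` -/
def FnIntZ (k : ℕ) (x : ℝ) : Prop := ∃ a : ℤ, x * 2 ^ k = a

lemma FnIntZ.add {k : ℕ} {x y : ℝ} (hx : FnIntZ k x) (hy : FnIntZ k y) : FnIntZ k (x + y) := by
  obtain ⟨a, ha⟩ := hx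
  obtain ⟨b, hb⟩ := hy
  exact ⟨a + b, by push_cast; rw [add_mul, ha, hb]⟩

lemma FnIntZ.sub {k : ℕ} {x y : ℝ} (hx : FnIntZ k x) (hy : FnIntZ k y) : FnIntZ k (x - y) := by
  obtain ⟨a, ha⟩ := hx
  obtain ⟨b, hb⟩ := hy
  exact ⟨a - b, by push_cast; rw [sub_mul, ha, hb]⟩

lemma FnIntZ.mul {k l : ℕ} {x y : ℝ} (hx : FnIntZ k x) (hy : FnIntZ l y) :
    FnIntZ (k + l) (x * y) := by
  obtain ⟨a, ha⟩ := hx
  obtain ⟨b, hb⟩ := hy
  exact ⟨a * b, by push_cast; rw [← ha, ← hb, pow_add]; ring⟩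

lemma FnIntZ.zero (k : ℕ) : FnIntZ k 0 := ⟨0, by simp⟩

lemma FnIntZ.int (k : ℕ) (a : ℤ) : FnIntZ k a := ⟨a * 2 ^ k, by push_cast; ring⟩

lemma FnIntZ.sum {ι : Type*} (s : Finset ι) {k : ℕ} {g : ι → ℝ} (h : ∀ i ∈ s, FnIntZ k (g i)) :
    FnIntZ k (∑ i ∈ s, g i) := by
  classical
  induction s using Finset.induction_on with
  | empty => rw [Finset.sum_empty]; exact FnIntZ.zero k
  | insert i s hi ih =>
    rw [Finset.sum_insert hi]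
    exact (h i (Finset.mem_insert_self i s)).add
      (ih fun j hj => h j (Finset.mem_insert_of_mem hj))

lemma FnIntZ.mono {k l : ℕ} (hkl : k ≤ l) {x : ℝ} (hx : FnIntZ k x) : FnIntZ l x := by
  obtain ⟨a, ha⟩ := hx
  refine ⟨a * 2 ^ (l - k), ?_⟩
  push_cast
  rw [← ha, mul_assoc, ← pow_add, Nat.add_sub_cancel' hkl]

lemma FnIntZ.avc {k : ℕ} {g : Cube L → ℝ} (h : ∀ x, FnIntZ k (g x)) :
    FnIntZ (k + L) (avc g) := by
  obtain ⟨a, ha⟩ := FnIntZ.sum univ (fun x _ => h x)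
  refine ⟨a, ?_⟩
  rw [← ha, avc_real, pow_add]
  field_simp

lemma FnIntZ_dg (c : Fin 3) (i : ℕ) (ω : Om L) : FnIntZ 0 (dg c i ω) := by
  rcases dg_eq_or c i ω with h | h
  · exact ⟨1, by rw [h]; norm_num⟩
  · exact ⟨-1, by rw [h]; norm_num⟩

lemma FnIntZ_av (c : Fin 3) (s : ℕ) (ω : Om L) : FnIntZ s (av c s ω) := by
  unfold av
  refine FnIntZ.sum _ (fun i hi => ?_)
  have hi' := mem_range.1 hi
  refine FnIntZ.mono (k := i + 1) (by omega) ?_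
  rcases dg_eq_or c i ω with h | h
  · refine ⟨1, ?_⟩
    rw [h, pow_succ (1 / 2 : ℝ) (i + 1), one_div_pow]
    field_simp
    norm_num
  · refine ⟨0, ?_⟩
    rw [h]; norm_num

lemma FnIntZ_fD {N : ℕ} (u : Fin N → Fin 3 → ℝ) (ω : Om L) : FnIntZ (3 * L) (fD u ω) := by
  unfold fD Dm
  refine FnIntZ.sub ?_ ?_
  · exact_mod_cast FnIntZ.int (3 * L)
      (((univ.filter (fun i : Fin N => ∀ c, u i c < av c L ω)).card : ℕ) : ℤ)
  · have h1 : FnIntZ 0 (N : ℝ) := by exact_mod_cast FnIntZ.int 0 (N : ℤ)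
    rw [Fin.prod_univ_three]
    exact (h1.mul (((FnIntZ_av 0 L ω).mul (FnIntZ_av 1 L ω)).mul (FnIntZ_av 2 L ω))).mono
      (by omega)

lemma FnIntZ_Gd {N : ℕ} (u : Fin N → Fin 3 → ℝ) (s t l : ℕ) (ω : Om L) :
    FnIntZ (6 * L) (Gd (fD u) s t l ω) := by
  have hω : ω = emb (ω 0) (ω 1) (ω 2) := by
    funext c
    fin_cases c <;> rfl
  unfold Gd
  rw [hω, CE_eq_Mt]
  unfold Mt
  refine (FnIntZ.avc (k := 5 * L) fun x => ?_).mono (by omega)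
  refine (FnIntZ.avc (k := 4 * L) fun z => ?_).mono (by omega)
  refine (FnIntZ.avc (k := 3 * L) fun y => ?_).mono (by omega)
  exact ((FnIntZ_dg 2 l _).mul (FnIntZ_fD u _)).mono (by omega)

theorem Fn_int {N : ℕ} (u : Fin N → Fin 3 → ℝ) (m n ν : ℕ) (ω : Om L) :
    ∃ a : ℤ, Fn (fD u) m n ν ω = a / (2 ^ (6 * L) : ℕ) := by
  have h : FnIntZ (6 * L) (Fn (fD u) m n ν ω) := by
    unfold Fn
    refine ((FnIntZ_Gd u _ _ _ ω).add (FnIntZ.sum _ fun s _ => ?_)).add ?_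
    · exact (FnIntZ_Gd u _ _ _ ω).sub (FnIntZ_Gd u _ _ _ ω)
    · exact (FnIntZ_Gd u _ _ _ ω).sub (FnIntZ_Gd u _ _ _ ω)
  obtain ⟨a, ha⟩ := h
  refine ⟨a, ?_⟩
  rw [← ha]
  push_cast
  field_simp

lemma FnInt_CE_x (s : ℕ) (g : Om L → ℝ) (x z y : Cube L) :
    CE (Pw L) ![s, L, L] g (emb x z y) = Mt s (fun x' => g (emb x' z y)) x := by
  rw [CE_eq_Mt]
  congr 1
  funext x'
  rw [Mt_full le_rfl, Mt_full le_rfl]

theorem em_sparse {N : ℕ} {u : Fin N → Fin 3 → ℝ} (hu : ∀ i c, 0 ≤ u i c ∧ u i c < 1) {M : ℝ}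
    (hM : ∀ α : Fin 3 → ℝ, (∀ c, 0 ≤ α c ∧ α c ≤ 1) → |Dm u α| ≤ M)
    {m n ν s : ℕ} (hm : 0 < m) (hs1 : 1 ≤ s) (hs2 : s ≤ ν) (hL : m * ν ≤ L) (hn : m * ν ≤ n)
    (hl : n - m * ν ≤ L) (x z y : Cube L) :
    Mt (m * (s - 1)) (fun x' => 1 - em u (m * s) (m * (ν - s)) (n - m * ν) (emb x' z y)) x ≤
      N * (1 / 2 : ℝ) ^ n + 8 * M * (1 / 2 : ℝ) ^ m := by
  classical
  have hms : m * (s - 1) = m * s - m := by rw [Nat.mul_sub, mul_one]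
  have hmsL : m * s ≤ L := le_trans (Nat.mul_le_mul_left m hs2) hL
  have hmm : m ≤ m * s := Nat.le_mul_of_pos_right m (by omega)
  have h1 : CE (Pw L) ![m * s - m, L, L]
      (fun ω => 1 - em u (m * s) (m * (ν - s)) (n - m * ν) ω) (emb x z y) =
      Mt (m * (s - 1)) (fun x' => 1 - em u (m * s) (m * (ν - s)) (n - m * ν) (emb x' z y)) x := by
    rw [FnInt_CE_x, hms]
  rw [← h1]
  refine (em_avg hu hmm hmsL (emb x z y)).trans ?_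
  have hmt : m * (ν - s) ≤ L := le_trans (Nat.mul_le_mul_left m (Nat.sub_le _ _)) hL
  have h2 := box_count (L := L) hM ![m * s - m, m * (ν - s), n - m * ν] (by
    intro c
    fin_cases c
    · exact (Nat.sub_le _ _).trans hmsL
    · exact hmt
    · exact hl) (emb x z y)
  rw [Fin.prod_univ_three] at h2
  change ((univ.filter (fun i : Fin N => inBox ![m * s - m, m * (ν - s), n - m * ν]
    (emb x z y) (u i))).card : ℝ) ≤ N * ((1 / 2 : ℝ) ^ (m * s - m) * (1 / 2 : ℝ) ^ (m * (ν - s))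
      * (1 / 2 : ℝ) ^ (n - m * ν)) + 8 * M at h2
  have h3 : (1 / 2 : ℝ) ^ m * ((1 / 2 : ℝ) ^ (m * s - m) * (1 / 2 : ℝ) ^ (m * (ν - s))
      * (1 / 2 : ℝ) ^ (n - m * ν)) = (1 / 2 : ℝ) ^ n := by
    rw [← pow_add, ← pow_add, ← pow_add]
    congr 1
    have h4 : m * s + m * (ν - s) = m * ν := by
      rw [← Nat.mul_add, Nat.add_sub_cancel' hs2]
    omega
  calc (1 / 2 : ℝ) ^ m * ((univ.filter (fun i : Fin N => inBox ![m * s - m, m * (ν - s),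
        n - m * ν] (emb x z y) (u i))).card : ℝ)
      ≤ (1 / 2 : ℝ) ^ m * (N * ((1 / 2 : ℝ) ^ (m * s - m) * (1 / 2 : ℝ) ^ (m * (ν - s))
      * (1 / 2 : ℝ) ^ (n - m * ν)) + 8 * M) := mul_le_mul_of_nonneg_left h2 (by positivity)
    _ = N * ((1 / 2 : ℝ) ^ m * ((1 / 2 : ℝ) ^ (m * s - m) * (1 / 2 : ℝ) ^ (m * (ν - s))
      * (1 / 2 : ℝ) ^ (n - m * ν))) + 8 * M * (1 / 2 : ℝ) ^ m := by ring
    _ = _ := by rw [h3]

end Disc32
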