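import Pool.Agent.Work.Disc32.Defs

/-!
# J15: the logarithm of the triangle function and the hyperbolic tangent
-/

namespace Disc32

theorem neglog_le {τ : ℝ} (hτ : 0 < τ) (F : ℝ) :
    - Real.log (tri τ F + 1 / 10 ^ 4) ≤ 20 * min 1 (|F| / τ) := by
  have hx0 : 0 ≤ |F| / τ := div_nonneg (abs_nonneg F) hτ.le
  unfold tri
  generalize |F| / τ = x at hx0
  -- the logarithm of the shift
  have hlog10 : Real.log 10 ≤ 5 := by
    have h1 : Real.log 10 ≤ Real.log 16 := Real.log_le_log (by norm_num) (by norm_num)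
    have h2 : Real.log 16 = 4 * Real.log 2 := by
      rw [show (16 : ℝ) = 2 ^ 4 by norm_num, Real.log_pow]
      norm_num
    have h3 := Real.log_two_lt_d9
    linarith
  have hε : -Real.log (1 / 10 ^ 4) ≤ 20 := by
    rw [one_div, Real.log_inv, neg_neg, Real.log_pow]
    push_cast
    linarith
  rcases le_or_gt 1 x with h | h
  · rw [max_eq_left (by linarith), min_eq_left h, zero_add]
    linarith
  · rw [max_eq_right (by linarith), min_eq_right h.le]
    have hc := strictConcaveOn_log_Ioi.concaveOn.2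
      (show (1 + 1 / 10 ^ 4 : ℝ) ∈ Set.Ioi 0 by simp only [Set.mem_Ioi]; norm_num)
      (show (1 / 10 ^ 4 : ℝ) ∈ Set.Ioi 0 by simp only [Set.mem_Ioi]; norm_num)
      (show 0 ≤ 1 - x by linarith) hx0 (by ring)
    simp only [smul_eq_mul] at hc
    have e1 : (1 - x) * (1 + 1 / 10 ^ 4) + x * (1 / 10 ^ 4) = 1 - x + 1 / 10 ^ 4 := by ring
    rw [e1] at hc
    have h1 : 0 ≤ Real.log (1 + 1 / 10 ^ 4) := Real.log_nonneg (by norm_num)
    have h2 : 0 ≤ (1 - x) * Real.log (1 + 1 / 10 ^ 4) := mul_nonneg (by linarith) h1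
    have h3 : x * (-Real.log (1 / 10 ^ 4)) ≤ x * 20 := mul_le_mul_of_nonneg_left hε hx0
    linarith

theorem half_le_mul_tanh {x : ℝ} (hx : 0 ≤ x) : 1 / 2 * (min 1 x) ^ 2 ≤ x * Real.tanh x := by
  have hc := Real.cosh_pos x
  rw [Real.tanh_eq_sinh_div_cosh]
  rcases le_or_gt 1 x with h | h
  · rw [min_eq_left h]
    have h1 : 1 / 2 ≤ Real.sinh x / Real.cosh x := by
      rw [div_le_div_iff₀ (by norm_num) hc, Real.sinh_eq, Real.cosh_eq]
      have h2 : 3 * Real.exp (-x) ≤ Real.exp x := by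
        have h3 : (3 : ℝ) ≤ Real.exp (2 * x) := by
          have := Real.add_one_le_exp (2 * x)
          linarith
        have h4 : Real.exp x = Real.exp (2 * x) * Real.exp (-x) := by
          rw [← Real.exp_add]; ring_nf
        rw [h4]
        exact mul_le_mul_of_nonneg_right h3 (Real.exp_pos _).le
      linarith
    have h5 : 0 ≤ Real.sinh x / Real.cosh x := by linarith
    nlinarith
  · rw [min_eq_right h.le]
    have h1 : x ≤ Real.sinh x := Real.self_le_sinh_iff.2 hx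
    have h2 : Real.cosh x ≤ 2 := by
      have h3 := Real.cosh_le_exp_half_sq x
      have h4 : Real.exp (x ^ 2 / 2) ≤ Real.exp (1 / 2) := by
        apply Real.exp_le_exp.2
        nlinarith
      have h5 : Real.exp (1 / 2) ≤ 2 := by
        have h6 : Real.exp (1 / 2) ^ 2 = Real.exp 1 := by
          rw [← Real.exp_nat_mul]; norm_num
        have h7 := Real.exp_one_lt_d9
        nlinarith [Real.exp_pos (1 / 2 : ℝ)]
      linarith
    have h3 : x / 2 ≤ Real.sinh x / Real.cosh x := by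
      rw [div_le_div_iff₀ (by norm_num) hc]
      nlinarith
    nlinarith

theorem mul_tanh_ge {τ : ℝ} (hτ : 0 < τ) (G : ℝ) :
    τ / 2 * (min 1 (|G| / τ)) ^ 2 ≤ Real.tanh (τ⁻¹ * G) * G := by
  have h1 : Real.tanh (τ⁻¹ * G) * G = Real.tanh (τ⁻¹ * |G|) * |G| := by
    rcases abs_cases G with ⟨h, -⟩ | ⟨h, -⟩
    · rw [h]
    · rw [h, mul_neg, mul_neg, Real.tanh_neg, neg_mul, neg_neg]
  have hx0 : 0 ≤ |G| / τ := div_nonneg (abs_nonneg G) hτ.le
  have h2 := half_le_mul_tanh hx0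
  have h3 : τ⁻¹ * |G| = |G| / τ := by rw [div_eq_mul_inv, mul_comm]
  have h4 : |G| = τ * (|G| / τ) := by field_simp
  rw [h1, h3]
  calc τ / 2 * (min 1 (|G| / τ)) ^ 2 = τ * (1 / 2 * (min 1 (|G| / τ)) ^ 2) := by ring
    _ ≤ τ * (|G| / τ * Real.tanh (|G| / τ)) := mul_le_mul_of_nonneg_left h2 hτ.le
    _ = Real.tanh (|G| / τ) * (τ * (|G| / τ)) := by ring
    _ = Real.tanh (|G| / τ) * |G| := by rw [← h4]

end Disc32
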