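import Pool.Agent.Work.Disc32.DefsB
import Pool.Agent.Work.MP_d500f7_co.Boxes

/-!
# The restricted tilt (tilt only at the digits `l ≡ n (mod m)`)
-/

namespace Disc32

open Finset Disc3

variable {L : ℕ}

lemma TiltR_meas_TT (lam : ℝ) (f : Om L → ℝ) (m n l : ℕ) :
    Meas ![L, L, l] (TT lam f m n l) := by
  intro a b hab
  unfold TT
  rw [meas_Gd f L L l a b hab]

lemma TiltR_pos (lam : ℝ) (f : Om L → ℝ) (m n l : ℕ) (ω : Om L) {y : ℝ} (hy : y = 1 ∨ y = -1) :
    0 < 1 + TT lam f m n l ω * y := by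
  unfold TT
  split_ifs
  · exact one_add_tanh_pos hy
  · rw [zero_mul, add_zero]; exact one_pos

lemma TiltR_meas_rho (lam : ℝ) (f : Om L → ℝ) (m n k : ℕ) :
    Meas ![L, L, k] (rhoR lam f m n k) := by
  unfold rhoR
  refine Meas.prod (range k) (fun l hl => ?_)
  have hl' := mem_range.1 hl
  exact (meas_const _ 1).add
    (((TiltR_meas_TT lam f m n l).mono (mono3 le_rfl le_rfl hl'.le)).mul
      (meas_dg (v := ![L, L, k]) (c := 2) hl'))

lemma TiltR_rho_pos (lam : ℝ) (f : Om L → ℝ) (m n k : ℕ) (ω : Om L) :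
    0 < rhoR lam f m n k ω :=
  Finset.prod_pos (fun l _ => TiltR_pos lam f m n l ω (dg_eq_or 2 l ω))

lemma TiltR_succ (lam : ℝ) (f : Om L → ℝ) (m n k : ℕ) (ω : Om L) :
    rhoR lam f m n (k + 1) ω = rhoR lam f m n k ω * (1 + TT lam f m n k ω * dg 2 k ω) := by
  unfold rhoR; rw [Finset.prod_range_succ]

lemma TiltR_drop_step (lam : ℝ) (f : Om L → ℝ) (m n : ℕ) {k : ℕ} (hk : k < L) {h : Om L → ℝ}
    (hh : Meas ![L, L, k] h) :
    Ex (Pw L) (fun ω => rhoR lam f m n (k + 1) ω * h ω) =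
      Ex (Pw L) (fun ω => rhoR lam f m n k ω * h ω) := by
  have e : Ex (Pw L) (fun ω => rhoR lam f m n (k + 1) ω * h ω) =
      Ex (Pw L) (fun ω => rhoR lam f m n k ω * h ω)
      + Ex (Pw L) (fun ω => dg 2 k ω * (rhoR lam f m n k ω * TT lam f m n k ω * h ω)) := by
    rw [← Ex_add]; exact Ex_congr _ (fun ω => by rw [TiltR_succ]; ring)
  rw [e, Ex_dg_mul_eq_zero (v := ![L, L, k]) (c := 2) hk le_rfl
    (((TiltR_meas_rho lam f m n k).mul (TiltR_meas_TT lam f m n k)).mul hh), add_zero]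

lemma TiltR_drop (lam : ℝ) (f : Om L → ℝ) (m n : ℕ) {l : ℕ} {h : Om L → ℝ}
    (hh : Meas ![L, L, l] h) (k : ℕ) (hk : l + k ≤ L) :
    Ex (Pw L) (fun ω => rhoR lam f m n (l + k) ω * h ω) =
      Ex (Pw L) (fun ω => rhoR lam f m n l ω * h ω) := by
  induction k with
  | zero => rfl
  | succ k ih =>
    rw [← add_assoc, TiltR_drop_step lam f m n (by omega)
      (hh.mono (mono3 le_rfl le_rfl (by omega))), ih (by omega)]

lemma TiltR_Ex (lam : ℝ) (f : Om L → ℝ) (m n : ℕ) (h : Om L → ℝ) :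
    Ex (PsiR lam f m n) h = Ex (Pw L) (fun ω => rhoR lam f m n L ω * h ω) := by
  unfold Ex PsiR
  exact Finset.sum_congr rfl (fun ω _ => by ring)

lemma TiltR_Ex_meas (lam : ℝ) (f : Om L → ℝ) (m n : ℕ) {l : ℕ} (hl : l ≤ L) {h : Om L → ℝ}
    (hh : Meas ![L, L, l] h) :
    Ex (PsiR lam f m n) h = Ex (Pw L) (fun ω => rhoR lam f m n l ω * h ω) := by
  rw [TiltR_Ex]
  have := TiltR_drop lam f m n hh (L - l) (by omega)
  rwa [Nat.add_sub_cancel' hl] at this

theorem PsiR_isPr (lam : ℝ) (f : Om L → ℝ) (m n : ℕ) : IsPr (PsiR lam f m n) := by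
  refine ⟨fun ω => mul_pos (Pw_pos ω) (TiltR_rho_pos lam f m n L ω), ?_⟩
  have h1 := TiltR_Ex_meas lam f m n (Nat.zero_le L) (meas_const ![L, L, 0] 1)
  have h2 : Ex (PsiR lam f m n) (fun _ => 1) = ∑ ω, PsiR lam f m n ω := by simp [Ex]
  rw [← h2, h1]
  simp only [rhoR, Finset.range_zero, Finset.prod_empty, mul_one]
  exact Ex_const Pw_sum 1

theorem TT_nonneg {lam : ℝ} (hlam : 0 ≤ lam) (f : Om L → ℝ) (m n l : ℕ) (ω : Om L) :
    0 ≤ TT lam f m n l ω * Gd f L L l ω := by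
  unfold TT
  split_ifs
  · exact tanh_mul_nonneg hlam _
  · rw [zero_mul]

lemma TiltR_orth (lam : ℝ) (f : Om L → ℝ) (m n : ℕ) {l : ℕ} (hl : l < L) {h : Om L → ℝ}
    (hh : Meas ![L, L, l] h) :
    Ex (PsiR lam f m n) (fun ω => dg 2 l ω * h ω) =
      Ex (PsiR lam f m n) (fun ω => TT lam f m n l ω * h ω) := by
  have m1 : Meas ![L, L, l + 1] (fun ω => dg 2 l ω * h ω) :=
    (meas_dg (v := ![L, L, l + 1]) (c := 2) (Nat.lt_succ_self l)).mul
      (hh.mono (mono3 le_rfl le_rfl (Nat.le_succ l)))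
  have m2 : Meas ![L, L, l] (fun ω => TT lam f m n l ω * h ω) :=
    (TiltR_meas_TT lam f m n l).mul hh
  rw [TiltR_Ex_meas lam f m n (Nat.succ_le_of_lt hl) m1, TiltR_Ex_meas lam f m n hl.le m2]
  have e : Ex (Pw L) (fun ω => rhoR lam f m n (l + 1) ω * (dg 2 l ω * h ω)) =
      Ex (Pw L) (fun ω => dg 2 l ω * (rhoR lam f m n l ω * h ω))
      + Ex (Pw L) (fun ω => rhoR lam f m n l ω * (TT lam f m n l ω * h ω)) := by
    rw [← Ex_add]
    refine Ex_congr _ (fun ω => ?_)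
    rw [TiltR_succ]
    have := dg_mul_self 2 l ω
    linear_combination (rhoR lam f m n l ω * TT lam f m n l ω * h ω) * this
  rw [Nat.succ_eq_add_one, e, Ex_dg_mul_eq_zero (v := ![L, L, l]) (c := 2) hl le_rfl
    ((TiltR_meas_rho lam f m n l).mul hh), zero_add]

theorem tiltR1 {f : Om L → ℝ} {M lam : ℝ} (hf : ∀ ω, |f ω| ≤ M) (m n : ℕ) :
    Ex (PsiR lam f m n) (fun ω => ∑ l ∈ range L, TT lam f m n l ω * Gd f L L l ω) ≤ 2 * M := by
  rw [Ex_sum]
  have h1 : ∀ l ∈ range L, Ex (PsiR lam f m n) (fun ω => TT lam f m n l ω * Gd f L L l ω) =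
      Ex (PsiR lam f m n) (fun ω => dg 2 l ω * Gd f L L l ω) := fun l hl =>
    (TiltR_orth lam f m n (mem_range.1 hl) (meas_Gd f L L l)).symm
  rw [Finset.sum_congr rfl h1, ← Ex_sum]
  exact Ex_le_of_le (PsiR_isPr lam f m n) (fun ω => (abs_le.1 (abs_sum_dg_Gd_le hf ω)).2)

theorem tiltR_log {f : Om L → ℝ} {M lam : ℝ} (hf : ∀ ω, |f ω| ≤ M) (hlam : 0 ≤ lam) (m n : ℕ) :
    Ex (PsiR lam f m n) (fun ω => Real.log (rhoR lam f m n L ω)) ≤ 2 * lam * M := by
  have hpr := PsiR_isPr lam f m n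
  have key : ∀ ω, Real.log (rhoR lam f m n L ω) ≤
      ∑ l ∈ range L, (if l ≤ n ∧ m ∣ n - l then lam * (dg 2 l ω * Gd f L L l ω) else 0) := by
    intro ω
    unfold rhoR
    rw [Real.log_prod (fun l _ => (TiltR_pos lam f m n l ω (dg_eq_or 2 l ω)).ne')]
    refine Finset.sum_le_sum (fun l _ => ?_)
    unfold TT
    split_ifs with h
    · have h1 := one_add_tanh_pos (u := lam * Gd f L L l ω) (dg_eq_or 2 l ω)
      have h2 := one_add_tanh_le (u := lam * Gd f L L l ω) (dg_eq_or 2 l ω)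
      calc _ ≤ Real.log (Real.exp (dg 2 l ω * (lam * Gd f L L l ω))) := Real.log_le_log h1 h2
        _ = lam * (dg 2 l ω * Gd f L L l ω) := by rw [Real.log_exp]; ring
    · rw [zero_mul, add_zero, Real.log_one]
  refine (Ex_mono hpr.nonneg key).trans ?_
  rw [Ex_sum]
  have h1 : ∀ l ∈ range L, Ex (PsiR lam f m n)
      (fun ω => if l ≤ n ∧ m ∣ n - l then lam * (dg 2 l ω * Gd f L L l ω) else 0) =
      lam * Ex (PsiR lam f m n) (fun ω => TT lam f m n l ω * Gd f L L l ω) := by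
    intro l hl
    by_cases h : l ≤ n ∧ m ∣ n - l
    · simp only [if_pos h]
      rw [Ex_const_mul, TiltR_orth lam f m n (mem_range.1 hl) (meas_Gd f L L l)]
    · simp only [if_neg h, TT, zero_mul]
      simp [Ex]
  rw [Finset.sum_congr rfl h1, ← Finset.mul_sum, ← Ex_sum]
  have h2 := tiltR1 (lam := lam) hf m n
  calc _ ≤ lam * (2 * M) := mul_le_mul_of_nonneg_left h2 hlam
    _ = 2 * lam * M := by ring

theorem gibbsR (lam : ℝ) (f : Om L → ℝ) (m n : ℕ) (g : Om L → ℝ) :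
    Ex (PsiR lam f m n) g ≤ Ex (PsiR lam f m n) (fun ω => Real.log (rhoR lam f m n L ω))
      + Real.log (Ex (Pw L) (fun ω => Real.exp (g ω))) := by
  have hpr := PsiR_isPr lam f m n
  set Z := Ex (Pw L) (fun ω => Real.exp (g ω)) with hZ
  have hZpos : 0 < Z := by
    rw [hZ]
    unfold Ex
    exact Finset.sum_pos (fun ω _ => mul_pos (Pw_pos ω) (Real.exp_pos _)) univ_nonempty
  have key : ∀ ω, g ω ≤ Real.log (rhoR lam f m n L ω) + Real.log Z
      + (Real.exp (g ω) / (rhoR lam f m n L ω * Z) - 1) := by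
    intro ω
    have hr := TiltR_rho_pos lam f m n L ω
    have h1 := Real.add_one_le_exp (g ω - Real.log (rhoR lam f m n L ω) - Real.log Z)
    have h2 : Real.exp (g ω - Real.log (rhoR lam f m n L ω) - Real.log Z) =
        Real.exp (g ω) / (rhoR lam f m n L ω * Z) := by
      rw [Real.exp_sub, Real.exp_sub, Real.exp_log hr, Real.exp_log hZpos, div_div]
    rw [h2] at h1
    linarith
  refine (Ex_mono hpr.nonneg key).trans (le_of_eq ?_)
  rw [Ex_add, Ex_add, Ex_const hpr.one, Ex_sub, Ex_const hpr.one]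
  have h3 : Ex (PsiR lam f m n) (fun ω => Real.exp (g ω) / (rhoR lam f m n L ω * Z)) = 1 := by
    rw [TiltR_Ex]
    have : ∀ ω, rhoR lam f m n L ω * (Real.exp (g ω) / (rhoR lam f m n L ω * Z)) =
        Z⁻¹ * Real.exp (g ω) := by
      intro ω
      have hr := TiltR_rho_pos lam f m n L ω
      field_simp
    rw [Ex_congr _ this, Ex_const_mul, ← hZ, inv_mul_cancel₀ hZpos.ne']
  rw [h3]; ring

/-! ### the untilted digits -/

lemma TiltR_const (lam : ℝ) (f : Om L → ℝ) {m n l l' : ℕ} (h1 : l' ≤ l)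
    (h2 : ∀ j, l' ≤ j → j < l → ¬ m ∣ n - j) (ω : Om L) :
    rhoR lam f m n l ω = rhoR lam f m n l' ω := by
  obtain ⟨d, rfl⟩ := Nat.exists_eq_add_of_le h1
  induction d with
  | zero => rfl
  | succ d ih =>
    rw [← add_assoc, TiltR_succ, ih (by omega) (fun j hj1 hj2 => h2 j hj1 (by omega))]
    have : TT lam f m n (l' + d) ω = 0 := by
      unfold TT
      rw [if_neg (fun h => h2 (l' + d) (by omega) (by omega) h.2)]
    rw [this, zero_mul, add_zero, mul_one]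

/-- indicator that the level `l` dyadic `y`-interval of `ω` contains `p` -/
noncomputable def TiltR_q (p : ℝ) (s : ℕ) (ω : Om L) : ℝ :=
  open Classical in if av 2 s ω ≤ p ∧ p < av 2 s ω + (1 / 2 : ℝ) ^ s then 1 else 0

lemma TiltR_meas_q (p : ℝ) (s t l : ℕ) : Meas ![s, t, l] (TiltR_q (L := L) p l) := by
  intro ω ω' h
  have : av 2 l ω = av 2 l ω' := meas_av (v := ![s, t, l]) (c := 2) le_rfl ω ω' h
  simp only [TiltR_q, this]

lemma TiltR_q_succ (p : ℝ) (s : ℕ) (ω : Om L) :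
    TiltR_q p (s + 1) ω = TiltR_q p s ω * (1 / 2) + (TiltR_q p s ω * (1 / 2) *
      (open Classical in if p < av 2 s ω + (1 / 2 : ℝ) ^ (s + 1) then -1 else 1)) * dg 2 s ω := by
  have h1 : av 2 (s + 1) ω = av 2 s ω + (1 + dg 2 s ω) * (1 / 2 : ℝ) ^ (s + 2) := by
    unfold av; rw [Finset.sum_range_succ]
  have h5 : (1 / 2 : ℝ) ^ (s + 1) = 2 * (1 / 2 : ℝ) ^ (s + 2) := by
    rw [pow_succ _ (s + 1)]; ring
  have h6 : (1 / 2 : ℝ) ^ s = 4 * (1 / 2 : ℝ) ^ (s + 2) := by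
    rw [pow_succ _ (s + 1), pow_succ _ s]; ring
  have h3 : (0 : ℝ) < (1 / 2 : ℝ) ^ (s + 2) := by positivity
  unfold TiltR_q
  rw [h1, h5, h6]
  generalize av 2 s ω = a at *
  generalize (1 / 2 : ℝ) ^ (s + 2) = h at *
  rcases dg_eq_or 2 s ω with hd | hd <;> rw [hd]
  · by_cases c1 : a ≤ p ∧ p < a + 4 * h
    · by_cases c2 : p < a + 2 * h
      · have c3 : ¬ (a + (1 + 1) * h ≤ p ∧ p < a + (1 + 1) * h + 2 * h) := by
          rintro ⟨q1, -⟩; linarith
        rw [if_neg c3, if_pos c1, if_pos c2]; norm_num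
      · have c2' := not_lt.1 c2
        have c3 : (a + (1 + 1) * h ≤ p ∧ p < a + (1 + 1) * h + 2 * h) := by
          constructor
          · linarith
          · linarith [c1.2]
        rw [if_pos c3, if_pos c1, if_neg c2]; norm_num
    · have c3 : ¬ (a + (1 + 1) * h ≤ p ∧ p < a + (1 + 1) * h + 2 * h) := by
        rintro ⟨q1, q2⟩
        exact c1 ⟨by linarith, by linarith⟩
      rw [if_neg c3, if_neg c1]; norm_num
  · by_cases c1 : a ≤ p ∧ p < a + 4 * h
    · by_cases c2 : p < a + 2 * h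
      · have c3 : (a + (1 + -1) * h ≤ p ∧ p < a + (1 + -1) * h + 2 * h) := by
          constructor
          · linarith [c1.1]
          · linarith
        rw [if_pos c3, if_pos c1, if_pos c2]; norm_num
      · have c2' := not_lt.1 c2
        have c3 : ¬ (a + (1 + -1) * h ≤ p ∧ p < a + (1 + -1) * h + 2 * h) := by
          rintro ⟨-, q2⟩; linarith
        rw [if_neg c3, if_pos c1, if_neg c2]; norm_num
    · have c3 : ¬ (a + (1 + -1) * h ≤ p ∧ p < a + (1 + -1) * h + 2 * h) := by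
        rintro ⟨q1, q2⟩
        exact c1 ⟨by linarith, by linarith⟩
      rw [if_neg c3, if_neg c1]; norm_num

lemma TiltR_CE_q_succ (p : ℝ) {s : ℕ} (hs : s < L) (ω : Om L) :
    CE (Pw L) ![L, L, s] (TiltR_q p (s + 1)) ω = 1 / 2 * TiltR_q p s ω := by
  have hm : Meas ![L, L, s] (fun ω : Om L => TiltR_q p s ω * (1 / 2) *
      (open Classical in if p < av 2 s ω + (1 / 2 : ℝ) ^ (s + 1) then (-1 : ℝ) else 1)) := by
    refine ((TiltR_meas_q p L L s).mul (meas_const _ _)).mul ?_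
    have : Meas ![L, L, s] (av (L := L) 2 s) := meas_av (v := ![L, L, s]) (c := 2) le_rfl
    exact this.comp (fun x => open Classical in if p < x + (1 / 2 : ℝ) ^ (s + 1) then (-1 : ℝ) else 1)
  rw [CE_congr (Pw L) _ (TiltR_q_succ p s), CE_add, CE_mul_left Pw_pos hm,
    CE_dg_zero (v := ![L, L, s]) (c := 2) hs le_rfl, mul_zero, add_zero,
    CE_of_meas Pw_pos ((TiltR_meas_q p L L s).mul (meas_const _ _))]
  ring

lemma TiltR_CE_q (p : ℝ) {s j : ℕ} (hj : j ≤ s) (hs : s ≤ L) (ω : Om L) :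
    CE (Pw L) ![L, L, s - j] (TiltR_q p s) ω = (1 / 2) ^ j * TiltR_q p (s - j) ω := by
  induction j generalizing ω with
  | zero =>
    rw [Nat.sub_zero, CE_of_meas Pw_pos (TiltR_meas_q p L L s), pow_zero, one_mul]
  | succ j ih =>
    obtain ⟨i, hi⟩ : ∃ i, i = s - (j + 1) := ⟨_, rfl⟩
    have hi1 : s - j = i + 1 := by omega
    have ih' := fun ω => ih (by omega) ω
    rw [hi1] at ih'
    rw [← hi]
    have ht : ∀ c, (![L, L, i] : Fin 3 → ℕ) c ≤ (![L, L, i + 1] : Fin 3 → ℕ) c := by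
      intro c; fin_cases c <;> simp
    rw [← CE_tower Pw_pos ht, CE_congr (Pw L) _ ih', CE_const_mul, TiltR_CE_q_succ p (by omega)]
    ring

lemma TiltR_em_avg {N : ℕ} (u : Fin N → Fin 3 → ℝ)
    {s t l j : ℕ} (hj : j ≤ l) (hl : l ≤ L) (ω : Om L) :
    open Classical in
    CE (Pw L) ![L, L, l - j] (fun ω => 1 - em u s t l ω) ω ≤
      (1 / 2 : ℝ) ^ j *
        ((univ.filter (fun i : Fin N => inBox ![s, t, l - j] ω (u i))).card : ℝ) := by
  classical
  rw [Finset.card_filter]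
  push_cast
  set r : Fin N → Om L → ℝ := fun i ω => if (av 0 s ω ≤ u i 0 ∧ u i 0 < av 0 s ω + (1 / 2) ^ s) ∧
      (av 1 t ω ≤ u i 1 ∧ u i 1 < av 1 t ω + (1 / 2) ^ t) then 1 else 0 with hr
  have hrm : ∀ (k : ℕ) (i : Fin N), Meas ![L, L, k] (r i) := by
    intro k i ω ω' h
    have h1 : ∀ (c : Fin 3), c ≠ 2 → ∀ m, av c m ω = av c m ω' := by
      intro c hc m
      unfold av
      refine Finset.sum_congr rfl (fun q _ => ?_)
      have : dg c q ω = dg c q ω' := by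
        by_cases hq : q < L
        · refine meas_dg (v := ![L, L, k]) ?_ ω ω' h
          fin_cases c
          · exact hq
          · exact hq
          · exact absurd rfl hc
        · unfold dg; rw [dif_neg hq, dif_neg hq]
      rw [this]
    simp only [hr, h1 0 (by decide) s, h1 1 (by decide) t]
  have hbox : ∀ (k : ℕ) (i : Fin N) (ω : Om L),
      (if inBox ![s, t, k] ω (u i) then (1 : ℝ) else 0) = r i ω * TiltR_q (u i 2) k ω := by
    intro k i ω
    have : inBox ![s, t, k] ω (u i) ↔ (av 2 k ω ≤ u i 2 ∧ u i 2 < av 2 k ω + (1 / 2) ^ k) ∧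
        (av 0 s ω ≤ u i 0 ∧ u i 0 < av 0 s ω + (1 / 2) ^ s) ∧
        (av 1 t ω ≤ u i 1 ∧ u i 1 < av 1 t ω + (1 / 2) ^ t) := by
      constructor
      · intro h
        exact ⟨h 2, h 0, h 1⟩
      · rintro ⟨h2, h0, h1⟩ c
        fin_cases c
        · exact h0
        · exact h1
        · exact h2
    simp only [hr, TiltR_q]
    by_cases h0 : av 2 k ω ≤ u i 2 ∧ u i 2 < av 2 k ω + (1 / 2) ^ k <;>
    by_cases h1 : (av 0 s ω ≤ u i 0 ∧ u i 0 < av 0 s ω + (1 / 2) ^ s) ∧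
        (av 1 t ω ≤ u i 1 ∧ u i 1 < av 1 t ω + (1 / 2) ^ t) <;>
    simp only [this, h0, h1, and_true, and_false, and_self, if_true, if_false, mul_one,
      mul_zero]
  have hpt : ∀ ω : Om L, 1 - em u s t l ω ≤ ∑ i : Fin N, r i ω * TiltR_q (u i 2) l ω := by
    intro ω
    have h0 : ∀ i ∈ (univ : Finset (Fin N)), 0 ≤ r i ω * TiltR_q (u i 2) l ω := by
      intro i _
      rw [← hbox l i ω]
      split_ifs <;> norm_num
    unfold Disc3.em
    split_ifs with h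
    · obtain ⟨i, hi⟩ := h
      have h1 := Finset.single_le_sum h0 (mem_univ i)
      rw [← hbox l i ω, if_pos hi] at h1
      linarith
    · have := Finset.sum_nonneg h0
      linarith
  refine (CE_mono Pw_pos _ hpt ω).trans (le_of_eq ?_)
  rw [CE_sum, Finset.mul_sum]
  refine Finset.sum_congr rfl (fun i _ => ?_)
  rw [CE_mul_left Pw_pos (hrm (l - j) i), TiltR_CE_q _ hj hl, hbox (l - j) i ω]
  ring

theorem em_PsiR {N : ℕ} {u : Fin N → Fin 3 → ℝ} (hu : ∀ i c, 0 ≤ u i c ∧ u i c < 1) {M : ℝ}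
    (hM : ∀ α : Fin 3 → ℝ, (∀ c, 0 ≤ α c ∧ α c ≤ 1) → |Dm u α| ≤ M) (lam : ℝ) (f : Om L → ℝ)
    {m n ν s t : ℕ} (hm : 0 < m) (hs : s ≤ L) (ht : t ≤ L) (hn : m * (ν + 1) ≤ n)
    (hl : n - m * ν ≤ L) :
    Ex (PsiR lam f m n) (fun ω => 1 - em u s t (n - m * ν) ω) ≤
      (1 / 2 : ℝ) ^ (m - 1) * (N * (1 / 2 : ℝ) ^ (s + t + (n - m * (ν + 1) + 1)) + 8 * M) := by
  classical
  obtain ⟨l, hl0⟩ : ∃ l, l = n - m * ν := ⟨_, rfl⟩
  have hmn : m * (ν + 1) = m * ν + m := by ring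
  obtain ⟨l', hl'⟩ : ∃ l', l' = l - (m - 1) := ⟨_, rfl⟩
  have e1 : n - m * (ν + 1) + 1 = l' := by omega
  rw [e1, ← hl0]
  rw [← hl0] at hl
  have hjl : m - 1 ≤ l := by omega
  have hmeas : Meas ![L, L, l] (fun ω : Om L => 1 - em u s t l ω) :=
    (meas_const _ 1).sub ((em_meas u s t l).mono (mono3 hs ht le_rfl))
  rw [TiltR_Ex_meas lam f m n hl hmeas]
  have hconst : ∀ ω, rhoR lam f m n l ω = rhoR lam f m n l' ω := by
    refine TiltR_const lam f (by omega) (fun j hj1 hj2 hd => ?_)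
    obtain ⟨q, hq⟩ := hd
    have h1 : m * ν < n - j := by omega
    have h2 : n - j < m * (ν + 1) := by omega
    rw [hq] at h1 h2
    have h3 := Nat.lt_of_mul_lt_mul_left h1
    have h4 := Nat.lt_of_mul_lt_mul_left h2
    omega
  rw [Ex_congr (Pw L) (fun ω => by rw [hconst ω] :
    ∀ ω, rhoR lam f m n l ω * (1 - em u s t l ω) = rhoR lam f m n l' ω * (1 - em u s t l ω))]
  rw [← Ex_mul_CE Pw_pos (TiltR_meas_rho lam f m n l')]
  set B : ℝ := (1 / 2 : ℝ) ^ (m - 1) * (N * (1 / 2 : ℝ) ^ (s + t + l') + 8 * M) with hB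
  have hCE : ∀ ω : Om L, CE (Pw L) ![L, L, l'] (fun ω => 1 - em u s t l ω) ω ≤ B := by
    intro ω
    have h1 := TiltR_em_avg u (s := s) (t := t) hjl hl ω
    rw [← hl'] at h1
    refine h1.trans ?_
    rw [hB]
    refine mul_le_mul_of_nonneg_left ?_ (by positivity)
    have hv : ∀ c, (![s, t, l'] : Fin 3 → ℕ) c ≤ L := by
      intro c; fin_cases c
      · exact hs
      · exact ht
      · show l' ≤ L
        omega
    refine (box_count hM ![s, t, l'] hv ω).trans (le_of_eq ?_)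
    rw [Fin.prod_univ_three]
    show (N : ℝ) * ((1 / 2) ^ s * (1 / 2) ^ t * (1 / 2) ^ l') + 8 * M = _
    rw [← pow_add, ← pow_add]
  have hle : Ex (Pw L) (fun ω => rhoR lam f m n l' ω *
      CE (Pw L) ![L, L, l'] (fun ω => 1 - em u s t l ω) ω) ≤
      Ex (Pw L) (fun ω => rhoR lam f m n l' ω * B) :=
    Ex_mono (fun ω => (Pw_pos ω).le)
      (fun ω => mul_le_mul_of_nonneg_left (hCE ω) (TiltR_rho_pos lam f m n l' ω).le)
  refine hle.trans (le_of_eq ?_)
  have h1 := TiltR_Ex_meas lam f m n (l := l') (by omega) (meas_const ![L, L, l'] B)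
  rw [← h1, Ex_const (PsiR_isPr lam f m n).one]

end Disc32
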