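import Pool.Agent.Work.Disc32.Claim
import Pool.Agent.Work.Disc32.FnDisc
import Pool.Agent.Work.Disc32.FnInt
import Pool.Agent.Work.Disc32.TiltR
import Pool.Agent.Work.Disc32.Tanh
import Pool.Agent.Work.MP_d500f7_co.Boxes

namespace Disc32

open Finset Disc3

/-- the discrepancy family satisfies the abstract hypotheses -/
theorem fam_disc {N : ℕ} {u : Fin N → Fin 3 → ℝ} (hu : ∀ i c, 0 ≤ u i c ∧ u i c < 1) {M : ℝ}
    (hM : ∀ α : Fin 3 → ℝ, (∀ c, 0 ≤ α c ∧ α c ≤ 1) → |Dm u α| ≤ M)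
    {n m k D : ℕ} (hm : 0 < m) (hk1 : m * k ≤ n) (hk2 : n < m * (k + 1)) (hD : k + 1 ≤ D)
    (y : Cube (m * D)) :
    Fam m D k (2 ^ (6 * (m * D))) (N * (1 / 2 : ℝ) ^ n / 64)
      (N * (1 / 2 : ℝ) ^ n + 8 * M * (1 / 2 : ℝ) ^ m)
      (fun ν x z => Fn (fD u) m n ν (emb x z y))
      (fun ν s x z => em u (m * s) (m * (ν - s)) (n - m * ν) (emb x z y)) := by
  have hlD : ∀ j, n - m * j < m * D := fun j => by
    have h1 : m * (k + 1) ≤ m * D := Nat.mul_le_mul_left _ hD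
    omega
  have hkn : ∀ j, j ≤ k → m * j ≤ n := fun j hj => (Nat.mul_le_mul_left _ hj).trans hk1
  have hkD : ∀ j, j ≤ D → m * j ≤ m * D := fun j hj => Nat.mul_le_mul_left _ hj
  refine ⟨fun ν x z => Fn_int u m n ν _, fun ν s t h => Fn_split _ h y, ?_, ?_, ?_, ?_⟩
  · intro ν s x z
    unfold Disc3.em
    split_ifs <;> simp
  · intro ν s hν hs x x' z z' hx hz
    refine em_meas u _ _ _ _ _ ?_
    intro c i hi
    fin_cases c
    · exact hx i hi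
    · exact hz i hi
    · rfl
  · intro ν s hν hs x z he
    have h := Fn_top hu (m := m) (n := n) (s := s) (t := ν - s) hm (hkD _ (by omega))
      (hkD _ (by omega)) (by rw [show s + (ν - s) = ν by omega]; exact hkn _ hν.le)
      (hlD _) x z y (by rw [show s + (ν - s) = ν by omega]; exact he)
    rw [show s + (ν - s) = ν by omega] at h
    rw [h]; ring
  · intro ν s hν hs1 hs2 x z
    exact em_sparse hu hM hm hs1 hs2 (hkD _ (by omega)) (hkn _ hν.le) (hlD _).le x z y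

variable {L : ℕ}

lemma em01 {N : ℕ} (u : Fin N → Fin 3 → ℝ) (s t l : ℕ) (ω : Om L) :
    Disc3.em u s t l ω = 0 ∨ Disc3.em u s t l ω = 1 := by
  unfold Disc3.em
  split_ifs <;> simp

lemma II_cases {N : ℕ} (u : Fin N → Fin 3 → ℝ) (m n ν : ℕ) (ω : Om L) :
    (II u m n ν ω = 0 ∨ II u m n ν ω = 1) ∧
    1 - II u m n ν ω ≤
      ∑ s ∈ range (ν + 2), (1 - Disc3.em u (m * s) (m * (ν + 1 - s)) (n - m * ν) ω) := by
  have h0 : ∀ s ∈ range (ν + 2),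
      0 ≤ 1 - Disc3.em u (m * s) (m * (ν + 1 - s)) (n - m * ν) ω := by
    intro s _
    rcases em01 u (m * s) (m * (ν + 1 - s)) (n - m * ν) ω with h | h <;> rw [h] <;> norm_num
  unfold II
  by_cases hall : ∀ s ∈ range (ν + 2), Disc3.em u (m * s) (m * (ν + 1 - s)) (n - m * ν) ω = 1
  · rw [Finset.prod_eq_one hall]
    exact ⟨Or.inr rfl, by rw [sub_self]; exact Finset.sum_nonneg h0⟩
  · push Not at hall
    obtain ⟨s, hs, hs1⟩ := hall
    have hs2 := (em01 u (m * s) (m * (ν + 1 - s)) (n - m * ν) ω).resolve_right hs1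
    rw [Finset.prod_eq_zero hs hs2]
    refine ⟨Or.inl rfl, ?_⟩
    have := Finset.single_le_sum h0 hs
    rw [hs2] at this
    linarith

/-- rounding the scale -/
lemma exists_R {q : ℕ} {κ sk : ℝ} (h : 48 ≤ q * (κ * sk)) (hκ : 0 < κ * sk) :
    ∃ R : ℕ, 0 < R ∧ κ * sk / 16 ≤ (R : ℝ) / q ∧ (R : ℝ) / q ≤ κ * sk / 12 := by
  have hq : (0 : ℝ) < q := by
    by_contra hcon
    have h1 : (q : ℝ) = 0 := le_antisymm (not_lt.1 hcon) (Nat.cast_nonneg q)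
    rw [h1] at h; linarith
  refine ⟨⌈(q : ℝ) * (κ * sk) / 16⌉₊, ?_, ?_, ?_⟩
  · exact Nat.ceil_pos.2 (by positivity)
  · rw [le_div_iff₀ hq]
    have := Nat.le_ceil ((q : ℝ) * (κ * sk) / 16)
    linarith
  · rw [div_le_iff₀ hq]
    have := (Nat.ceil_lt_add_one (show 0 ≤ (q : ℝ) * (κ * sk) / 16 by positivity)).le
    linarith

/-- the Gibbs inequality, applied -/
theorem gibbs_applied {N : ℕ} {u : Fin N → Fin 3 → ℝ} (hu : ∀ i c, 0 ≤ u i c ∧ u i c < 1) {M : ℝ}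
    (hM : ∀ α : Fin 3 → ℝ, (∀ c, 0 ≤ α c ∧ α c ≤ 1) → |Dm u α| ≤ M)
    {n m k D R : ℕ} (hm : 0 < m) (hk1 : m * k ≤ n) (hk2 : n < m * (k + 1)) (hD : k + 1 ≤ D)
    (hk : 10 ^ 7 ≤ k) (hR : 0 < R) (hN : 0 < N)
    (hε : N * (1 / 2 : ℝ) ^ n + 8 * M * (1 / 2 : ℝ) ^ m ≤ 1 / 512) (hM0 : 0 ≤ M)
    (hτ1 : 128 * ((R : ℝ) / (2 ^ (6 * (m * D)) : ℕ)) ^ 2 ≤ (N * (1 / 2 : ℝ) ^ n / 64) ^ 2 * k)
    (hτ2 : 256 * (N * (1 / 2 : ℝ) ^ n / 64) ^ 2 ≤ ((R : ℝ) / (2 ^ (6 * (m * D)) : ℕ)) ^ 2)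
    (τ : ℝ) (hτ : τ = (R : ℝ) / (2 ^ (6 * (m * D)) : ℕ)) :
    (k : ℝ) / (2 * 10 ^ 4) - 1 - 2 * τ⁻¹ * M ≤
      20 * ∑ j ∈ Ico (k / 2 + 1) k,
        Ex (PsiR (L := m * D) τ⁻¹ (fD u) m n)
          (fun ω => min 1 (|Fn (fD u) m n j ω| / τ)) := by
  have hτ0 : 0 < τ := by rw [hτ]; positivity
  set f : Om (m * D) → ℝ := fD u with hf
  have hfM : ∀ ω, |f ω| ≤ M := fun ω => fD_bound hM ω
  set Ψ := PsiR τ⁻¹ f m n with hΨ
  have hΨp : IsPr Ψ := PsiR_isPr _ _ _ _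
  set g : Om (m * D) → ℝ := fun ω => ∑ j ∈ Ico (k / 2 + 1) k,
    Real.log (tri τ (Fn f m n j ω) + 1 / 10 ^ 4) with hg
  have hpos : ∀ j ω, 0 < tri τ (Fn f m n j ω) + 1 / 10 ^ 4 := fun j ω => by
    have : 0 ≤ tri τ (Fn f m n j ω) := le_max_left _ _
    linarith [show (0 : ℝ) < 1 / 10 ^ 4 by norm_num]
  have h1 := gibbsR τ⁻¹ f m n g
  have h2 := tiltR_log (lam := τ⁻¹) hfM (inv_nonneg.2 hτ0.le) m n
  have h3 : Ex (Pw (m * D)) (fun ω => Real.exp (g ω)) ≤ 2 * Real.exp (-(k / (2 * 10 ^ 4))) := by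
    rw [Ex_eq_avc]
    have h4 : ∀ y : Cube (m * D), avc (fun x => avc (fun z => Real.exp (g (emb x z y)))) ≤
        2 * Real.exp (-(k / (2 * 10 ^ 4))) := by
      intro y
      have := prod_bound hm (by positivity) hR (by omega) hk (by positivity) (by positivity) hε
        hτ1 hτ2 (fam_disc hu hM hm hk1 hk2 hD y)
      rw [← hτ] at this
      refine le_trans (le_of_eq ?_) this
      refine avc_congr fun x => avc_congr fun z => ?_
      rw [hg]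
      simp only
      rw [Real.exp_sum]
      exact Finset.prod_congr rfl fun j _ => Real.exp_log (hpos j _)
    calc _ ≤ avc (fun _ : Cube (m * D) => 2 * Real.exp (-((k : ℝ) / (2 * 10 ^ 4)))) := avc_mono h4
      _ = _ := avc_const _
  have h5 : 0 < Ex (Pw (m * D)) (fun ω => Real.exp (g ω)) := by
    unfold Ex
    exact Finset.sum_pos (fun ω _ => mul_pos (Pw_pos ω) (Real.exp_pos _))
      ⟨fun _ _ => false, mem_univ _⟩
  have h6 : Real.log (Ex (Pw (m * D)) (fun ω => Real.exp (g ω))) ≤ 1 - k / (2 * 10 ^ 4) := by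
    refine (Real.log_le_log h5 h3).trans ?_
    rw [Real.log_mul (by norm_num) (Real.exp_pos _).ne', Real.log_exp]
    have := Real.log_two_lt_d9
    linarith
  have h7 : Ex Ψ g ≤ 2 * τ⁻¹ * M + (1 - k / (2 * 10 ^ 4)) := by
    refine h1.trans ?_
    linarith
  have h8 : Ex Ψ (fun ω => - g ω) ≤ Ex Ψ (fun ω => ∑ j ∈ Ico (k / 2 + 1) k,
      20 * min 1 (|Fn f m n j ω| / τ)) := by
    refine Ex_mono hΨp.nonneg fun ω => ?_
    rw [hg]
    simp only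
    rw [← Finset.sum_neg_distrib]
    exact Finset.sum_le_sum fun j _ => neglog_le hτ0 _
  have h9 : Ex Ψ (fun ω => ∑ j ∈ Ico (k / 2 + 1) k, 20 * min 1 (|Fn f m n j ω| / τ)) =
      20 * ∑ j ∈ Ico (k / 2 + 1) k, Ex Ψ (fun ω => min 1 (|Fn f m n j ω| / τ)) := by
    rw [Ex_sum, Finset.mul_sum]
    exact Finset.sum_congr rfl fun j _ => Ex_const_mul _ _ _
  have h10 : Ex Ψ (fun ω => - g ω) = - Ex Ψ g := Ex_neg _ _
  rw [h9, h10] at h8
  linarith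

lemma min_le_min_add {τ a b δ i : ℝ} (hτ : 0 < τ) (hi : i = 0 ∨ i = 1)
    (h : i = 1 → |a - b| ≤ δ) (hδ : 0 ≤ δ) :
    min 1 (|b| / τ) ≤ min 1 (|a| / τ) + δ / τ + (1 - i) := by
  have h0 : 0 ≤ min 1 (|a| / τ) := le_min zero_le_one (by positivity)
  have h1 : 0 ≤ δ / τ := by positivity
  rcases hi with rfl | rfl
  · have : min 1 (|b| / τ) ≤ 1 := min_le_left _ _
    linarith
  · have h2 := h rfl
    have h3 : |b| ≤ |a| + δ := by
      have := abs_sub_abs_le_abs_sub b a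
      rw [abs_sub_comm] at this
      linarith
    have h4 : |b| / τ ≤ |a| / τ + δ / τ := by
      rw [← add_div]; exact div_le_div_of_nonneg_right h3 hτ.le
    rw [sub_self, add_zero]
    rcases le_total 1 (|a| / τ) with h5 | h5
    · rw [min_eq_left h5]
      have : min 1 (|b| / τ) ≤ 1 := min_le_left _ _
      linarith
    · rw [min_eq_right h5]
      exact (min_le_right _ _).trans h4

/-- probability that some box of a level is not empty -/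
lemma II_bound {N : ℕ} {u : Fin N → Fin 3 → ℝ} (hu : ∀ i c, 0 ≤ u i c ∧ u i c < 1) {M : ℝ}
    (hM : ∀ α : Fin 3 → ℝ, (∀ c, 0 ≤ α c ∧ α c ≤ 1) → |Dm u α| ≤ M) (lam : ℝ)
    (f : Om L → ℝ)
    {m n j : ℕ} (hm : 0 < m) (hL : m * (j + 1) ≤ L) (hn : m * (j + 1) ≤ n)
    (hl : n - m * j ≤ L) :
    Ex (PsiR lam f m n) (fun ω => 1 - II u m n j ω) ≤
      (j + 2) * ((1 / 2 : ℝ) ^ (m - 1) * (N * (1 / 2 : ℝ) ^ (n + 1) + 8 * M)) := by
  have hΨ := PsiR_isPr lam f m n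
  calc Ex (PsiR lam f m n) (fun ω => 1 - II u m n j ω)
      ≤ Ex (PsiR lam f m n) (fun ω => ∑ s ∈ range (j + 2),
          (1 - Disc3.em u (m * s) (m * (j + 1 - s)) (n - m * j) ω)) :=
        Ex_mono hΨ.nonneg fun ω => (II_cases u m n j ω).2
    _ = ∑ s ∈ range (j + 2), Ex (PsiR lam f m n) (fun ω =>
          1 - Disc3.em u (m * s) (m * (j + 1 - s)) (n - m * j) ω) := Ex_sum _ _ _
    _ ≤ ∑ s ∈ range (j + 2), (1 / 2 : ℝ) ^ (m - 1) * (N * (1 / 2 : ℝ) ^ (n + 1) + 8 * M) := by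
        refine Finset.sum_le_sum fun s hs => ?_
        have hs' : s ≤ j + 1 := by have := mem_range.1 hs; omega
        have e1 : m * s ≤ L := (Nat.mul_le_mul_left _ hs').trans hL
        have e2 : m * (j + 1 - s) ≤ L := (Nat.mul_le_mul_left _ (Nat.sub_le _ _)).trans hL
        have e3 : m * s + m * (j + 1 - s) + (n - m * (j + 1) + 1) = n + 1 := by
          rw [← Nat.mul_add, show s + (j + 1 - s) = j + 1 by omega]; omega
        have := em_PsiR hu hM lam f hm e1 e2 hn hl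
        rwa [e3] at this
    _ = _ := by rw [Finset.sum_const, card_range, nsmul_eq_mul]; push_cast; ring

/-- the levels seen by the tilt -/
theorem tilt_levels {N : ℕ} {u : Fin N → Fin 3 → ℝ} {M : ℝ}
    (hM : ∀ α : Fin 3 → ℝ, (∀ c, 0 ≤ α c ∧ α c ≤ 1) → |Dm u α| ≤ M)
    {n m k : ℕ} (hm : 0 < m) (hk1 : m * k ≤ n) (hL : n < L) {τ : ℝ} (hτ0 : 0 < τ) :
    τ / 2 * ∑ j ∈ Ico (k / 2 + 1) k,
        Ex (PsiR (L := L) τ⁻¹ (fD u) m n)
          (fun ω => (min 1 (|Gd (fD u) L L (n - m * j) ω| / τ)) ^ 2) ≤ 2 * M := by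
  set f : Om L → ℝ := fD u with hf
  have hfM : ∀ ω, |f ω| ≤ M := fun ω => fD_bound hM ω
  set Ψ := PsiR τ⁻¹ f m n with hΨ
  have hΨp : IsPr Ψ := PsiR_isPr _ _ _ _
  refine le_trans ?_ (tiltR1 (lam := τ⁻¹) hfM m n)
  rw [Finset.mul_sum]
  calc ∑ j ∈ Ico (k / 2 + 1) k, τ / 2 * Ex Ψ (fun ω => (min 1 (|Gd f L L (n - m * j) ω| / τ)) ^ 2)
      = Ex Ψ (fun ω => ∑ j ∈ Ico (k / 2 + 1) k,
          τ / 2 * (min 1 (|Gd f L L (n - m * j) ω| / τ)) ^ 2) := by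
        rw [Ex_sum]
        exact Finset.sum_congr rfl fun j _ => (Ex_const_mul _ _ _).symm
    _ ≤ Ex Ψ (fun ω => ∑ l ∈ range L, TT τ⁻¹ f m n l ω * Gd f L L l ω) := by
        refine Ex_mono hΨp.nonneg fun ω => ?_
        have hinj : Set.InjOn (fun j => n - m * j) (Ico (k / 2 + 1) k : Finset ℕ) := by
          intro a ha b hb hab
          have ha' := (Finset.mem_Ico.1 (Finset.mem_coe.1 ha)).2
          have hb' := (Finset.mem_Ico.1 (Finset.mem_coe.1 hb)).2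
          have h1 : m * a ≤ n := (Nat.mul_le_mul_left _ ha'.le).trans hk1
          have h2 : m * b ≤ n := (Nat.mul_le_mul_left _ hb'.le).trans hk1
          simp only at hab
          have h3 : m * a = m * b := by omega
          exact Nat.eq_of_mul_eq_mul_left hm h3
        calc ∑ j ∈ Ico (k / 2 + 1) k, τ / 2 * (min 1 (|Gd f L L (n - m * j) ω| / τ)) ^ 2
            ≤ ∑ j ∈ Ico (k / 2 + 1) k, TT τ⁻¹ f m n (n - m * j) ω * Gd f L L (n - m * j) ω := by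
              refine Finset.sum_le_sum fun j hj => ?_
              have hj' := (Finset.mem_Ico.1 hj).2
              have h1 : m * j ≤ n := (Nat.mul_le_mul_left _ hj'.le).trans hk1
              unfold TT
              rw [if_pos ⟨Nat.sub_le _ _, by
                rw [show n - (n - m * j) = m * j by omega]; exact dvd_mul_right _ _⟩]
              exact mul_tanh_ge hτ0 _
          _ = ∑ l ∈ (Ico (k / 2 + 1) k).image (fun j => n - m * j),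
                TT τ⁻¹ f m n l ω * Gd f L L l ω := (Finset.sum_image
                (f := fun l => TT τ⁻¹ f m n l ω * Gd f L L l ω) hinj).symm
          _ ≤ _ := by
              refine Finset.sum_le_sum_of_subset_of_nonneg ?_
                fun l _ _ => TT_nonneg (inv_nonneg.2 hτ0.le) f m n l ω
              intro l hl
              obtain ⟨j, _, rfl⟩ := Finset.mem_image.1 hl
              exact mem_range.2 (by omega)

/-- all of the above together -/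
theorem core {N : ℕ} {u : Fin N → Fin 3 → ℝ} (hu : ∀ i c, 0 ≤ u i c ∧ u i c < 1) {M : ℝ}
    (hM0 : 0 ≤ M) (hM : ∀ α : Fin 3 → ℝ, (∀ c, 0 ≤ α c ∧ α c ≤ 1) → |Dm u α| ≤ M)
    {n m k : ℕ} (hn1 : 1024 * N ≤ 2 ^ n) (hn2 : 2 ^ n ≤ 2048 * N) (hm : 0 < m)
    (hk1 : m * k ≤ n) (hk2 : n < m * (k + 1)) (hk : 10 ^ 7 ≤ k)
    (hsmall : 10 ^ 4 * (k : ℝ) ^ 2 * (1 + M) ≤ 2 ^ m) :
    (k : ℝ) ^ (3 / 2 : ℝ) / 10 ^ 19 ≤ M := by
  have hkR : (10 : ℝ) ^ 7 ≤ k := by exact_mod_cast hk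
  have hk0 : (0 : ℝ) < k := lt_of_lt_of_le (by norm_num) hkR
  -- the density `N 2^{-n}`
  have hN : 0 < N := by
    rcases Nat.eq_zero_or_pos N with h | h
    · rw [h] at hn2; have : 0 < 2 ^ n := by positivity
      omega
    · exact h
  have hn1R : (1024 : ℝ) * N ≤ 2 ^ n := by exact_mod_cast hn1
  have hn2R : (2 : ℝ) ^ n ≤ 2048 * N := by exact_mod_cast hn2
  set d : ℝ := N * (1 / 2 : ℝ) ^ n with hd
  have hpow : (1 / 2 : ℝ) ^ n * 2 ^ n = 1 := by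
    rw [← mul_pow]; norm_num
  have hpn : (0 : ℝ) < (1 / 2 : ℝ) ^ n := by positivity
  have hd1 : d ≤ 1 / 1024 := by
    rw [hd]; nlinarith
  have hd2 : 1 / 2048 ≤ d := by
    rw [hd]; nlinarith
  -- the block length
  have hpm : (1 / 2 : ℝ) ^ m * 2 ^ m = 1 := by
    rw [← mul_pow]; norm_num
  have hpm0 : (0 : ℝ) < (1 / 2 : ℝ) ^ m := by positivity
  have hsm : 10 ^ 4 * (k : ℝ) ^ 2 * (1 + M) * (1 / 2 : ℝ) ^ m ≤ 1 := by
    calc 10 ^ 4 * (k : ℝ) ^ 2 * (1 + M) * (1 / 2 : ℝ) ^ m ≤ 2 ^ m * (1 / 2 : ℝ) ^ m :=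
          mul_le_mul_of_nonneg_right hsmall hpm0.le
      _ = 1 := by rw [mul_comm]; exact hpm
  have hk2R : (10 : ℝ) ^ 14 ≤ (k : ℝ) ^ 2 := by
    calc (10 : ℝ) ^ 14 = (10 ^ 7) ^ 2 := by norm_num
      _ ≤ _ := pow_le_pow_left₀ (by positivity) hkR 2
  have hMm : 8 * M * (1 / 2 : ℝ) ^ m ≤ 1 / 1024 := by
    have h1 : 0 ≤ (1 + M) * (1 / 2 : ℝ) ^ m := by positivity
    have h2 : 10 ^ 4 * (10 : ℝ) ^ 14 * ((1 + M) * (1 / 2 : ℝ) ^ m) ≤ 1 := by
      refine le_trans ?_ hsm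
      calc 10 ^ 4 * (10 : ℝ) ^ 14 * ((1 + M) * (1 / 2 : ℝ) ^ m)
          ≤ 10 ^ 4 * (k : ℝ) ^ 2 * ((1 + M) * (1 / 2 : ℝ) ^ m) := by gcongr
        _ = _ := by ring
    have h3 : M * (1 / 2 : ℝ) ^ m ≤ (1 + M) * (1 / 2 : ℝ) ^ m :=
      mul_le_mul_of_nonneg_right (by linarith) hpm0.le
    nlinarith
  have hε : N * (1 / 2 : ℝ) ^ n + 8 * M * (1 / 2 : ℝ) ^ m ≤ 1 / 512 := by
    rw [← hd]; linarith
  -- the scale
  set sk : ℝ := Real.sqrt k with hsk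
  have hsk0 : 0 < sk := Real.sqrt_pos.2 hk0
  have hsk2 : sk * sk = k := Real.mul_self_sqrt hk0.le
  have hsk1 : 3000 ≤ sk := by
    rw [hsk]
    refine Real.le_sqrt_of_sq_le ?_
    linarith
  set D : ℕ := k + 3 with hD
  set q : ℕ := 2 ^ (6 * (m * D)) with hq
  have hq1 : (2 : ℝ) ^ 60 ≤ q := by
    rw [hq]
    push_cast
    refine pow_le_pow_right₀ (by norm_num) ?_
    have : 1 * D ≤ m * D := Nat.mul_le_mul_right _ hm
    omega
  set κ : ℝ := d / 64 with hκ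
  have hκ1 : 1 / 131072 ≤ κ := by rw [hκ]; linarith
  have hκ0 : 0 < κ := lt_of_lt_of_le (by norm_num) hκ1
  have hκsk : (1 : ℝ) / 131072 * 3000 ≤ κ * sk :=
    mul_le_mul hκ1 hsk1 (by norm_num) hκ0.le
  obtain ⟨R, hR, hR1, hR2⟩ := exists_R (q := q) (κ := κ) (sk := sk) (by
    calc (48 : ℝ) ≤ 2 ^ 60 * (1 / 131072 * 3000) := by norm_num
      _ ≤ q * (κ * sk) := mul_le_mul hq1 hκsk (by norm_num) (by positivity)) (by positivity)
  obtain ⟨τ, hτ⟩ : ∃ τ : ℝ, τ = (R : ℝ) / q := ⟨_, rfl⟩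
  rw [← hτ] at hR1 hR2
  have hτ0 : 0 < τ := lt_of_lt_of_le (by positivity) hR1
  have hκsk2 : (κ * sk) ^ 2 = κ ^ 2 * k := by rw [mul_pow, sq sk, hsk2]
  have hτ1 : 128 * τ ^ 2 ≤ κ ^ 2 * k := by
    have h1 : τ ^ 2 ≤ (κ * sk / 12) ^ 2 := pow_le_pow_left₀ hτ0.le hR2 2
    rw [div_pow, hκsk2] at h1
    have h2 : 0 ≤ κ ^ 2 * k := by positivity
    linarith
  have hτ2 : 256 * κ ^ 2 ≤ τ ^ 2 := by
    have h1 : (κ * sk / 16) ^ 2 ≤ τ ^ 2 := pow_le_pow_left₀ (by positivity) hR1 2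
    rw [div_pow, hκsk2] at h1
    have h2 : κ ^ 2 * (10 : ℝ) ^ 7 ≤ κ ^ 2 * k := mul_le_mul_of_nonneg_left hkR (sq_nonneg _)
    have h3 : 0 ≤ κ ^ 2 := sq_nonneg _
    linarith
  have hG := gibbs_applied hu hM hm hk1 hk2 (D := D) (by omega) hk hR hN hε hM0
    (by rw [← hd, ← hκ, ← hq, ← hτ]; exact hτ1) (by rw [← hd, ← hκ, ← hq, ← hτ]; exact hτ2) τ hτ
  by_contra hcon
  push Not at hcon
  have hk32 : (k : ℝ) ^ (3 / 2 : ℝ) = k * sk := by
    rw [show (3 / 2 : ℝ) = 1 + 1 / 2 by norm_num, Real.rpow_add hk0, Real.rpow_one,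
      ← Real.sqrt_eq_rpow]
  rw [hk32] at hcon
  -- `M / τ` is small
  have hMτ : τ⁻¹ * M ≤ k / 10 ^ 12 := by
    rw [inv_mul_le_iff₀ hτ0]
    have h1 : k * sk / 10 ^ 19 ≤ k / 10 ^ 12 * (κ * sk / 16) := by
      have h2 : (1 : ℝ) / 131072 * (k * sk) ≤ κ * (k * sk) :=
        mul_le_mul_of_nonneg_right hκ1 (by positivity)
      have h3 : k / 10 ^ 12 * (κ * sk / 16) = κ * (k * sk) / (16 * 10 ^ 12) := by ring
      rw [h3, div_le_div_iff₀ (by norm_num) (by norm_num)]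
      have h4 : 0 < k * sk := by positivity
      nlinarith
    have h5 : k / 10 ^ 12 * (κ * sk / 16) ≤ k / 10 ^ 12 * τ :=
      mul_le_mul_of_nonneg_left hR1 (by positivity)
    linarith
  have hS1 : (k : ℝ) / 600000 ≤ ∑ j ∈ Ico (k / 2 + 1) k,
      Ex (PsiR (L := m * D) τ⁻¹ (fD u) m n) (fun ω => min 1 (|Fn (fD u) m n j ω| / τ)) := by
    linarith
  set Ψ := PsiR (L := m * D) τ⁻¹ (fD u) m n with hΨ
  have hΨp : IsPr Ψ := PsiR_isPr _ _ _ _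
  have hnL : n < m * D := by
    have h1 : m * (k + 1) ≤ m * D := Nat.mul_le_mul_left _ (by omega)
    omega
  have hτ3 : 1 / 1000 ≤ τ := by
    refine le_trans ?_ hR1
    calc (1 : ℝ) / 1000 ≤ 1 / 131072 * 3000 / 16 := by norm_num
      _ ≤ κ * sk / 16 := div_le_div_of_nonneg_right hκsk (by norm_num)
  -- from `F` to `G`
  have hFG : ∀ j ∈ Ico (k / 2 + 1) k, Ex Ψ (fun ω => min 1 (|Fn (fD u) m n j ω| / τ)) ≤
      Ex Ψ (fun ω => min 1 (|Gd (fD u) (m * D) (m * D) (n - m * j) ω| / τ)) + 1 / k := by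
    intro j hj
    have hj' := (Finset.mem_Ico.1 hj).2
    have hjR : (j : ℝ) + 2 ≤ 2 * k := by
      have : j + 2 ≤ 2 * k := by omega
      exact_mod_cast this
    have e1 : m * (j + 1) ≤ m * D := Nat.mul_le_mul_left _ (by omega)
    have e2 : m * j ≤ n := (Nat.mul_le_mul_left _ hj'.le).trans hk1
    have e3 : m * (j + 1) ≤ n := (Nat.mul_le_mul_left _ hj').trans hk1
    set δ : ℝ := (j + 2) * (N * (1 / 2 : ℝ) ^ (n + m)) with hδ
    have hδ0 : 0 ≤ δ := by positivity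
    have h1 : ∀ ω : Om (m * D), min 1 (|Fn (fD u) m n j ω| / τ) ≤
        min 1 (|Gd (fD u) (m * D) (m * D) (n - m * j) ω| / τ) + δ / τ + (1 - II u m n j ω) :=
      fun ω => min_le_min_add hτ0 (II_cases u m n j ω).1
        (fun hI => Fn_close hu e1 e2 (by omega) ω hI) hδ0
    have h2 : Ex Ψ (fun ω => min 1 (|Fn (fD u) m n j ω| / τ)) ≤
        Ex Ψ (fun ω => min 1 (|Gd (fD u) (m * D) (m * D) (n - m * j) ω| / τ)) + δ / τ
          + Ex Ψ (fun ω => 1 - II u m n j ω) := by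
      refine (Ex_mono hΨp.nonneg h1).trans (le_of_eq ?_)
      rw [Ex_add, Ex_add, Ex_const hΨp.one]
    have h3 := II_bound hu hM τ⁻¹ (fD u) hm e1 e3 (j := j) (n := n) (by omega)
    rw [← hΨ] at h3
    -- numbers
    have hx0 : 0 ≤ (k : ℝ) ^ 2 * (1 / 2 : ℝ) ^ m := by positivity
    have hx : (k : ℝ) ^ 2 * (1 / 2 : ℝ) ^ m * (1 + M) ≤ 1 / 10 ^ 4 := by
      have : 10 ^ 4 * (k : ℝ) ^ 2 * (1 + M) * (1 / 2 : ℝ) ^ m =
        10 ^ 4 * ((k : ℝ) ^ 2 * (1 / 2 : ℝ) ^ m * (1 + M)) := by ring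
      linarith
    have hx1 : (k : ℝ) ^ 2 * (1 / 2 : ℝ) ^ m ≤ 1 / 10 ^ 4 := by nlinarith
    have h4 : δ / τ ≤ 1 / (2 * k) := by
      have h5 : δ ≤ 2 * k * (1 / 1024 * (1 / 2 : ℝ) ^ m) := by
        rw [hδ, pow_add, ← mul_assoc (N : ℝ), ← hd]
        exact mul_le_mul hjR (mul_le_mul_of_nonneg_right hd1 hpm0.le) (by positivity)
          (by positivity)
      rw [div_le_div_iff₀ hτ0 (by positivity), one_mul]
      calc δ * (2 * k) ≤ 2 * k * (1 / 1024 * (1 / 2 : ℝ) ^ m) * (2 * k) :=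
            mul_le_mul_of_nonneg_right h5 (by positivity)
        _ = 4 / 1024 * ((k : ℝ) ^ 2 * (1 / 2 : ℝ) ^ m) := by ring
        _ ≤ 4 / 1024 * (1 / 10 ^ 4) := by gcongr
        _ ≤ τ := by refine le_trans ?_ hτ3; norm_num
    have h6 : ((j : ℝ) + 2) * ((1 / 2 : ℝ) ^ (m - 1) * (N * (1 / 2 : ℝ) ^ (n + 1) + 8 * M)) ≤
        1 / (2 * k) := by
      have h7 : (1 / 2 : ℝ) ^ (m - 1) = 2 * (1 / 2 : ℝ) ^ m := by
        obtain ⟨p, rfl⟩ : ∃ p, m = p + 1 := ⟨m - 1, by omega⟩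
        rw [Nat.add_sub_cancel, pow_succ]; ring
      have h8 : (N : ℝ) * (1 / 2 : ℝ) ^ (n + 1) = d / 2 := by rw [pow_succ, hd]; ring
      rw [h7, h8, le_div_iff₀ (by positivity)]
      have h9 : d / 2 + 8 * M ≤ 8 * (1 + M) := by linarith
      calc ((j : ℝ) + 2) * (2 * (1 / 2 : ℝ) ^ m * (d / 2 + 8 * M)) * (2 * k)
          ≤ (2 * k) * (2 * (1 / 2 : ℝ) ^ m * (8 * (1 + M))) * (2 * k) := by
            have : 0 ≤ d / 2 + 8 * M := by positivity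
            gcongr
        _ = 64 * ((k : ℝ) ^ 2 * (1 / 2 : ℝ) ^ m * (1 + M)) := by ring
        _ ≤ 64 * (1 / 10 ^ 4) := by gcongr
        _ ≤ 1 := by norm_num
    have h10 : (1 : ℝ) / (2 * k) + 1 / (2 * k) = 1 / k := by field_simp; norm_num
    linarith
  have hcard : (((Ico (k / 2 + 1) k).card : ℕ) : ℝ) ≤ k := by
    rw [Nat.card_Ico]; exact_mod_cast Nat.sub_le _ _
  have hS2 : (k : ℝ) / 10 ^ 6 ≤ ∑ j ∈ Ico (k / 2 + 1) k,
      Ex Ψ (fun ω => min 1 (|Gd (fD u) (m * D) (m * D) (n - m * j) ω| / τ)) := by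
    have h1 := Finset.sum_le_sum hFG
    rw [Finset.sum_add_distrib, Finset.sum_const, nsmul_eq_mul] at h1
    have h2 : (((Ico (k / 2 + 1) k).card : ℕ) : ℝ) * (1 / k) ≤ 1 := by
      rw [mul_one_div, div_le_one hk0]; exact hcard
    linarith
  -- Cauchy–Schwarz
  have hS3 : (k : ℝ) / 10 ^ 12 ≤ ∑ j ∈ Ico (k / 2 + 1) k,
      Ex Ψ (fun ω => (min 1 (|Gd (fD u) (m * D) (m * D) (n - m * j) ω| / τ)) ^ 2) := by
    have h1 : ∀ j ∈ Ico (k / 2 + 1) k,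
        (Ex Ψ (fun ω => min 1 (|Gd (fD u) (m * D) (m * D) (n - m * j) ω| / τ))) ^ 2 ≤
        Ex Ψ (fun ω => (min 1 (|Gd (fD u) (m * D) (m * D) (n - m * j) ω| / τ)) ^ 2) := by
      intro j _
      have := Ex_mul_sq_le hΨp.nonneg
        (fun ω => min 1 (|Gd (fD u) (m * D) (m * D) (n - m * j) ω| / τ)) (fun _ => 1)
      simp only [mul_one, one_pow, Ex_const hΨp.one] at this
      exact this
    have h2 := Finset.sum_le_sum h1
    have h3 := sq_sum_le_card_mul_sum_sq (s := Ico (k / 2 + 1) k)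
      (f := fun j => Ex Ψ (fun ω => min 1 (|Gd (fD u) (m * D) (m * D) (n - m * j) ω| / τ)))
    have h4 : ((k : ℝ) / 10 ^ 6) ^ 2 ≤ (∑ j ∈ Ico (k / 2 + 1) k,
      Ex Ψ (fun ω => min 1 (|Gd (fD u) (m * D) (m * D) (n - m * j) ω| / τ))) ^ 2 :=
      pow_le_pow_left₀ (by positivity) hS2 2
    have h5 : 0 ≤ ∑ j ∈ Ico (k / 2 + 1) k, (Ex Ψ (fun ω =>
      min 1 (|Gd (fD u) (m * D) (m * D) (n - m * j) ω| / τ))) ^ 2 :=
      Finset.sum_nonneg fun j _ => sq_nonneg _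
    have h6 : ((k : ℝ) / 10 ^ 6) ^ 2 ≤ k * ∑ j ∈ Ico (k / 2 + 1) k, (Ex Ψ (fun ω =>
      min 1 (|Gd (fD u) (m * D) (m * D) (n - m * j) ω| / τ))) ^ 2 :=
      h4.trans (h3.trans (mul_le_mul_of_nonneg_right hcard h5))
    have h7 : (k : ℝ) / 10 ^ 12 ≤ ∑ j ∈ Ico (k / 2 + 1) k, (Ex Ψ (fun ω =>
      min 1 (|Gd (fD u) (m * D) (m * D) (n - m * j) ω| / τ))) ^ 2 := by
      have h8 : ((k : ℝ) / 10 ^ 6) ^ 2 = k * (k / 10 ^ 12) := by ring
      rw [h8] at h6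
      exact le_of_mul_le_mul_left h6 hk0
    linarith
  have hT := tilt_levels hM hm hk1 hnL hτ0
  rw [← hΨ] at hT
  have hfin : τ / 2 * (k / 10 ^ 12) ≤ 2 * M :=
    (mul_le_mul_of_nonneg_left hS3 (by positivity)).trans hT
  have hfin2 : κ * sk / 16 / 2 * (k / 10 ^ 12) ≤ 2 * M := by
    refine le_trans ?_ hfin
    gcongr
  have h1 : (1 : ℝ) / 131072 * (k * sk) ≤ κ * (k * sk) :=
    mul_le_mul_of_nonneg_right hκ1 (by positivity)
  have h2 : 0 < k * sk := by positivity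
  have h3 : κ * sk / 16 / 2 * (k / 10 ^ 12) = κ * (k * sk) / (32 * 10 ^ 12) := by ring
  rw [h3, div_le_iff₀ (by norm_num)] at hfin2
  rw [lt_div_iff₀ (by norm_num)] at hcon
  nlinarith

end Disc32
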