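import Mathlib

/-!
# Averages over the Boolean cube

`Cube D = Fin D → Bool`; `glue s x x'` takes the first `s` digits from `x` and the others from `x'`;
`avc` is the average over the cube and `Mt s` the average over the digits from `s` on.
-/

namespace Disc32

open Finset

/-- the Boolean cube -/
abbrev Cube (D : ℕ) := Fin D → Bool

variable {D : ℕ}

/-- the first `s` digits from `x`, the others from `x'` -/
def glue (s : ℕ) (x x' : Cube D) : Cube D := fun i => if (i : ℕ) < s then x i else x' i

/-- the first `s` digits agree -/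
def agree (s : ℕ) (x x' : Cube D) : Prop := ∀ i : Fin D, (i : ℕ) < s → x i = x' i

/-- all digits from `s` on replaced by `false` -/
def cut (s : ℕ) (x : Cube D) : Cube D := glue s x (fun _ => false)

/-- digit `i` replaced by `b` -/
def setb (i : ℕ) (b : Bool) (x : Cube D) : Cube D := fun j => if (j : ℕ) = i then b else x j

/-- the sign of digit `i` -/
def sg (i : ℕ) (x : Cube D) : ℝ := if h : i < D then (if x ⟨i, h⟩ then 1 else -1) else 1

/-- average over the cube -/
noncomputable def avc {E : Type*} [AddCommGroup E] [Module ℝ E] (g : Cube D → E) : E :=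
  ((2 : ℝ) ^ D)⁻¹ • ∑ x, g x

/-- average over the digits from `s` on -/
noncomputable def Mt {E : Type*} [AddCommGroup E] [Module ℝ E] (s : ℕ) (g : Cube D → E)
    (x : Cube D) : E :=
  avc (fun x' => g (glue s x x'))

/-! ### combinatorics of `glue`, `agree`, `cut`, `setb` -/

lemma agree_refl (s : ℕ) (x : Cube D) : agree s x x := fun _ _ => rfl
lemma agree_symm {s : ℕ} {x y : Cube D} (h : agree s x y) : agree s y x := fun i hi => (h i hi).symm
lemma agree_trans {s : ℕ} {x y z : Cube D} (h : agree s x y) (h' : agree s y z) : agree s x z :=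
  fun i hi => (h i hi).trans (h' i hi)
lemma agree_mono {s s' : ℕ} (hs : s ≤ s') {x y : Cube D} (h : agree s' x y) : agree s x y :=
  fun i hi => h i (lt_of_lt_of_le hi hs)
lemma agree_full {s : ℕ} (hs : D ≤ s) {x y : Cube D} (h : agree s x y) : x = y :=
  funext fun i => h i (lt_of_lt_of_le i.2 hs)
lemma agree_glue (s : ℕ) (x x' : Cube D) : agree s (glue s x x') x := fun i hi => by
  simp [glue, hi]
lemma agree_cut (s : ℕ) (x : Cube D) : agree s (cut s x) x := agree_glue s x _
lemma agree_setb {s i : ℕ} (h : s ≤ i) (b : Bool) (x : Cube D) : agree s (setb i b x) x :=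
  fun j hj => by simp only [setb]; rw [if_neg (by omega)]
lemma glue_of_agree {s : ℕ} {x y : Cube D} (h : agree s x y) (x' : Cube D) :
    glue s x x' = glue s y x' := by
  funext i; simp only [glue]; split_ifs with hi
  · exact h i hi
  · rfl
lemma cut_of_agree {s : ℕ} {x y : Cube D} (h : agree s x y) : cut s x = cut s y :=
  glue_of_agree h _
lemma glue_glue {s s' : ℕ} (h : s ≤ s') (x x' x'' : Cube D) :
    glue s' (glue s x x') x'' = glue s x (glue s' x' x'') := by
  funext i
  simp only [glue]
  by_cases h1 : (i : ℕ) < s' <;> by_cases h2 : (i : ℕ) < s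
  · simp [h1, h2]
  · simp [h1, h2]
  · omega
  · simp [h1, h2]
lemma glue_full {s : ℕ} (hs : D ≤ s) (x x' : Cube D) : glue s x x' = x :=
  agree_full hs (agree_glue s x x')
lemma glue_zero (x x' : Cube D) : glue 0 x x' = x' := by funext i; simp [glue]
lemma cut_cut {s s' : ℕ} (h : s ≤ s') (x : Cube D) : cut s (cut s' x) = cut s x :=
  cut_of_agree (agree_mono h (agree_cut s' x))
lemma cut_setb (s : ℕ) (x : Cube D) (b : Bool) : cut s (setb s b x) = cut s x :=
  cut_of_agree (agree_setb le_rfl b x)
lemma cut_succ_setb_false (s : ℕ) (x : Cube D) : cut (s + 1) (setb s false x) = cut s x := by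
  funext i
  simp only [cut, glue, setb]
  by_cases h1 : (i : ℕ) < s
  · rw [if_pos (by omega), if_neg (by omega), if_pos h1]
  · by_cases h2 : (i : ℕ) = s
    · rw [if_pos (by omega), if_pos h2, if_neg h1]
    · rw [if_neg (by omega), if_neg h1]
lemma cut_succ_setb_true (s : ℕ) (x : Cube D) :
    cut (s + 1) (setb s true x) = setb s true (cut s x) := by
  funext i
  simp only [cut, glue, setb]
  by_cases h1 : (i : ℕ) < s
  · rw [if_pos (by omega), if_neg (by omega), if_neg (by omega), if_pos h1]
  · by_cases h2 : (i : ℕ) = s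
    · rw [if_pos (by omega), if_pos h2, if_pos h2]
    · rw [if_neg (by omega), if_neg (by omega), if_neg h1]
lemma setb_cut (s : ℕ) (x : Cube D) : setb s false (cut s x) = cut s x := by
  funext i
  simp only [cut, glue, setb]
  by_cases h2 : (i : ℕ) = s
  · rw [if_pos h2, if_neg (by omega)]
  · rw [if_neg h2]
lemma setb_glue_succ (s : ℕ) (b : Bool) (x x' : Cube D) :
    glue (s + 1) (setb s b x) x' = glue s x (setb s b x') := by
  funext i
  simp only [glue, setb]
  by_cases h1 : (i : ℕ) < s
  · rw [if_pos (by omega), if_neg (by omega), if_pos h1]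
  · by_cases h2 : (i : ℕ) = s
    · rw [if_pos (by omega), if_pos h2, if_neg h1, if_pos h2]
    · rw [if_neg (by omega), if_neg h1, if_neg h2]
lemma sg_setb {s : ℕ} (hs : s < D) (b : Bool) (x : Cube D) :
    sg s (setb s b x) = if b then 1 else -1 := by
  simp [sg, setb, hs]
lemma sg_sq (s : ℕ) (x : Cube D) : sg s x ^ 2 = 1 := by
  unfold sg; split_ifs <;> norm_num
lemma sg_agree {s i : ℕ} (h : i < s) {x y : Cube D} (hxy : agree s x y) : sg i x = sg i y := by
  unfold sg
  split_ifs with h1 h2 h3 h3 <;> first | rfl | (have := hxy ⟨i, h1⟩ h; simp_all)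

/-! ### averages -/

section avg

variable {E : Type*} [AddCommGroup E] [Module ℝ E]

lemma card_cube : Fintype.card (Cube D) = 2 ^ D := by simp

lemma avc_real (g : Cube D → ℝ) : avc g = ((2 : ℝ) ^ D)⁻¹ * ∑ x, g x := rfl

lemma avc_congr {g h : Cube D → E} (H : ∀ x, g x = h x) : avc g = avc h := by rw [funext H]

lemma avc_add (g h : Cube D → E) : avc (fun x => g x + h x) = avc g + avc h := by
  simp only [avc, Finset.sum_add_distrib, smul_add]
lemma avc_sub (g h : Cube D → E) : avc (fun x => g x - h x) = avc g - avc h := by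
  simp only [avc, Finset.sum_sub_distrib, smul_sub]
lemma avc_neg (g : Cube D → E) : avc (fun x => - g x) = - avc g := by
  simp only [avc, Finset.sum_neg_distrib, smul_neg]
lemma avc_smul (a : ℝ) (g : Cube D → E) : avc (fun x => a • g x) = a • avc g := by
  simp only [avc, ← Finset.smul_sum, smul_comm a]
lemma avc_const (a : E) : avc (fun _ : Cube D => a) = a := by
  simp only [avc, Finset.sum_const, Finset.card_univ, card_cube]
  rw [← Nat.cast_smul_eq_nsmul ℝ, smul_smul]
  push_cast
  rw [inv_mul_cancel₀ (by positivity), one_smul]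
lemma avc_sum {ι : Type*} (s : Finset ι) (g : ι → Cube D → E) :
    avc (fun x => ∑ i ∈ s, g i x) = ∑ i ∈ s, avc (g i) := by
  simp only [avc, Finset.smul_sum]
  exact Finset.sum_comm
lemma avc_comm {D' : ℕ} (g : Cube D → Cube D' → E) :
    avc (fun x => avc (fun z => g x z)) = avc (fun z => avc (fun x => g x z)) := by
  simp only [avc, Finset.smul_sum]
  rw [Finset.sum_comm]
  refine Finset.sum_congr rfl fun z _ => Finset.sum_congr rfl fun x _ => ?_
  rw [smul_comm]
lemma avc_mul_left (a : ℝ) (g : Cube D → ℝ) : avc (fun x => a * g x) = a * avc g := avc_smul a g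
lemma avc_mul_right (a : ℝ) (g : Cube D → ℝ) : avc (fun x => g x * a) = avc g * a := by
  rw [mul_comm (avc g) a, ← avc_mul_left]; exact avc_congr fun x => mul_comm _ _
lemma avc_mono {g h : Cube D → ℝ} (H : ∀ x, g x ≤ h x) : avc g ≤ avc h := by
  rw [avc_real, avc_real]
  exact mul_le_mul_of_nonneg_left (Finset.sum_le_sum fun x _ => H x) (by positivity)
lemma avc_nonneg {g : Cube D → ℝ} (H : ∀ x, 0 ≤ g x) : 0 ≤ avc g := by
  have := avc_mono (g := fun _ => (0 : ℝ)) H
  rwa [avc_const] at this
lemma avc_pos {g : Cube D → ℝ} (H : ∀ x, 0 < g x) : 0 < avc g := by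
  rw [avc_real]
  exact mul_pos (by positivity) (Finset.sum_pos (fun x _ => H x) ⟨fun _ => false, Finset.mem_univ _⟩)
lemma avc_norm_le {F : Type*} [NormedAddCommGroup F] [NormedSpace ℝ F] (g : Cube D → F) :
    ‖avc g‖ ≤ avc (fun x => ‖g x‖) := by
  rw [avc_real]
  unfold avc
  rw [norm_smul, Real.norm_of_nonneg (by positivity)]
  exact mul_le_mul_of_nonneg_left (norm_sum_le _ _) (by positivity)

/-- pairing: `(x, x') ↦ (glue s x x', glue s x' x)` is an involution -/
lemma avc_Mt (s : ℕ) (g : Cube D → E) : avc (Mt s g) = avc g := by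
  have h1 : avc (Mt s g) = ((2 : ℝ) ^ D)⁻¹ • ((2 : ℝ) ^ D)⁻¹ •
      ∑ p : Cube D × Cube D, g (glue s p.1 p.2) := by
    simp only [avc, Mt, Fintype.sum_prod_type, Finset.smul_sum]
  have inv : Function.Involutive
      (fun p : Cube D × Cube D => (glue s p.1 p.2, glue s p.2 p.1)) := by
    rintro ⟨x, y⟩
    ext i <;> simp only [glue] <;> by_cases h : (i : ℕ) < s <;> simp [h]
  have h2 : ∑ p : Cube D × Cube D, g (glue s p.1 p.2) = ∑ p : Cube D × Cube D, g p.1 := by
    have := Equiv.sum_comp inv.toPerm (fun p : Cube D × Cube D => g p.1)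
    simpa using this
  rw [h1, h2]
  have h3 : ∑ p : Cube D × Cube D, g p.1 = (2 : ℝ) ^ D • ∑ x, g x := by
    rw [Fintype.sum_prod_type]
    simp only [Finset.sum_const, Finset.card_univ, card_cube]
    rw [← Finset.smul_sum, ← Nat.cast_smul_eq_nsmul ℝ]
    push_cast; rfl
  rw [h3, smul_smul ((2 : ℝ) ^ D)⁻¹ ((2 : ℝ) ^ D), inv_mul_cancel₀ (by positivity), one_smul]
  rfl

lemma Mt_congr {s : ℕ} (g : Cube D → E) {x y : Cube D} (h : agree s x y) : Mt s g x = Mt s g y := by
  simp only [Mt, glue_of_agree h]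

lemma Mt_congr_fun {s : ℕ} {g h : Cube D → E} (x : Cube D) (H : ∀ y, agree s y x → g y = h y) :
    Mt s g x = Mt s h x := by
  unfold Mt
  exact avc_congr fun x' => H _ (agree_glue s x x')

lemma Mt_add (s : ℕ) (g h : Cube D → E) (x : Cube D) :
    Mt s (fun x => g x + h x) x = Mt s g x + Mt s h x := avc_add _ _
lemma Mt_sub (s : ℕ) (g h : Cube D → E) (x : Cube D) :
    Mt s (fun x => g x - h x) x = Mt s g x - Mt s h x := avc_sub _ _
lemma Mt_const (s : ℕ) (a : E) (x : Cube D) : Mt s (fun _ => a) x = a := avc_const a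
lemma Mt_sum {ι : Type*} (r : Finset ι) (s : ℕ) (g : ι → Cube D → E) (x : Cube D) :
    Mt s (fun x => ∑ i ∈ r, g i x) x = ∑ i ∈ r, Mt s (g i) x := avc_sum _ _
lemma Mt_nonneg {g : Cube D → ℝ} (s : ℕ) (H : ∀ x, 0 ≤ g x) (x : Cube D) : 0 ≤ Mt s g x :=
  avc_nonneg fun _ => H _
lemma Mt_mono {g h : Cube D → ℝ} (s : ℕ) (H : ∀ x, g x ≤ h x) (x : Cube D) :
    Mt s g x ≤ Mt s h x := avc_mono fun _ => H _
lemma Mt_norm_le {F : Type*} [NormedAddCommGroup F] [NormedSpace ℝ F] (s : ℕ) (g : Cube D → F)
    (x : Cube D) : ‖Mt s g x‖ ≤ Mt s (fun x => ‖g x‖) x := avc_norm_le _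

/-- functions of the first `s` digits can be taken out -/
lemma Mt_smul_left {s : ℕ} {h : Cube D → ℝ} (hh : ∀ x y, agree s x y → h x = h y)
    (g : Cube D → E) (x : Cube D) : Mt s (fun x => h x • g x) x = h x • Mt s g x := by
  unfold Mt
  rw [← avc_smul]
  exact avc_congr fun x' => by beta_reduce; rw [hh _ _ (agree_glue s x x')]
lemma Mt_mul_left {s : ℕ} {h : Cube D → ℝ} (hh : ∀ x y, agree s x y → h x = h y)
    (g : Cube D → ℝ) (x : Cube D) : Mt s (fun x => h x * g x) x = h x * Mt s g x :=
  Mt_smul_left hh g x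
lemma Mt_mul_left_complex {s : ℕ} {h : Cube D → ℂ} (hh : ∀ x y, agree s x y → h x = h y)
    (g : Cube D → ℂ) (x : Cube D) : Mt s (fun x => h x * g x) x = h x * Mt s g x := by
  unfold Mt avc
  rw [mul_smul_comm, Finset.mul_sum]
  congr 1
  exact Finset.sum_congr rfl fun x' _ => by beta_reduce; rw [hh _ _ (agree_glue s x x')]

lemma Mt_full {s : ℕ} (hs : D ≤ s) (g : Cube D → E) (x : Cube D) : Mt s g x = g x := by
  unfold Mt
  simp only [glue_full hs, avc_const]
lemma Mt_zero (g : Cube D → E) (x : Cube D) : Mt 0 g x = avc g := by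
  unfold Mt
  simp only [glue_zero]

lemma Mt_of_agree {s : ℕ} {g : Cube D → E} (hg : ∀ x y, agree s x y → g x = g y) (x : Cube D) :
    Mt s g x = g x := by
  rw [Mt_congr_fun (h := fun _ => g x) x (fun y hy => hg _ _ hy), Mt_const]

lemma Mt_Mt {s s' : ℕ} (h : s ≤ s') (g : Cube D → E) (x : Cube D) :
    Mt s (Mt s' g) x = Mt s g x := by
  have h1 : ∀ x', Mt s' g (glue s x x') = Mt s' (fun y => g (glue s x y)) x' := by
    intro x'
    unfold Mt
    exact avc_congr fun x'' => by rw [glue_glue h]
  change avc (fun x' => Mt s' g (glue s x x')) = avc (fun y => g (glue s x y))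
  rw [avc_congr h1]
  exact avc_Mt s' _

/-- integration by conditioning: `E[h g] = E[h M_s g]` for `h` depending on the first `s` digits -/
lemma avc_mul_Mt {s : ℕ} {h : Cube D → ℝ} (hh : ∀ x y, agree s x y → h x = h y)
    (g : Cube D → ℝ) : avc (fun x => h x * Mt s g x) = avc (fun x => h x * g x) := by
  rw [← avc_Mt s (fun x => h x * g x)]
  exact avc_congr fun x => (Mt_mul_left hh g x).symm

/-- the involution swapping digit `s` of two points -/
lemma avc_setb {s : ℕ} (hs : s < D) (g : Cube D → E) :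
    avc g = avc (fun x => (1 / 2 : ℝ) • (g (setb s true x) + g (setb s false x))) := by
  have inv : Function.Involutive (fun x : Cube D => setb s (!x ⟨s, hs⟩) x) := by
    intro x
    funext i
    by_cases h : (i : ℕ) = s
    · have : i = ⟨s, hs⟩ := Fin.ext h
      subst this
      simp [setb]
    · simp [setb, h]
  have h1 : avc (fun x => g (setb s (!x ⟨s, hs⟩) x)) = avc g := by
    unfold avc
    congr 1
    exact Equiv.sum_comp inv.toPerm g
  have h2 : ∀ x : Cube D, g (setb s true x) + g (setb s false x) =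
      g x + g (setb s (!x ⟨s, hs⟩) x) := by
    intro x
    have h3 : setb s (x ⟨s, hs⟩) x = x := by
      funext i
      by_cases h : (i : ℕ) = s
      · have : i = ⟨s, hs⟩ := Fin.ext h
        subst this
        simp [setb]
      · simp [setb, h]
    cases hx : x ⟨s, hs⟩
    · rw [hx] at h3
      rw [h3, add_comm]; rfl
    · rw [hx] at h3
      rw [h3]; rfl
  rw [avc_smul]
  simp only [h2]
  rw [avc_add, h1, ← two_smul ℝ, smul_smul]
  norm_num

lemma Mt_succ {s : ℕ} (hs : s < D) (g : Cube D → E) (x : Cube D) :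
    Mt s g x = (1 / 2 : ℝ) • (Mt (s + 1) g (setb s true x) + Mt (s + 1) g (setb s false x)) := by
  unfold Mt
  simp only [setb_glue_succ]
  rw [avc_setb hs, ← avc_add, ← avc_smul]

end avg

end Disc32
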