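import Pool.Agent.Work.Disc32.Cube

/-!
# Definitions for the transfer theorem
-/

namespace Disc32

open Finset

variable {D : ℕ}

/-- `F = Left(x_{<s}, z) + Right(x, z_{<t})` -/
def Split {E : Type*} [Add E] (F : Cube D → Cube D → E) (s t : ℕ) : Prop :=
  ∀ x x' z z', agree s x x' → agree t z z' → F x z + F x' z' = F x' z + F x z'

/-- mixed second difference in the digits `x_s`, `z_t` -/
def DD (Φ : Cube D → Cube D → ℝ) (s t : ℕ) (x z : Cube D) : ℝ :=
  Φ (setb s true x) (setb t true z) - Φ (setb s true x) (setb t false z)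
    - Φ (setb s false x) (setb t true z) + Φ (setb s false x) (setb t false z)

section

variable {G : Type*} [AddCommGroup G] [DecidableEq G]

/-- indicator of `S` -/
def ind (S : Finset G) (w : G) : ℝ := if w ∈ S then 1 else 0

/-- the kernel `K(g) = |{w ∈ S : w + g ∈ S}| / |S|` -/
noncomputable def KK (S : Finset G) (g : G) : ℝ := (S.card : ℝ)⁻¹ * ∑ w ∈ S, ind S (w + g)

/-- `u_s(x_{<s}, z, w)` -/
def uu (S : Finset G) (F : Cube D → Cube D → G) (s : ℕ) (x z : Cube D) (w : G) : ℝ :=
  ind S (w - F (cut s x) z)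

/-- `v_s(x, z_{<t}, w)` -/
def vv (S : Finset G) (F : Cube D → Cube D → G) (s : ℕ) (x z : Cube D) (w : G) : ℝ :=
  ind S (w + (F x z - F (cut s x) z))

/-- average of `u_s` over the digits of `z` from `t` on -/
noncomputable def aa (S : Finset G) (F : Cube D → Cube D → G) (s t : ℕ) (x z : Cube D) (w : G) : ℝ :=
  Mt t (fun z' => uu S F s x z' w) z

/-- average of `v_s` over the digits of `x` from `r` on -/
noncomputable def bb (S : Finset G) (F : Cube D → Cube D → G) (s r : ℕ) (x z : Cube D) (w : G) : ℝ :=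
  Mt r (fun x' => vv S F s x' z w) x

/-- the phase `exp(i θ Φ(x^r, z))` -/
noncomputable def Lam (θ : ℝ) (Φ : Cube D → Cube D → ℝ) (r : ℕ) (x z : Cube D) : ℂ :=
  Complex.exp (Complex.I * ((θ * Φ (cut r x) z : ℝ) : ℂ))

/-- `M^z_t (u_s Λ_r)` -/
noncomputable def pp (S : Finset G) (F : Cube D → Cube D → G) (θ : ℝ) (Φ : Cube D → Cube D → ℝ)
    (s r t : ℕ) (x z : Cube D) (w : G) : ℂ :=
  Mt t (fun z' => uu S F s x z' w • Lam θ Φ r x z') z

variable [Fintype G]

/-- the total average over `x, z, w`, normalised so that `1_S(w)` has mean one -/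
noncomputable def EE (S : Finset G) (g : Cube D → Cube D → G → ℝ) : ℝ :=
  (S.card : ℝ)⁻¹ * ∑ w, avc (fun x => avc (fun z => g x z w))

/-- the energy before the step at the interface `(s, ν - s)` -/
noncomputable def En (S : Finset G) (F : Cube D → Cube D → G) (θ : ℝ) (Φ : Cube D → Cube D → ℝ)
    (ν s : ℕ) : ℝ :=
  EE S (fun x z w => bb S F s s x z w * ‖pp S F θ Φ s s (ν - s + 1) x z w‖ ^ 2
    / aa S F s (ν - s + 1) x z w)

/-- the energy after the step at the interface `(s, ν - s)` -/
noncomputable def En' (S : Finset G) (F : Cube D → Cube D → G) (θ : ℝ) (Φ : Cube D → Cube D → ℝ)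
    (ν s : ℕ) : ℝ :=
  EE S (fun x z w => bb S F s (s + 1) x z w * ‖pp S F θ Φ s (s + 1) (ν - s) x z w‖ ^ 2
    / aa S F s (ν - s) x z w)

/-- the `z`-bias at the interface `(s, t)` -/
noncomputable def betaz (S : Finset G) (F : Cube D → Cube D → G) (s t : ℕ) : ℝ :=
  EE S (fun x z w => bb S F s s x z w * (Mt t (fun z' => sg t z' * uu S F s x z' w) z) ^ 2
    / aa S F s t x z w)

/-- the `x`-bias at the interface `(s, t)` -/
noncomputable def betax (S : Finset G) (F : Cube D → Cube D → G) (s t : ℕ) : ℝ :=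
  EE S (fun x z w => aa S F s t x z w * (Mt s (fun x' => sg s x' * vv S F s x' z w) x) ^ 2
    / bb S F s s x z w)

end

/-! ### blocks and freezing -/

/-- the digits at multiples of `m` are taken from `xh`, the others from `f` -/
def join (m : ℕ) (xh : Cube D) (f : Cube (m * D)) : Cube (m * D) := fun i =>
  if m ∣ (i : ℕ) then xh ⟨(i : ℕ) / m, Nat.div_lt_of_lt_mul i.2⟩ else f i

/-- the triangle `(1 - |F|/τ)_+` -/
noncomputable def tri (τ F : ℝ) : ℝ := max 0 (1 - |F| / τ)

end Disc32
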