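import Pool.Agent.Work.Disc32.Defs
import Pool.Agent.Work.MP_d500f7_co.YId
import Pool.Agent.Work.MP_d500f7_co.Tilt2
import Pool.Agent.Work.MP_d500f7_co.Limit

/-!
# Definitions for the discrepancy half

`emb x z y` is the point of `Om L` with the digits `x`, `z`, `y` of the three coordinates
(`0 = x`, `1 = z`, `2 = y`).  `Fn u m n ν` is the staircase truncation of `G_l`, `l = n - m ν`.
-/

namespace Disc32

open Finset Disc3

variable {L : ℕ}

/-- the point with coordinates `x`, `z`, `y` -/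
def emb (x z y : Cube L) : Om L := ![x, z, y]

/-- the staircase truncation of `G_l`, `l = n - m ν` -/
noncomputable def Fn (f : Om L → ℝ) (m n ν : ℕ) (ω : Om L) : ℝ :=
  Gd f 0 L (n - m * ν) ω
  + ∑ s ∈ range (ν + 1), (Gd f (m * (s + 1)) (m * (ν + 1 - s)) (n - m * ν) ω
      - Gd f (m * s) (m * (ν + 1 - s)) (n - m * ν) ω)
  + (Gd f L 0 (n - m * ν) ω - Gd f (m * (ν + 1)) 0 (n - m * ν) ω)

/-- the tilt at the digits `l ≡ n (mod m)`, `l ≤ n` only -/
noncomputable def TT (lam : ℝ) (f : Om L → ℝ) (m n l : ℕ) (ω : Om L) : ℝ :=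
  if l ≤ n ∧ m ∣ n - l then Real.tanh (lam * Gd f L L l ω) else 0

/-- partial products of the density -/
noncomputable def rhoR (lam : ℝ) (f : Om L → ℝ) (m n k : ℕ) (ω : Om L) : ℝ :=
  ∏ l ∈ range k, (1 + TT lam f m n l ω * dg 2 l ω)

/-- the tilted probability weight -/
noncomputable def PsiR (lam : ℝ) (f : Om L → ℝ) (m n : ℕ) (ω : Om L) : ℝ :=
  Pw L ω * rhoR lam f m n L ω

/-- indicator that all boxes at the levels `(m s, m (ν + 1 - s), n - m ν)` are empty -/
noncomputable def II {N : ℕ} (u : Fin N → Fin 3 → ℝ) (m n ν : ℕ) (ω : Om L) : ℝ :=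
  ∏ s ∈ range (ν + 2), em u (m * s) (m * (ν + 1 - s)) (n - m * ν) ω

end Disc32
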