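import Pool.Agent.Work.Disc32.Defs

/-!
# The Gibbs inequality for weights and the emptiness sum (J9, helper49)
-/

namespace Disc32

open Finset

variable {D : ℕ}

lemma empty_avc2_mono {g h : Cube D → Cube D → ℝ} (H : ∀ x z, g x z ≤ h x z) :
    avc (fun x => avc (fun z => g x z)) ≤ avc (fun x => avc (fun z => h x z)) :=
  avc_mono fun x => avc_mono fun z => H x z

lemma empty_avc2_nonneg {g : Cube D → Cube D → ℝ} (H : ∀ x z, 0 ≤ g x z) :
    0 ≤ avc (fun x => avc (fun z => g x z)) :=
  avc_nonneg fun x => avc_nonneg fun z => H x z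

lemma empty_avc2_add (g h : Cube D → Cube D → ℝ) :
    avc (fun x => avc (fun z => g x z + h x z)) =
      avc (fun x => avc (fun z => g x z)) + avc (fun x => avc (fun z => h x z)) := by
  rw [← avc_add]
  exact avc_congr fun x => avc_add _ _

lemma empty_avc2_mul (a : ℝ) (g : Cube D → Cube D → ℝ) :
    avc (fun x => avc (fun z => a * g x z)) = a * avc (fun x => avc (fun z => g x z)) := by
  rw [← avc_mul_left]
  exact avc_congr fun x => avc_mul_left _ _

/-- a nonnegative function with mean zero vanishes -/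
lemma empty_zero {g : Cube D → ℝ} (h : ∀ x, 0 ≤ g x) (h0 : avc g = 0) (x : Cube D) : g x = 0 := by
  rw [avc_real] at h0
  have h1 : ∑ x, g x = 0 := by
    rcases mul_eq_zero.1 h0 with h2 | h2
    · exact absurd h2 (by positivity)
    · exact h2
  exact (Finset.sum_eq_zero_iff_of_nonneg fun x _ => h x).1 h1 x (Finset.mem_univ x)

/-- entropy inequality for a weight with values in `[0,1]` -/
theorem gibbs_weight {W g : Cube D → Cube D → ℝ} (h0 : ∀ x z, 0 ≤ W x z) (h1 : ∀ x z, W x z ≤ 1)
    {A : ℝ} (hA : avc (fun x => avc (fun z => Real.exp (g x z))) ≤ A) :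
    avc (fun x => avc (fun z => W x z * g x z)) ≤
      Real.negMulLog (avc (fun x => avc (fun z => W x z)))
        + avc (fun x => avc (fun z => W x z)) * Real.log A := by
  set Z := avc (fun x => avc (fun z => W x z)) with hZ
  have hZ0 : 0 ≤ Z := empty_avc2_nonneg h0
  rcases hZ0.eq_or_lt with hz | hz
  · -- the weight vanishes
    have hW : ∀ x z, W x z = 0 := by
      intro x z
      have h2 := empty_zero (g := fun x => avc (fun z => W x z)) (fun x => avc_nonneg fun z => h0 x z)
        hz.symm x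
      exact empty_zero (fun z => h0 x z) h2 z
    have h3 : avc (fun x => avc (fun z => W x z * g x z)) = 0 := by
      have : (fun x => avc (fun z => W x z * g x z)) = fun _ : Cube D => (0 : ℝ) := by
        funext x
        have : (fun z => W x z * g x z) = fun _ : Cube D => (0 : ℝ) := by
          funext z; rw [hW]; ring
        rw [this, avc_const]
      rw [this, avc_const]
    rw [h3, ← hz]
    simp
  · have hE : 0 < avc (fun x => avc (fun z => Real.exp (g x z))) :=
      avc_pos fun x => avc_pos fun z => Real.exp_pos _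
    have hA0 : 0 < A := hE.trans_le hA
    set c := A / Z with hc
    have hc0 : 0 < c := div_pos hA0 hz
    have key : ∀ x z, W x z * g x z ≤ Real.log c * W x z + (c⁻¹ * Real.exp (g x z) + -1 * W x z) := by
      intro x z
      have h2 : g x z - Real.log c ≤ Real.exp (g x z) / c - 1 := by
        have h3 := Real.log_le_sub_one_of_pos (div_pos (Real.exp_pos (g x z)) hc0)
        rwa [Real.log_div (Real.exp_pos _).ne' hc0.ne', Real.log_exp] at h3
      have h4 : W x z * (g x z - Real.log c) ≤ W x z * (Real.exp (g x z) / c - 1) :=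
        mul_le_mul_of_nonneg_left h2 (h0 x z)
      have h5 : W x z * (Real.exp (g x z) / c) ≤ 1 * (Real.exp (g x z) / c) :=
        mul_le_mul_of_nonneg_right (h1 x z) (div_pos (Real.exp_pos _) hc0).le
      have h6 : Real.exp (g x z) / c = c⁻¹ * Real.exp (g x z) := by ring
      rw [← h6]
      linarith
    have h2 := empty_avc2_mono key
    rw [empty_avc2_add, empty_avc2_add, empty_avc2_mul, empty_avc2_mul, empty_avc2_mul, ← hZ] at h2
    have h3 : c⁻¹ * avc (fun x => avc (fun z => Real.exp (g x z))) ≤ Z := by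
      calc c⁻¹ * avc (fun x => avc (fun z => Real.exp (g x z))) ≤ c⁻¹ * A :=
            mul_le_mul_of_nonneg_left hA (inv_pos.2 hc0).le
        _ = Z := by rw [hc]; field_simp
    have h4 : Real.log c * Z = Real.negMulLog Z + Z * Real.log A := by
      rw [hc, Real.log_div hA0.ne' hz.ne', Real.negMulLog]
      ring
    linarith

/-- the exponential moment, one fixed `z` -/
lemma empty_prod {m ν : ℕ} {e : ℕ → Cube D → Cube D → ℝ}
    (he : ∀ s x z, e s x z = 0 ∨ e s x z = 1)
    (hem : ∀ s ≤ ν, ∀ x x' z, agree (m * s) x x' → e s x z = e s x' z) {ε : ℝ} (hε : 0 ≤ ε)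
    (hsp : ∀ s, 1 ≤ s → s ≤ ν → ∀ x z, Mt (m * (s - 1)) (fun x' => 1 - e s x' z) x ≤ ε)
    (z : Cube D) : ∀ j ≤ ν, avc (fun x => ∏ i ∈ range j, (1 + 2 * (1 - e (i + 1) x z))) ≤
      (1 + 2 * ε) ^ j := by
  intro j
  induction j with
  | zero => intro _; simp [avc_const]
  | succ j ih =>
    intro hj
    have hj' : j ≤ ν := by omega
    have hnn : ∀ i x, 0 ≤ 1 + 2 * (1 - e i x z) := fun i x => by
      rcases he i x z with h | h <;> rw [h] <;> norm_num
    have hdep : ∀ x y : Cube D, agree (m * j) x y →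
        ∏ i ∈ range j, (1 + 2 * (1 - e (i + 1) x z)) =
          ∏ i ∈ range j, (1 + 2 * (1 - e (i + 1) y z)) := by
      intro x y hxy
      refine Finset.prod_congr rfl fun i hi => ?_
      have hi' : i + 1 ≤ j := Finset.mem_range.1 hi
      rw [hem (i + 1) (by omega) x y z (agree_mono (Nat.mul_le_mul_left m hi') hxy)]
    have h1 : avc (fun x => ∏ i ∈ range (j + 1), (1 + 2 * (1 - e (i + 1) x z))) =
        avc (fun x => (∏ i ∈ range j, (1 + 2 * (1 - e (i + 1) x z))) *
          Mt (m * j) (fun x => 1 + 2 * (1 - e (j + 1) x z)) x) := by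
      rw [avc_mul_Mt hdep]
      exact avc_congr fun x => Finset.prod_range_succ _ _
    have h2 : ∀ x, Mt (m * j) (fun x => 1 + 2 * (1 - e (j + 1) x z)) x ≤ 1 + 2 * ε := by
      intro x
      have h3 := hsp (j + 1) (by omega) hj x z
      rw [Nat.add_sub_cancel] at h3
      have h4 : Mt (m * j) (fun x => 1 + 2 * (1 - e (j + 1) x z)) x =
          1 + 2 * Mt (m * j) (fun x' => 1 - e (j + 1) x' z) x := by
        rw [Mt_add, Mt_const]
        congr 1
        exact avc_mul_left _ _
      rw [h4]
      linarith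
    rw [h1]
    calc avc (fun x => (∏ i ∈ range j, (1 + 2 * (1 - e (i + 1) x z))) *
          Mt (m * j) (fun x => 1 + 2 * (1 - e (j + 1) x z)) x)
        ≤ avc (fun x => (∏ i ∈ range j, (1 + 2 * (1 - e (i + 1) x z))) * (1 + 2 * ε)) :=
          avc_mono fun x => mul_le_mul_of_nonneg_left (h2 x)
            (Finset.prod_nonneg fun i _ => hnn (i + 1) x)
      _ = avc (fun x => ∏ i ∈ range j, (1 + 2 * (1 - e (i + 1) x z))) * (1 + 2 * ε) :=
          avc_mul_right _ _
      _ ≤ (1 + 2 * ε) ^ j * (1 + 2 * ε) := mul_le_mul_of_nonneg_right (ih hj') (by linarith)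
      _ = (1 + 2 * ε) ^ (j + 1) := (pow_succ _ _).symm

theorem empty_sum {m ν : ℕ} {W : Cube D → Cube D → ℝ} (h0 : ∀ x z, 0 ≤ W x z)
    (h1 : ∀ x z, W x z ≤ 1) {e : ℕ → Cube D → Cube D → ℝ}
    (he : ∀ s x z, e s x z = 0 ∨ e s x z = 1)
    (hem : ∀ s ≤ ν, ∀ x x' z, agree (m * s) x x' → e s x z = e s x' z) {ε : ℝ} (hε : 0 ≤ ε)
    (hsp : ∀ s, 1 ≤ s → s ≤ ν → ∀ x z, Mt (m * (s - 1)) (fun x' => 1 - e s x' z) x ≤ ε) :
    ∑ s ∈ range (ν + 1), avc (fun x => avc (fun z => W x z * (1 - e s x z))) ≤
      Real.negMulLog (avc (fun x => avc (fun z => W x z)))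
        + avc (fun x => avc (fun z => W x z)) * (2 + 2 * ε * ν) := by
  set Z := avc (fun x => avc (fun z => W x z)) with hZ
  have hZ0 : 0 ≤ Z := empty_avc2_nonneg h0
  -- the first term
  have hfirst : avc (fun x => avc (fun z => W x z * (1 - e 0 x z))) ≤ Z := by
    refine empty_avc2_mono fun x z => ?_
    have := h0 x z
    rcases he 0 x z with h | h <;> rw [h] <;> linarith
  -- the exponential moment
  have hA : avc (fun x => avc (fun z => Real.exp (∑ i ∈ range ν, (1 - e (i + 1) x z)))) ≤
      (1 + 2 * ε) ^ ν := by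
    rw [avc_comm]
    have h2 : ∀ z : Cube D, avc (fun x => Real.exp (∑ i ∈ range ν, (1 - e (i + 1) x z))) ≤
        (1 + 2 * ε) ^ ν := by
      intro z
      refine le_trans (avc_mono fun x => ?_) (empty_prod he hem hε hsp z ν le_rfl)
      rw [Real.exp_sum]
      refine Finset.prod_le_prod (fun i _ => (Real.exp_pos _).le) fun i _ => ?_
      rcases he (i + 1) x z with h | h
      · rw [h]
        have := Real.exp_one_lt_d9
        norm_num
        linarith
      · rw [h]; norm_num
    calc _ ≤ avc (fun _ : Cube D => (1 + 2 * ε) ^ ν) := avc_mono h2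
      _ = _ := avc_const _
  have hG := gibbs_weight h0 h1 hA
  have hlog : Real.log ((1 + 2 * ε) ^ ν) ≤ 2 * ε * ν := by
    rw [Real.log_pow]
    have h3 := Real.log_le_sub_one_of_pos (show 0 < 1 + 2 * ε by linarith)
    have h4 : (0 : ℝ) ≤ ν := Nat.cast_nonneg ν
    nlinarith
  have hsum : ∑ s ∈ range (ν + 1), avc (fun x => avc (fun z => W x z * (1 - e s x z))) =
      avc (fun x => avc (fun z => W x z * ∑ i ∈ range ν, (1 - e (i + 1) x z))) +
        avc (fun x => avc (fun z => W x z * (1 - e 0 x z))) := by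
    rw [Finset.sum_range_succ']
    congr 1
    rw [← avc_sum]
    refine avc_congr fun x => ?_
    rw [← avc_sum]
    refine avc_congr fun z => ?_
    rw [Finset.mul_sum]
  rw [hsum]
  have h5 : Z * Real.log ((1 + 2 * ε) ^ ν) ≤ Z * (2 * ε * ν) := mul_le_mul_of_nonneg_left hlog hZ0
  rw [← hZ] at hG
  linarith

end Disc32
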