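import Pool.Agent.Work.Disc32.DefsB

/-!
# Structure of the staircase truncation
-/

namespace Disc32

open Finset Disc3

variable {L : ℕ}

/-! ### products of uniform conditional expectations -/

/-- take the digits below `v` from `a` -/
def FnAlg_sw (v : Fin 3 → ℕ) (a ω : Om L) : Om L := fun c i => if (i : ℕ) < v c then a c i else ω c i

lemma FnAlg_rel_sw (v : Fin 3 → ℕ) (a ω : Om L) : rel v a (FnAlg_sw v a ω) := by
  intro c i hi
  simp only [FnAlg_sw]
  rw [if_pos hi]

lemma FnAlg_sw_sw {v : Fin 3 → ℕ} {a ω : Om L} (b : Om L) (h : rel v a ω) :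
    FnAlg_sw v a (FnAlg_sw v b ω) = ω := by
  funext c i
  simp only [FnAlg_sw]
  by_cases hi : (i : ℕ) < v c
  · rw [if_pos hi]
    exact h c i hi
  · rw [if_neg hi, if_neg hi]

lemma FnAlg_meas_CE {v1 v2 : Fin 3 → ℕ} {H : Om L → ℝ} (hH : Meas v2 H) :
    Meas (fun c => min (v1 c) (v2 c)) (CE (Pw L) v1 H) := by
  intro a b hab
  have key : ∀ K : Om L → ℝ, Meas v2 K →
      ∑ ω' ∈ univ.filter (fun ω' => rel v1 a ω'), Pw L ω' * K ω' =
      ∑ ω' ∈ univ.filter (fun ω' => rel v1 b ω'), Pw L ω' * K ω' := by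
    intro K hK
    refine Finset.sum_nbij' (i := FnAlg_sw v1 b) (j := FnAlg_sw v1 a) ?_ ?_ ?_ ?_ ?_
    · intro ω _
      rw [mem_filter]
      exact ⟨mem_univ _, FnAlg_rel_sw v1 b ω⟩
    · intro ω _
      rw [mem_filter]
      exact ⟨mem_univ _, FnAlg_rel_sw v1 a ω⟩
    · intro ω hω
      rw [mem_filter] at hω
      exact FnAlg_sw_sw b hω.2
    · intro ω hω
      rw [mem_filter] at hω
      exact FnAlg_sw_sw a hω.2
    · intro ω hω
      rw [mem_filter] at hω
      have h1 : rel v2 ω (FnAlg_sw v1 b ω) := by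
        intro c i hi
        simp only [FnAlg_sw]
        by_cases h2 : (i : ℕ) < v1 c
        · rw [if_pos h2, ← hω.2 c i h2]
          exact hab c i (lt_min h2 hi)
        · rw [if_neg h2]
      rw [hK _ _ h1]
      rfl
  unfold CE
  have k1 := key H hH
  have k2 := key (fun _ => 1) (meas_const v2 1)
  simp only [mul_one] at k2
  rw [k1, k2]

lemma FnAlg_CE_congr {v v' : Fin 3 → ℕ} (h : ∀ c, min (v c) L = min (v' c) L) (w g : Om L → ℝ)
    (ω : Om L) : CE w v g ω = CE w v' g ω := by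
  have hf : univ.filter (fun ω' => rel v ω ω') = univ.filter (fun ω' => rel v' ω ω') := by
    ext ω'
    simp only [mem_filter, mem_univ, true_and]
    constructor
    · intro h1 c i hi
      apply h1 c i
      have h2 := h c
      have h3 := i.2
      omega
    · intro h1 c i hi
      apply h1 c i
      have h2 := h c
      have h3 := i.2
      omega
  unfold CE
  rw [hf]

lemma FnAlg_CE_CE {v1 v2 v3 : Fin 3 → ℕ} (h : ∀ c, min (min (v1 c) (v2 c)) L = min (v3 c) L)
    (g : Om L → ℝ) (ω : Om L) :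
    CE (Pw L) v1 (CE (Pw L) v2 g) ω = CE (Pw L) v3 g ω := by
  rw [← FnAlg_CE_congr (v := fun c => min (v1 c) (v2 c)) h (Pw L) g ω]
  symm
  refine CE_unique Pw_pos (FnAlg_meas_CE (meas_CE (Pw L) v2 g)) (fun k hk => ?_) ω
  rw [Ex_mul_CE Pw_pos (hk.mono (fun c => min_le_left _ _)),
    Ex_mul_CE Pw_pos (hk.mono (fun c => min_le_right _ _))]

/-! ### dependence of `Gd` on the digits -/

lemma FnAlg_Gd_congr (f : Om L → ℝ) {a b l : ℕ} {x x' z z' y y' : Cube L} (hx : agree a x x')
    (hz : agree b z z') (hy : agree l y y') :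
    Gd f a b l (emb x z y) = Gd f a b l (emb x' z' y') := by
  apply meas_CE
  intro c i hi
  fin_cases c
  · exact hx i hi
  · exact hz i hi
  · exact hy i hi

lemma FnAlg_Gd_x (f : Om L → ℝ) {a b l : ℕ} {x x' : Cube L} (hx : agree a x x') (z y : Cube L) :
    Gd f a b l (emb x z y) = Gd f a b l (emb x' z y) :=
  FnAlg_Gd_congr f hx (agree_refl _ _) (agree_refl _ _)

lemma FnAlg_Gd_z (f : Om L → ℝ) {a b l : ℕ} {z z' : Cube L} (hz : agree b z z') (x y : Cube L) :
    Gd f a b l (emb x z y) = Gd f a b l (emb x z' y) :=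
  FnAlg_Gd_congr f (agree_refl _ _) hz (agree_refl _ _)

theorem Fn_split (f : Om L → ℝ) {m n ν s t : ℕ} (h : ν + 1 ≤ s + t) (y : Cube L) :
    Split (fun x z => Fn f m n ν (emb x z y)) (m * s) (m * t) := by
  intro x x' z z' hx hz
  simp only [Fn]
  -- one piece
  have key : ∀ a b : ℕ, (a ≤ m * s ∨ b ≤ m * t) →
      Gd f a b (n - m * ν) (emb x z y) + Gd f a b (n - m * ν) (emb x' z' y) =
        Gd f a b (n - m * ν) (emb x' z y) + Gd f a b (n - m * ν) (emb x z' y) := by
    rintro a b (hab | hab)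
    · rw [FnAlg_Gd_x f (agree_mono hab hx) z y, FnAlg_Gd_x f (agree_mono hab hx) z' y]
    · rw [FnAlg_Gd_z f (agree_mono hab hz) x y, FnAlg_Gd_z f (agree_mono hab hz) x' y]
      ring
  have h1 := key 0 L (Or.inl (Nat.zero_le _))
  have h2 := key L 0 (Or.inr (Nat.zero_le _))
  have h3 := key (m * (ν + 1)) 0 (Or.inr (Nat.zero_le _))
  have h4 : ∀ i ∈ range (ν + 1),
      (Gd f (m * (i + 1)) (m * (ν + 1 - i)) (n - m * ν) (emb x z y)
        - Gd f (m * i) (m * (ν + 1 - i)) (n - m * ν) (emb x z y))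
      + (Gd f (m * (i + 1)) (m * (ν + 1 - i)) (n - m * ν) (emb x' z' y)
        - Gd f (m * i) (m * (ν + 1 - i)) (n - m * ν) (emb x' z' y)) =
      (Gd f (m * (i + 1)) (m * (ν + 1 - i)) (n - m * ν) (emb x' z y)
        - Gd f (m * i) (m * (ν + 1 - i)) (n - m * ν) (emb x' z y))
      + (Gd f (m * (i + 1)) (m * (ν + 1 - i)) (n - m * ν) (emb x z' y)
        - Gd f (m * i) (m * (ν + 1 - i)) (n - m * ν) (emb x z' y)) := by
    intro i _
    have hcase : (m * (i + 1) ≤ m * s ∧ m * i ≤ m * s) ∨ m * (ν + 1 - i) ≤ m * t := by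
      by_cases hi : i + 1 ≤ s
      · left
        exact ⟨Nat.mul_le_mul_left m hi, Nat.mul_le_mul_left m (by omega)⟩
      · right
        exact Nat.mul_le_mul_left m (by omega)
    have k1 := key (m * (i + 1)) (m * (ν + 1 - i)) (hcase.imp (fun h => h.1) id)
    have k2 := key (m * i) (m * (ν + 1 - i)) (hcase.imp (fun h => h.2) id)
    linarith
  have h5 := Finset.sum_congr (rfl : range (ν + 1) = range (ν + 1)) h4
  rw [Finset.sum_add_distrib, Finset.sum_add_distrib] at h5
  linarith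

lemma FnAlg_DD_x {Φ : Cube L → Cube L → ℝ} {s : ℕ}
    (h : ∀ x x' z, agree s x x' → Φ x z = Φ x' z) (t : ℕ) (x z : Cube L) : DD Φ s t x z = 0 := by
  unfold DD
  have h1 : agree s (setb s true x) (setb s false x) :=
    agree_trans (agree_setb le_rfl true x) (agree_symm (agree_setb le_rfl false x))
  rw [h _ _ (setb t true z) h1, h _ _ (setb t false z) h1]
  ring

lemma FnAlg_DD_z {Φ : Cube L → Cube L → ℝ} {t : ℕ}
    (h : ∀ x z z', agree t z z' → Φ x z = Φ x z') (s : ℕ) (x z : Cube L) : DD Φ s t x z = 0 := by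
  unfold DD
  have h1 : agree t (setb t true z) (setb t false z) :=
    agree_trans (agree_setb le_rfl true z) (agree_symm (agree_setb le_rfl false z))
  rw [h (setb s true x) _ _ h1, h (setb s false x) _ _ h1]
  ring

lemma FnAlg_DD_Gd_x (f : Om L → ℝ) {a b l S : ℕ} (h : a ≤ S) (T : ℕ) (x z y : Cube L) :
    DD (fun x z => Gd f a b l (emb x z y)) S T x z = 0 :=
  FnAlg_DD_x (fun _ _ z hx => FnAlg_Gd_x f (agree_mono h hx) z y) T x z

lemma FnAlg_DD_Gd_z (f : Om L → ℝ) {a b l T : ℕ} (h : b ≤ T) (S : ℕ) (x z y : Cube L) :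
    DD (fun x z => Gd f a b l (emb x z y)) S T x z = 0 :=
  FnAlg_DD_z (fun x _ _ hz => FnAlg_Gd_z f (agree_mono h hz) x y) S x z

theorem Fn_DD (f : Om L → ℝ) {m n s t : ℕ} (hm : 0 < m) (x z y : Cube L) :
    DD (fun x z => Fn f m n (s + t) (emb x z y)) (m * s) (m * t) x z =
      DD (fun x z => Gd f (m * (s + 1)) (m * (t + 1)) (n - m * (s + t)) (emb x z y))
        (m * s) (m * t) x z := by
  have _ := hm
  set l := n - m * (s + t) with hl
  have h1 : DD (fun x z => Fn f m n (s + t) (emb x z y)) (m * s) (m * t) x z =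
      DD (fun x z => Gd f 0 L l (emb x z y)) (m * s) (m * t) x z
      + ∑ i ∈ range (s + t + 1),
        (DD (fun x z => Gd f (m * (i + 1)) (m * (s + t + 1 - i)) l (emb x z y)) (m * s) (m * t) x z
        - DD (fun x z => Gd f (m * i) (m * (s + t + 1 - i)) l (emb x z y)) (m * s) (m * t) x z)
      + (DD (fun x z => Gd f L 0 l (emb x z y)) (m * s) (m * t) x z
        - DD (fun x z => Gd f (m * (s + t + 1)) 0 l (emb x z y)) (m * s) (m * t) x z) := by
    unfold DD
    simp only [Fn, ← hl]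
    simp only [Finset.sum_add_distrib, Finset.sum_sub_distrib]
    ring
  rw [h1, FnAlg_DD_Gd_x f (Nat.zero_le _), FnAlg_DD_Gd_z f (Nat.zero_le _),
    FnAlg_DD_Gd_z f (Nat.zero_le _)]
  rw [Finset.sum_eq_single_of_mem s (mem_range.2 (by omega))]
  · rw [FnAlg_DD_Gd_x f (le_refl (m * s)), show s + t + 1 - s = t + 1 by omega]
    ring
  · intro i _ hi
    rcases lt_or_gt_of_ne hi with h2 | h2
    · rw [FnAlg_DD_Gd_x f (Nat.mul_le_mul_left m (by omega : i + 1 ≤ s)),
        FnAlg_DD_Gd_x f (Nat.mul_le_mul_left m h2.le), sub_zero]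
    · rw [FnAlg_DD_Gd_z f (Nat.mul_le_mul_left m (by omega : s + t + 1 - i ≤ t)),
        FnAlg_DD_Gd_z f (Nat.mul_le_mul_left m (by omega : s + t + 1 - i ≤ t)), sub_zero]

/-- `G - F_ν` as a sum of conditional expectations of the non-split parts -/
theorem Gd_sub_Fn (f : Om L → ℝ) {m n ν : ℕ} (hL : m * (ν + 1) ≤ L) (ω : Om L) :
    Gd f L L (n - m * ν) ω - Fn f m n ν ω =
      ∑ s ∈ range (ν + 1), CE (Pw L) ![m * (s + 1), L, L] (fun ω =>
        Gd f L L (n - m * ν) ω - Gd f (m * s) L (n - m * ν) ω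
          - Gd f L (m * (ν + 1 - s)) (n - m * ν) ω
          + Gd f (m * s) (m * (ν + 1 - s)) (n - m * ν) ω) ω
      + (Gd f L L (n - m * ν) ω - Gd f (m * (ν + 1)) L (n - m * ν) ω
          - Gd f L 0 (n - m * ν) ω + Gd f (m * (ν + 1)) 0 (n - m * ν) ω) := by
  set l := n - m * ν with hl
  have hterm : ∀ s ∈ range (ν + 1), CE (Pw L) ![m * (s + 1), L, L] (fun ω =>
        Gd f L L l ω - Gd f (m * s) L l ω - Gd f L (m * (ν + 1 - s)) l ω
          + Gd f (m * s) (m * (ν + 1 - s)) l ω) ω =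
      (Gd f (m * (s + 1)) L l ω - Gd f (m * s) L l ω)
        - (Gd f (m * (s + 1)) (m * (ν + 1 - s)) l ω - Gd f (m * s) (m * (ν + 1 - s)) l ω) := by
    intro s hs
    rw [mem_range] at hs
    have hs1 : m * (s + 1) ≤ L := le_trans (Nat.mul_le_mul_left m (by omega)) hL
    have hss : m * s ≤ m * (s + 1) := Nat.mul_le_mul_left m (by omega)
    have ht1 : m * (ν + 1 - s) ≤ L := le_trans (Nat.mul_le_mul_left m (Nat.sub_le _ _)) hL
    have hG : ∀ a b a' : ℕ, min (min (m * (s + 1)) a) L = min a' L →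
        CE (Pw L) ![m * (s + 1), L, L] (fun ω => Gd f a b l ω) ω = Gd f a' b l ω := by
      intro a b a' h
      have h3 := FnAlg_CE_CE (L := L) (v1 := ![m * (s + 1), L, L]) (v2 := ![a, b, l])
        (v3 := ![a', b, l]) (by
          intro c
          fin_cases c
          · exact h
          · show min (min L b) L = min b L
            omega
          · show min (min L l) L = min l L
            omega) (fun ω' => dg 2 l ω' * f ω') ω
      exact h3
    rw [CE_add, CE_sub, CE_sub, hG L L (m * (s + 1)) (by omega), hG (m * s) L (m * s) (by omega),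
      hG L (m * (ν + 1 - s)) (m * (s + 1)) (by omega),
      hG (m * s) (m * (ν + 1 - s)) (m * s) (by omega)]
    ring
  rw [Finset.sum_congr rfl hterm, Finset.sum_sub_distrib]
  have htel := Finset.sum_range_sub (fun s => Gd f (m * s) L l ω) (ν + 1)
  rw [htel, mul_zero]
  simp only [Fn, ← hl]
  ring

end Disc32
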