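import Pool.Agent.Work.Disc32.Transfer

/-!
# Freezing the digits which are not multiples of `m` (module J7)
-/

namespace Disc32

open Finset

variable {D : ℕ}

/-- the digits of `f` at the multiples of `m` -/
def freezePick (m : ℕ) (hm : 0 < m) (f : Cube (m * D)) : Cube D := fun i =>
  f ⟨m * (i : ℕ), Nat.mul_lt_mul_of_pos_left i.2 hm⟩

lemma freeze_join_pick {m : ℕ} (hm : 0 < m) (xh : Cube D) (f : Cube (m * D)) :
    join m (freezePick m hm f) (join m xh f) = f := by
  funext i
  simp only [join, freezePick]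
  by_cases h : m ∣ (i : ℕ)
  · rw [if_pos h]
    congr 1
    exact Fin.ext (Nat.mul_div_cancel' h)
  · rw [if_neg h, if_neg h]

lemma freeze_pick_join {m : ℕ} (hm : 0 < m) (xh : Cube D) (f : Cube (m * D)) :
    freezePick m hm (join m xh f) = xh := by
  funext i
  simp only [join, freezePick]
  rw [if_pos (Dvd.intro _ rfl)]
  congr 1
  exact Fin.ext (Nat.mul_div_cancel_left _ hm)

theorem avc_join {E : Type*} [AddCommGroup E] [Module ℝ E] {m : ℕ} (hm : 0 < m)
    (g : Cube (m * D) → E) :
    avc (fun f : Cube (m * D) => avc (fun xh : Cube D => g (join m xh f))) = avc g := by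
  have h1 : avc (fun f : Cube (m * D) => avc (fun xh : Cube D => g (join m xh f))) =
      ((2 : ℝ) ^ (m * D))⁻¹ • ((2 : ℝ) ^ D)⁻¹ •
      ∑ p : Cube (m * D) × Cube D, g (join m p.2 p.1) := by
    simp only [avc, Fintype.sum_prod_type, Finset.smul_sum]
  have inv : Function.Involutive
      (fun p : Cube (m * D) × Cube D => (join m p.2 p.1, freezePick m hm p.1)) := by
    rintro ⟨f, xh⟩
    simp only [freeze_join_pick hm, freeze_pick_join hm]
  have h2 : ∑ p : Cube (m * D) × Cube D, g (join m p.2 p.1) =
      ∑ p : Cube (m * D) × Cube D, g p.1 := by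
    have := Equiv.sum_comp inv.toPerm (fun p : Cube (m * D) × Cube D => g p.1)
    simpa using this
  rw [h1, h2]
  have h3 : ∑ p : Cube (m * D) × Cube D, g p.1 = (2 : ℝ) ^ D • ∑ x, g x := by
    rw [Fintype.sum_prod_type]
    simp only [Finset.sum_const, Finset.card_univ, card_cube]
    rw [← Finset.smul_sum, ← Nat.cast_smul_eq_nsmul ℝ]
    push_cast; rfl
  rw [h3, smul_smul ((2 : ℝ) ^ D)⁻¹ ((2 : ℝ) ^ D), inv_mul_cancel₀ (by positivity), one_smul]
  rfl

lemma freeze_agree_join {m s : ℕ} {xh xh' : Cube D} (h : agree s xh xh')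
    (f : Cube (m * D)) : agree (m * s) (join m xh f) (join m xh' f) := by
  intro i hi
  simp only [join]
  by_cases hd : m ∣ (i : ℕ)
  · rw [if_pos hd, if_pos hd]
    exact h _ (Nat.div_lt_of_lt_mul hi)
  · rw [if_neg hd, if_neg hd]

lemma freeze_setb_join {m s : ℕ} (hm : 0 < m) (b : Bool) (xh : Cube D) (f : Cube (m * D)) :
    setb (m * s) b (join m xh f) = join m (setb s b xh) f := by
  funext i
  simp only [join, setb]
  by_cases h1 : (i : ℕ) = m * s
  · have hd : m ∣ (i : ℕ) := ⟨s, h1⟩
    have h2 : (i : ℕ) / m = s := by rw [h1]; exact Nat.mul_div_cancel_left _ hm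
    rw [if_pos h1, if_pos hd, if_pos h2]
  · rw [if_neg h1]
    by_cases hd : m ∣ (i : ℕ)
    · have h2 : (i : ℕ) / m ≠ s := by
        intro h; apply h1; rw [← h]; exact (Nat.mul_div_cancel' hd).symm
      rw [if_pos hd, if_pos hd, if_neg h2]
    · rw [if_neg hd, if_neg hd]

/-- averaging over frozen and free digits in both variables -/
lemma freeze_avc2 {E : Type*} [AddCommGroup E] [Module ℝ E] {m : ℕ} (hm : 0 < m)
    (g : Cube (m * D) → Cube (m * D) → E) :
    avc (fun x => avc (fun z => g x z)) =
      avc (fun f : Cube (m * D) => avc (fun h : Cube (m * D) =>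
        avc (fun xh : Cube D => avc (fun zh : Cube D => g (join m xh f) (join m zh h))))) := by
  rw [← avc_join hm (fun x => avc (fun z => g x z))]
  refine avc_congr fun f => ?_
  rw [avc_comm (fun (h : Cube (m * D)) (xh : Cube D) =>
    avc (fun zh : Cube D => g (join m xh f) (join m zh h)))]
  refine avc_congr fun xh => ?_
  exact (avc_join hm (fun z => g (join m xh f) z)).symm

lemma freeze_negMulLog_avc {D' : ℕ} {g : Cube D' → ℝ} (hg : ∀ x, 0 ≤ g x) :
    avc (fun x => Real.negMulLog (g x)) ≤ Real.negMulLog (avc g) := by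
  have h := Real.concaveOn_negMulLog.le_map_sum (t := (univ : Finset (Cube D')))
    (w := fun _ => ((2 : ℝ) ^ D')⁻¹) (p := g) (fun _ _ => by positivity)
    (by
      rw [Finset.sum_const, Finset.card_univ, card_cube, nsmul_eq_mul]
      push_cast
      exact mul_inv_cancel₀ (by positivity))
    (fun x _ => hg x)
  simp only [smul_eq_mul, ← Finset.mul_sum] at h
  exact h

lemma freeze_KK_nonneg {G : Type*} [AddCommGroup G] [DecidableEq G] (S : Finset G) (g : G) :
    0 ≤ KK S g := by
  unfold KK ind
  refine mul_nonneg (by positivity) (Finset.sum_nonneg fun w _ => ?_)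
  split_ifs <;> norm_num

section

variable {G : Type*} [AddCommGroup G] [DecidableEq G] [Fintype G]

theorem frozen {S : Finset G} (hS : S.Nonempty) {m : ℕ} (hm : 0 < m)
    {F : Cube (m * D) → Cube (m * D) → G} {θ κ : ℝ}
    {Φ : Cube (m * D) → Cube (m * D) → ℝ} {ν : ℕ} (hν : ν < D)
    (hF : ∀ s ≤ ν, Split F (m * s) (m * (ν - s)))
    (hΦ : ∀ s ≤ ν + 1, Split Φ (m * s) (m * (ν + 1 - s)))
    {e : ℕ → Cube (m * D) → Cube (m * D) → ℝ} (he : ∀ s x z, e s x z = 0 ∨ e s x z = 1)
    (hem : ∀ s ≤ ν, ∀ x x' z z', agree (m * s) x x' → agree (m * (ν - s)) z z' →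
      e s x z = e s x' z')
    (htop : ∀ s ≤ ν, ∀ x z, e s x z = 1 → |DD Φ (m * s) (m * (ν - s)) x z| = 4 * κ)
    (hsin : Real.sin (θ * κ) ≠ 0) :
    ‖avc (fun x => avc (fun z => (KK S (F x z) : ℂ) *
        Complex.exp (Complex.I * ((θ * Φ x z : ℝ) : ℂ))))‖ ≤
      (1 / 4 + 4 / (Real.sin (θ * κ) ^ 2 * (ν + 1)) + 2 * Real.sin (θ * κ) ^ 2) *
          avc (fun x => avc (fun z => KK S (F x z)))
        + (72 * Real.negMulLog (avc (fun x => avc (fun z => KK S (F x z))))
          + ∑ s ∈ range (ν + 1), avc (fun x => avc (fun z => KK S (F x z) * (1 - e s x z))))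
          / (ν + 1) := by
  -- the transfer theorem for the free digits
  have key : ∀ f h : Cube (m * D),
      ‖avc (fun xh : Cube D => avc (fun zh : Cube D => (KK S (F (join m xh f) (join m zh h)) : ℂ) *
        Complex.exp (Complex.I * ((θ * Φ (join m xh f) (join m zh h) : ℝ) : ℂ))))‖ ≤
      (1 / 4 + 4 / (Real.sin (θ * κ) ^ 2 * (ν + 1)) + 2 * Real.sin (θ * κ) ^ 2) *
          avc (fun xh : Cube D => avc (fun zh : Cube D => KK S (F (join m xh f) (join m zh h))))
        + (72 * Real.negMulLog
              (avc (fun xh : Cube D => avc (fun zh : Cube D =>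
                KK S (F (join m xh f) (join m zh h)))))
          + ∑ s ∈ range (ν + 1), avc (fun xh : Cube D => avc (fun zh : Cube D =>
              KK S (F (join m xh f) (join m zh h)) * (1 - e s (join m xh f) (join m zh h)))))
          / (ν + 1) := by
    intro f h
    refine transfer (F := fun xh zh => F (join m xh f) (join m zh h))
      (Φ := fun xh zh => Φ (join m xh f) (join m zh h))
      (e := fun s xh zh => e s (join m xh f) (join m zh h)) hS hν ?_ ?_ ?_ ?_ ?_ hsin
    · intro s hs x x' z z' hx hz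
      exact hF s hs _ _ _ _ (freeze_agree_join hx f) (freeze_agree_join hz h)
    · intro s hs x x' z z' hx hz
      exact hΦ s hs _ _ _ _ (freeze_agree_join hx f) (freeze_agree_join hz h)
    · intro s x z
      exact he s _ _
    · intro s hs x x' z z' hx hz
      exact hem s hs _ _ _ _ (freeze_agree_join hx f) (freeze_agree_join hz h)
    · intro s hs x z hxz
      have := htop s hs (join m x f) (join m z h) hxz
      unfold DD at this ⊢
      simp only [freeze_setb_join hm] at this
      exact this
  -- abbreviations for the averages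
  set C : ℝ := 1 / 4 + 4 / (Real.sin (θ * κ) ^ 2 * (ν + 1)) + 2 * Real.sin (θ * κ) ^ 2 with hC
  set Z : Cube (m * D) → Cube (m * D) → ℝ := fun f h =>
    avc (fun xh : Cube D => avc (fun zh : Cube D => KK S (F (join m xh f) (join m zh h)))) with hZ
  set A : ℕ → Cube (m * D) → Cube (m * D) → ℝ := fun s f h =>
    avc (fun xh : Cube D => avc (fun zh : Cube D =>
      KK S (F (join m xh f) (join m zh h)) * (1 - e s (join m xh f) (join m zh h)))) with hA
  have hZ0 : ∀ f h, 0 ≤ Z f h := fun f h =>
    avc_nonneg fun _ => avc_nonneg fun _ => freeze_KK_nonneg S _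
  have eZ : avc (fun x => avc (fun z => KK S (F x z))) = avc (fun f => avc (fun h => Z f h)) :=
    freeze_avc2 hm _
  have eA : ∀ s, avc (fun x => avc (fun z => KK S (F x z) * (1 - e s x z))) =
      avc (fun f => avc (fun h => A s f h)) := fun s => freeze_avc2 hm _
  have hent : avc (fun f => avc (fun h => Real.negMulLog (Z f h))) ≤
      Real.negMulLog (avc (fun f => avc (fun h => Z f h))) := by
    refine le_trans (avc_mono fun f => freeze_negMulLog_avc (hZ0 f)) ?_
    exact freeze_negMulLog_avc (fun f => avc_nonneg (hZ0 f))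
  have hν1 : (0 : ℝ) < (ν : ℝ) + 1 := by positivity
  calc ‖avc (fun x => avc (fun z => (KK S (F x z) : ℂ) *
        Complex.exp (Complex.I * ((θ * Φ x z : ℝ) : ℂ))))‖
      = ‖avc (fun f : Cube (m * D) => avc (fun h : Cube (m * D) =>
        avc (fun xh : Cube D => avc (fun zh : Cube D => (KK S (F (join m xh f) (join m zh h)) : ℂ) *
        Complex.exp (Complex.I * ((θ * Φ (join m xh f) (join m zh h) : ℝ) : ℂ))))))‖ := by
        rw [freeze_avc2 hm]
    _ ≤ avc (fun f : Cube (m * D) => avc (fun h : Cube (m * D) =>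
        ‖avc (fun xh : Cube D => avc (fun zh : Cube D => (KK S (F (join m xh f) (join m zh h)) : ℂ) *
        Complex.exp (Complex.I * ((θ * Φ (join m xh f) (join m zh h) : ℝ) : ℂ))))‖)) :=
        (avc_norm_le _).trans (avc_mono fun f => avc_norm_le _)
    _ ≤ avc (fun f : Cube (m * D) => avc (fun h : Cube (m * D) =>
        C * Z f h + (72 * Real.negMulLog (Z f h) + ∑ s ∈ range (ν + 1), A s f h) * (1 / (ν + 1)))) := by
        refine avc_mono fun f => avc_mono fun h => (key f h).trans (le_of_eq ?_)
        rw [div_eq_mul_one_div]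
    _ = C * avc (fun f => avc (fun h => Z f h)) + (72 * avc (fun f => avc (fun h =>
        Real.negMulLog (Z f h))) + ∑ s ∈ range (ν + 1), avc (fun f => avc (fun h => A s f h)))
          * (1 / (ν + 1)) := by
        simp only [avc_add, avc_mul_left, avc_mul_right, avc_sum]
    _ ≤ C * avc (fun x => avc (fun z => KK S (F x z)))
        + (72 * Real.negMulLog (avc (fun x => avc (fun z => KK S (F x z))))
          + ∑ s ∈ range (ν + 1), avc (fun x => avc (fun z => KK S (F x z) * (1 - e s x z))))
          / (ν + 1) := by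
        rw [eZ, Finset.sum_congr rfl (fun s _ => eA s), mul_one_div]
        gcongr

end

end Disc32
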