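import Pool.Agent.Work.Disc32.Freeze

/-!
# J8: the kernel as a product of triangles, and the frozen transfer theorem for real functions
-/

namespace Disc32

open Finset

variable {D : ℕ}

/-- membership in the interval modulo `Q` -/
theorem kernel_mem {Q R : ℕ} (F : ℤ) (hF : |F| + 2 * (R : ℤ) ≤ Q) {r : ℕ} (hr : r < R) :
    ((r : ZMod Q) + ((F : ℤ) : ZMod Q) ∈ (range R).image (fun r : ℕ => (r : ZMod Q))) ↔
      0 ≤ (r : ℤ) + F ∧ (r : ℤ) + F < R := by
  rw [Finset.mem_image]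
  constructor
  · rintro ⟨r', hr', h⟩
    rw [Finset.mem_range] at hr'
    have h1 : (((r' : ℤ) - (r + F) : ℤ) : ZMod Q) = 0 := by
      push_cast
      rw [h]
      ring
    rw [ZMod.intCast_zmod_eq_zero_iff_dvd] at h1
    have h2 : |(r' : ℤ) - (r + F)| < Q := by
      have h3 := abs_le.1 (show |F| ≤ |F| from le_rfl)
      rw [abs_lt]
      constructor <;> omega
    have h3 := Int.eq_zero_of_abs_lt_dvd h1 h2
    omega
  · rintro ⟨h1, h2⟩
    refine ⟨((r : ℤ) + F).toNat, ?_, ?_⟩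
    · rw [Finset.mem_range]; omega
    · have h3 : ((((r : ℤ) + F).toNat : ℕ) : ℤ) = (r : ℤ) + F := Int.toNat_of_nonneg h1
      have h4 : (((((r : ℤ) + F).toNat : ℕ) : ℤ) : ZMod Q) = (((r : ℤ) + F : ℤ) : ZMod Q) := by
        rw [h3]
      push_cast at h4
      simpa using h4

/-- the cardinality of the overlap -/
theorem kernel_card {R : ℕ} (F : ℤ) :
    ((range R).filter (fun r : ℕ => 0 ≤ (r : ℤ) + F ∧ (r : ℤ) + F < R)).card = R - F.natAbs := by
  rcases le_total 0 F with h | h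
  · have h1 : (range R).filter (fun r : ℕ => 0 ≤ (r : ℤ) + F ∧ (r : ℤ) + F < R) =
        range (R - F.natAbs) := by
      ext r
      rw [Finset.mem_filter, Finset.mem_range, Finset.mem_range]
      omega
    rw [h1, Finset.card_range]
  · have h1 : (range R).filter (fun r : ℕ => 0 ≤ (r : ℤ) + F ∧ (r : ℤ) + F < R) =
        Finset.Ico F.natAbs R := by
      ext r
      rw [Finset.mem_filter, Finset.mem_range, Finset.mem_Ico]
      omega
    rw [h1, Nat.card_Ico]

theorem kernel_inj {Q R : ℕ} (hQ : 2 * R ≤ Q) :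
    Set.InjOn (fun r : ℕ => (r : ZMod Q)) (range R : Set ℕ) := by
  intro a ha b hb h
  rw [Finset.coe_range, Set.mem_Iio] at ha hb
  have h1 := (ZMod.natCast_eq_natCast_iff' a b Q).1 h
  rwa [Nat.mod_eq_of_lt (by omega), Nat.mod_eq_of_lt (by omega)] at h1

theorem kernel_tri {R : ℕ} (hR : 0 < R) (F : ℤ) :
    (R : ℝ)⁻¹ * ((R - F.natAbs : ℕ) : ℝ) = tri R F := by
  have hR0 : (0 : ℝ) < R := by exact_mod_cast hR
  have hn : ((F.natAbs : ℕ) : ℝ) = |(F : ℝ)| := by
    rw [← Int.cast_abs, Int.abs_eq_natAbs]; rfl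
  unfold tri
  rcases le_total F.natAbs R with h | h
  · rw [Nat.cast_sub h, hn]
    have h1 : |(F : ℝ)| ≤ R := by rw [← hn]; exact_mod_cast h
    rw [max_eq_right]
    · field_simp
    · rw [sub_nonneg, div_le_one hR0]; exact h1
  · rw [Nat.sub_eq_zero_of_le h, Nat.cast_zero, mul_zero]
    have h1 : (R : ℝ) ≤ |(F : ℝ)| := by rw [← hn]; exact_mod_cast h
    rw [max_eq_left]
    rw [sub_nonpos, one_le_div hR0]; exact h1

/-- `KK` on `(ZMod Q)^ι` with `S` = the box `{0,…,R-1}^ι` is the product of triangles -/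
theorem KK_prod {ι : Type*} [Fintype ι] [DecidableEq ι] {Q R : ℕ} [NeZero Q] (hR : 0 < R)
    (F : ι → ℤ) (hF : ∀ i, |F i| + 2 * (R : ℤ) ≤ Q) :
    KK (Fintype.piFinset (fun _ : ι => (range R).image (fun r : ℕ => (r : ZMod Q))))
      (fun i => ((F i : ℤ) : ZMod Q)) = ∏ i, tri R (F i) := by
  classical
  set S1 : Finset (ZMod Q) := (range R).image (fun r : ℕ => (r : ZMod Q)) with hS1
  have hind : ∀ w : ι → ZMod Q, ind (Fintype.piFinset (fun _ : ι => S1))
      (w + fun i => ((F i : ℤ) : ZMod Q)) = ∏ i, ind S1 (w i + ((F i : ℤ) : ZMod Q)) := by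
    intro w
    unfold ind
    rw [Finset.prod_ite_zero]
    simp [Fintype.mem_piFinset]
  unfold KK
  have hps := Finset.prod_univ_sum (fun _ : ι => S1)
    (fun i (y : ZMod Q) => ind S1 (y + ((F i : ℤ) : ZMod Q)))
  rw [Finset.sum_congr rfl fun w _ => hind w, ← hps, Fintype.card_piFinset]
  push_cast
  rw [← Finset.prod_inv_distrib, ← Finset.prod_mul_distrib]
  apply Finset.prod_congr rfl
  intro i _
  have hQ : 2 * R ≤ Q := by
    have h1 := hF i
    have h2 := abs_nonneg (F i)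
    omega
  have hinj := kernel_inj (Q := Q) hQ
  have hcard : S1.card = R := by
    rw [hS1, Finset.card_image_of_injOn hinj, Finset.card_range]
  rw [hcard, ← kernel_tri hR]
  congr 1
  rw [hS1, Finset.sum_image (fun a ha b hb h => hinj ha hb h)]
  rw [← kernel_card, Finset.card_filter]
  push_cast
  apply Finset.sum_congr rfl
  intro r hr
  unfold ind
  have := kernel_mem (F i) (hF i) (Finset.mem_range.1 hr)
  by_cases h : 0 ≤ (r : ℤ) + F i ∧ (r : ℤ) + F i < R
  · rw [if_pos (this.2 h), if_pos h]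
  · rw [if_neg (fun h' => h (this.1 h')), if_neg h]

theorem tri_le_cos {τ θ : ℝ} (hτ : 0 < τ) (hθ : θ * τ = 2) (F : ℝ) :
    tri τ F ≤ (1 + Real.cos (θ * F)) / 2 := by
  have hθ2 : θ = 2 / τ := by rw [eq_div_iff hτ.ne']; exact hθ
  set u := |F| / τ with hu
  have hu0 : 0 ≤ u := by positivity
  have h1 : Real.cos (θ * F) = Real.cos (2 * u) := by
    rw [← Real.cos_abs (θ * F), abs_mul, hu, hθ2, abs_of_pos (by positivity)]
    congr 1
    ring
  unfold tri
  rw [← hu, h1, Real.cos_two_mul]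
  have h2 : Real.sin u ^ 2 ≤ u := by
    have h3 : |Real.sin u| ≤ 1 := Real.abs_sin_le_one u
    have h4 : |Real.sin u| ≤ u := by
      have := Real.abs_sin_le_abs (x := u)
      rwa [abs_of_nonneg hu0] at this
    calc Real.sin u ^ 2 = |Real.sin u| * |Real.sin u| := by rw [← sq_abs]; ring
      _ ≤ 1 * u := by gcongr
      _ = u := one_mul u
  have h5 := Real.sin_sq_add_cos_sq u
  rw [max_le_iff]
  constructor
  · nlinarith [sq_nonneg (Real.cos u)]
  · nlinarith

theorem kernel_scale {q : ℕ} (hq : 0 < q) (R a : ℝ) : tri (R / q) (a / q) = tri R a := by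
  have hq0 : (0 : ℝ) < q := by exact_mod_cast hq
  unfold tri
  rw [abs_div, abs_of_pos hq0, div_div_div_cancel_right₀ hq0.ne']

/-- the frozen transfer theorem for real functions with values in `q⁻¹ ℤ` -/
theorem real_frozen {m : ℕ} (hm : 0 < m) {q : ℕ} (hq : 0 < q) {R : ℕ} (hR : 0 < R)
    (Sl : Finset ℕ) {F : ℕ → Cube (m * D) → Cube (m * D) → ℝ}
    (hint : ∀ j ∈ Sl, ∀ x z, ∃ a : ℤ, F j x z = a / q) {θ κ : ℝ}
    {Φ : Cube (m * D) → Cube (m * D) → ℝ} {ν : ℕ} (hν : ν < D)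
    (hF : ∀ j ∈ Sl, ∀ s ≤ ν, Split (F j) (m * s) (m * (ν - s)))
    (hΦ : ∀ s ≤ ν + 1, Split Φ (m * s) (m * (ν + 1 - s)))
    {e : ℕ → Cube (m * D) → Cube (m * D) → ℝ} (he : ∀ s x z, e s x z = 0 ∨ e s x z = 1)
    (hem : ∀ s ≤ ν, ∀ x x' z z', agree (m * s) x x' → agree (m * (ν - s)) z z' →
      e s x z = e s x' z')
    (htop : ∀ s ≤ ν, ∀ x z, e s x z = 1 → |DD Φ (m * s) (m * (ν - s)) x z| = 4 * κ)
    (hsin : Real.sin (θ * κ) ≠ 0) :
    ‖avc (fun x => avc (fun z => ((∏ j ∈ Sl, tri (R / q) (F j x z) : ℝ) : ℂ) *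
        Complex.exp (Complex.I * ((θ * Φ x z : ℝ) : ℂ))))‖ ≤
      (1 / 4 + 4 / (Real.sin (θ * κ) ^ 2 * (ν + 1)) + 2 * Real.sin (θ * κ) ^ 2) *
          avc (fun x => avc (fun z => ∏ j ∈ Sl, tri (R / q) (F j x z)))
        + (72 * Real.negMulLog (avc (fun x => avc (fun z => ∏ j ∈ Sl, tri (R / q) (F j x z))))
          + ∑ s ∈ range (ν + 1), avc (fun x => avc (fun z =>
              (∏ j ∈ Sl, tri (R / q) (F j x z)) * (1 - e s x z))))
          / (ν + 1) := by
  classical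
  have hq0 : (0 : ℝ) < q := by exact_mod_cast hq
  choose! A hA using hint
  -- the modulus
  set Q : ℕ := (∑ j ∈ Sl, ∑ x, ∑ z, (A j x z).natAbs) + 2 * R with hQ
  have : NeZero Q := ⟨by omega⟩
  have hAQ : ∀ j ∈ Sl, ∀ x z, |A j x z| + 2 * (R : ℤ) ≤ Q := by
    intro j hj x z
    have h1 : (A j x z).natAbs ≤ ∑ z, (A j x z).natAbs :=
      Finset.single_le_sum (f := fun z => (A j x z).natAbs) (fun _ _ => Nat.zero_le _)
        (Finset.mem_univ z)
    have h2 : ∑ z, (A j x z).natAbs ≤ ∑ x, ∑ z, (A j x z).natAbs :=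
      Finset.single_le_sum (f := fun x => ∑ z, (A j x z).natAbs) (fun _ _ => Nat.zero_le _)
        (Finset.mem_univ x)
    have h3 : ∑ x, ∑ z, (A j x z).natAbs ≤ ∑ j ∈ Sl, ∑ x, ∑ z, (A j x z).natAbs :=
      Finset.single_le_sum (f := fun j => ∑ x, ∑ z, (A j x z).natAbs)
        (fun _ _ => Nat.zero_le _) hj
    have h4 : |A j x z| = ((A j x z).natAbs : ℤ) := Int.abs_eq_natAbs _
    rw [h4]
    omega
  set S : Finset (Sl → ZMod Q) :=
    Fintype.piFinset (fun _ : Sl => (range R).image (fun r : ℕ => (r : ZMod Q))) with hS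
  have hSn : S.Nonempty := by
    refine ⟨fun _ => ((0 : ℕ) : ZMod Q), ?_⟩
    rw [hS, Fintype.mem_piFinset]
    intro _
    rw [Finset.mem_image]
    exact ⟨0, Finset.mem_range.2 hR, rfl⟩
  set F' : Cube (m * D) → Cube (m * D) → (Sl → ZMod Q) :=
    fun x z i => ((A i x z : ℤ) : ZMod Q) with hF'
  have hKK : ∀ x z, KK S (F' x z) = ∏ j ∈ Sl, tri (R / q) (F j x z) := by
    intro x z
    rw [hS, hF', KK_prod hR (fun i : Sl => A i x z) (fun i => hAQ i i.2 x z),
      ← Finset.prod_coe_sort Sl]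
    apply Finset.prod_congr rfl
    intro i _
    rw [hA i i.2, kernel_scale hq]
  have hsp : ∀ s ≤ ν, Split F' (m * s) (m * (ν - s)) := by
    intro s hs x x' z z' hx hz
    funext i
    have h1 := hF i i.2 s hs x x' z z' hx hz
    rw [hA i i.2, hA i i.2, hA i i.2, hA i i.2, ← add_div, ← add_div,
      div_left_inj' hq0.ne'] at h1
    have h2 : A i x z + A i x' z' = A i x' z + A i x z' := by exact_mod_cast h1
    have h3 : ((A i x z + A i x' z' : ℤ) : ZMod Q) = ((A i x' z + A i x z' : ℤ) : ZMod Q) := by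
      rw [h2]
    push_cast at h3
    exact h3
  have hmain := frozen hSn hm (θ := θ) (κ := κ) hν hsp hΦ he hem htop hsin
  simp only [hKK] at hmain
  exact hmain

end Disc32
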