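import Pool.Agent.Work.Disc32.Kernel
import Pool.Agent.Work.Disc32.Empty

/-!
# One more level costs a factor 3/4 (J10a, helper15)
-/

namespace Disc32

open Finset

variable {D : ℕ}

/-- a family of level functions -/
structure Fam (m D k : ℕ) (q : ℕ) (κ ε : ℝ) (F : ℕ → Cube (m * D) → Cube (m * D) → ℝ)
    (e : ℕ → ℕ → Cube (m * D) → Cube (m * D) → ℝ) : Prop where
  int : ∀ ν x z, ∃ a : ℤ, F ν x z = a / q
  split : ∀ ν s t, ν + 1 ≤ s + t → Split (F ν) (m * s) (m * t)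
  e01 : ∀ ν s x z, e ν s x z = 0 ∨ e ν s x z = 1
  emeas : ∀ ν s, ν < k → s ≤ ν → ∀ x x' z z', agree (m * s) x x' → agree (m * (ν - s)) z z' →
    e ν s x z = e ν s x' z'
  top : ∀ ν s, ν < k → s ≤ ν → ∀ x z, e ν s x z = 1 →
    |DD (F ν) (m * s) (m * (ν - s)) x z| = 4 * κ
  sparse : ∀ ν s, ν < k → 1 ≤ s → s ≤ ν → ∀ x z,
    Mt (m * (s - 1)) (fun x' => 1 - e ν s x' z) x ≤ ε

lemma level_tri_nonneg (τ F : ℝ) : 0 ≤ tri τ F := le_max_left _ _

lemma level_tri_le_one {τ : ℝ} (hτ : 0 ≤ τ) (F : ℝ) : tri τ F ≤ 1 := by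
  unfold tri
  refine max_le zero_le_one ?_
  have : 0 ≤ |F| / τ := div_nonneg (abs_nonneg _) hτ
  linarith

/-- `sin² x` is between `508/k` and `1/64` -/
lemma level_sin {k : ℕ} {x : ℝ} (hk : 0 < k) (hx : 0 < x) (h1 : 512 ≤ x ^ 2 * k)
    (h2 : x ^ 2 ≤ 1 / 64) :
    0 < Real.sin x ∧ 508 ≤ Real.sin x ^ 2 * k ∧ Real.sin x ^ 2 ≤ 1 / 64 := by
  have hk0 : (0 : ℝ) < k := by exact_mod_cast hk
  have hx8 : x ≤ 1 / 8 := by nlinarith
  have hs := Real.sin_gt_sub_cube hx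
  have hs1 : x * (1 - x ^ 2 / 6) < Real.sin x := by
    have : x * (1 - x ^ 2 / 6) = x - x ^ 3 / 6 := by ring
    rw [this]; exact hs
  have hc : (255 / 256 : ℝ) ≤ 1 - x ^ 2 / 6 := by linarith
  have hs2 : x * (255 / 256) < Real.sin x :=
    lt_of_le_of_lt (mul_le_mul_of_nonneg_left hc hx.le) hs1
  have hs0 : 0 < Real.sin x := lt_trans (by positivity) hs2
  have hsle : Real.sin x ≤ x := (Real.sin_lt hx).le
  refine ⟨hs0, ?_, ?_⟩
  · have h3 : (x * (255 / 256)) ^ 2 ≤ Real.sin x ^ 2 :=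
      pow_le_pow_left₀ (by positivity) hs2.le 2
    have h4 : (x * (255 / 256)) ^ 2 * k ≤ Real.sin x ^ 2 * k :=
      mul_le_mul_of_nonneg_right h3 hk0.le
    have h5 : (x * (255 / 256)) ^ 2 * k = x ^ 2 * k * (255 / 256) ^ 2 := by ring
    rw [h5] at h4
    nlinarith
  · exact le_trans (pow_le_pow_left₀ hs0.le hsle 2) h2

/-- the numerical core of `level_step` -/
lemma level_num {k ν : ℕ} {Z S ε B : ℝ} (hk : 10 ^ 5 ≤ k) (hν : k ≤ 2 * ν)
    (hZ0 : Real.exp (-(k / 10 ^ 4)) ≤ Z) (hε : ε ≤ 1 / 512)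
    (hS1 : 508 ≤ S * k) (hS2 : S ≤ 1 / 64)
    (hB : B ≤ Real.negMulLog Z + Z * (2 + 2 * ε * ν)) :
    (1 / 4 + 4 / (S * (ν + 1)) + 2 * S) * Z + (72 * Real.negMulLog Z + B) / (ν + 1) ≤ Z / 2 := by
  have hZ : 0 < Z := lt_of_lt_of_le (Real.exp_pos _) hZ0
  have hkR : (10 ^ 5 : ℝ) ≤ k := by exact_mod_cast hk
  have hνR : (k : ℝ) ≤ 2 * ν := by exact_mod_cast hν
  have hk0 : (0 : ℝ) < k := lt_of_lt_of_le (by norm_num) hkR
  have hν0 : (0 : ℝ) < ν + 1 := by linarith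
  have hlog : -(k / 10 ^ 4 : ℝ) ≤ Real.log Z := by
    rw [Real.le_log_iff_exp_le hZ]; exact hZ0
  have hneg : Real.negMulLog Z ≤ Z * (k / 10 ^ 4) := by
    have h1 : Real.negMulLog Z = Z * (-Real.log Z) := by rw [Real.negMulLog]; ring
    rw [h1]
    exact mul_le_mul_of_nonneg_left (by linarith) hZ.le
  have hS0 : 0 < S := by
    by_contra h
    have h1 : S ≤ 0 := not_lt.1 h
    have h2 : S * k ≤ 0 := mul_nonpos_of_nonpos_of_nonneg h1 hk0.le
    linarith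
  have h4 : 4 / (S * (ν + 1)) ≤ 4 / 254 := by
    apply div_le_div_of_nonneg_left (by norm_num) (by norm_num)
    have h5 : S * k ≤ S * (2 * ν) := mul_le_mul_of_nonneg_left hνR hS0.le
    nlinarith
  have h6 : 2 * S ≤ 1 / 32 := by linarith
  have hfirst : (1 / 4 + 4 / (S * (ν + 1)) + 2 * S) * Z ≤ (1 / 4 + 4 / 254 + 1 / 32) * Z :=
    mul_le_mul_of_nonneg_right (by linarith) hZ.le
  have hεν : 2 * ε * ν ≤ ν / 256 := by
    have : (0 : ℝ) ≤ ν := Nat.cast_nonneg ν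
    nlinarith
  have hsum : 72 * Real.negMulLog Z + B ≤ Z * (73 * (k / 10 ^ 4) + 2 + ν / 256) := by
    have h7 : Z * (2 + 2 * ε * ν) ≤ Z * (2 + ν / 256) :=
      mul_le_mul_of_nonneg_left (by linarith) hZ.le
    have h8 : Z * (73 * (k / 10 ^ 4) + 2 + ν / 256) =
      73 * (Z * (k / 10 ^ 4)) + Z * (2 + ν / 256) := by ring
    rw [h8]
    linarith
  have hsecond : (72 * Real.negMulLog Z + B) / (ν + 1) ≤ Z * (1 / 40) := by
    rw [div_le_iff₀ hν0]
    refine hsum.trans ?_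
    rw [mul_assoc]
    refine mul_le_mul_of_nonneg_left ?_ hZ.le
    have : (50000 : ℝ) ≤ ν := by linarith
    linarith
  linarith

/-- the real-analysis step from the oscillating bound to the triangle bound -/
lemma level_real {n : ℕ} {W Φ : Cube n → Cube n → ℝ} {τ θ Z : ℝ} (hW : ∀ x z, 0 ≤ W x z)
    (hτ : 0 < τ) (hθ : θ * τ = 2) (hZ : avc (fun x => avc (fun z => W x z)) = Z)
    (hb : ‖avc (fun x => avc (fun z => ((W x z : ℝ) : ℂ) *
        Complex.exp (Complex.I * ((θ * Φ x z : ℝ) : ℂ))))‖ ≤ Z / 2) :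
    avc (fun x => avc (fun z => tri τ (Φ x z) * W x z)) ≤ 3 / 4 * Z := by
  have hre : ∀ x z, (((W x z : ℝ) : ℂ) * Complex.exp (Complex.I * ((θ * Φ x z : ℝ) : ℂ))).re =
      W x z * Real.cos (θ * Φ x z) := by
    intro x z
    rw [Complex.re_ofReal_mul, mul_comm Complex.I, Complex.exp_ofReal_mul_I_re]
  have havre : ∀ {n : ℕ} (g : Cube n → ℂ), (avc g).re = avc (fun x => (g x).re) := by
    intro n g
    unfold avc
    rw [Complex.smul_re, Complex.re_sum]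
  have hcos : avc (fun x => avc (fun z => W x z * Real.cos (θ * Φ x z))) ≤ Z / 2 := by
    have h1 : avc (fun x => avc (fun z => W x z * Real.cos (θ * Φ x z))) =
        (avc (fun x => avc (fun z => ((W x z : ℝ) : ℂ) *
          Complex.exp (Complex.I * ((θ * Φ x z : ℝ) : ℂ))))).re := by
      rw [havre]
      refine avc_congr fun x => ?_
      rw [havre]
      exact avc_congr fun z => (hre x z).symm
    rw [h1]
    exact (Complex.re_le_norm _).trans hb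
  have hpt : ∀ x z, tri τ (Φ x z) * W x z ≤
      (1 / 2) * W x z + (1 / 2) * (W x z * Real.cos (θ * Φ x z)) := by
    intro x z
    have h1 := mul_le_mul_of_nonneg_right (tri_le_cos hτ hθ (Φ x z)) (hW x z)
    refine h1.trans (le_of_eq ?_)
    ring
  have h2 := empty_avc2_mono hpt
  rw [empty_avc2_add, empty_avc2_mul, empty_avc2_mul, hZ] at h2
  linarith

/-- one more level costs a factor `3/4` -/
theorem level_step {m k q R : ℕ} {κ ε : ℝ} {F : ℕ → Cube (m * D) → Cube (m * D) → ℝ}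
    {e : ℕ → ℕ → Cube (m * D) → Cube (m * D) → ℝ} (hm : 0 < m) (hq : 0 < q) (hR : 0 < R)
    (hD : k ≤ D) (hk : 10 ^ 5 ≤ k) (hκ : 0 < κ) (hε0 : 0 ≤ ε) (hε : ε ≤ 1 / 512)
    (hτ1 : 128 * ((R : ℝ) / q) ^ 2 ≤ κ ^ 2 * k) (hτ2 : 256 * κ ^ 2 ≤ ((R : ℝ) / q) ^ 2)
    (fam : Fam m D k q κ ε F e) {Sl : Finset ℕ} {ν : ℕ} (hν1 : k ≤ 2 * ν) (hν2 : ν < k)
    (hSl : ∀ j ∈ Sl, j < ν)
    (hZ : Real.exp (-(k / 10 ^ 4)) ≤
      avc (fun x => avc (fun z => ∏ j ∈ Sl, tri (R / q) (F j x z)))) :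
    avc (fun x => avc (fun z => ∏ j ∈ insert ν Sl, tri (R / q) (F j x z))) ≤
      3 / 4 * avc (fun x => avc (fun z => ∏ j ∈ Sl, tri (R / q) (F j x z))) := by
  have hq0 : (0 : ℝ) < q := by exact_mod_cast hq
  have hR0 : (0 : ℝ) < R := by exact_mod_cast hR
  set τ : ℝ := (R : ℝ) / q with hτdef
  have hτ : 0 < τ := div_pos hR0 hq0
  set θ : ℝ := 2 / τ with hθdef
  have hθ : θ * τ = 2 := by rw [hθdef]; field_simp
  have hθ0 : 0 < θ := by positivity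
  have hk0 : 0 < k := lt_of_lt_of_le (by norm_num) hk
  have hx2 : (θ * κ) ^ 2 * τ ^ 2 = 4 * κ ^ 2 := by
    have : (θ * κ) ^ 2 * τ ^ 2 = (θ * τ) ^ 2 * κ ^ 2 := by ring
    rw [this, hθ]; ring
  have hτ2' : 0 < τ ^ 2 := by positivity
  have h1 : 512 ≤ (θ * κ) ^ 2 * k := by
    have h3 : 512 * τ ^ 2 ≤ (θ * κ) ^ 2 * k * τ ^ 2 := by
      have : (θ * κ) ^ 2 * k * τ ^ 2 = 4 * (κ ^ 2 * k) := by
        calc (θ * κ) ^ 2 * k * τ ^ 2 = (θ * κ) ^ 2 * τ ^ 2 * k := by ring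
          _ = _ := by rw [hx2]; ring
      rw [this]; linarith
    exact le_of_mul_le_mul_right h3 hτ2'
  have h2 : (θ * κ) ^ 2 ≤ 1 / 64 := by
    have h3 : (θ * κ) ^ 2 * τ ^ 2 ≤ 1 / 64 * τ ^ 2 := by rw [hx2]; linarith
    exact le_of_mul_le_mul_right h3 hτ2'
  obtain ⟨hs0, hs1, hs2⟩ := level_sin hk0 (by positivity : 0 < θ * κ) h1 h2
  set W : Cube (m * D) → Cube (m * D) → ℝ := fun x z => ∏ j ∈ Sl, tri τ (F j x z) with hW
  have hW0 : ∀ x z, 0 ≤ W x z := fun x z => Finset.prod_nonneg fun j _ => level_tri_nonneg _ _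
  have hW1 : ∀ x z, W x z ≤ 1 := fun x z =>
    Finset.prod_le_one (fun j _ => level_tri_nonneg _ _) fun j _ => level_tri_le_one hτ.le _
  have hfr := real_frozen (D := D) hm hq hR Sl (F := F) (fun j _ x z => fam.int j x z)
    (θ := θ) (κ := κ) (Φ := F ν) (ν := ν) (lt_of_lt_of_le hν2 hD)
    (fun j hj s hs => fam.split j s (ν - s) (by have := hSl j hj; omega))
    (fun s hs => fam.split ν s (ν + 1 - s) (by omega))
    (e := e ν) (fam.e01 ν) (fun s hs => fam.emeas ν s hν2 hs)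
    (fun s hs => fam.top ν s hν2 hs) hs0.ne'
  have hem := empty_sum (D := m * D) (m := m) (ν := ν) hW0 hW1 (e := e ν) (fam.e01 ν)
    (fun s hs x x' z hx => fam.emeas ν s hν2 hs x x' z z hx (agree_refl _ _)) hε0
    (fun s hs1 hs2 x z => fam.sparse ν s hν2 hs1 hs2 x z)
  have hnum := level_num (Z := avc (fun x => avc (fun z => W x z)))
    (S := Real.sin (θ * κ) ^ 2) hk hν1 hZ hε hs1 hs2 hem
  have hfin := level_real (W := W) (Φ := F ν) hW0 hτ hθ rfl (hfr.trans hnum)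
  have hnot : ν ∉ Sl := fun h => lt_irrefl _ (hSl ν h)
  have hprod : ∀ x z, ∏ j ∈ insert ν Sl, tri τ (F j x z) = tri τ (F ν x z) * W x z := by
    intro x z
    rw [Finset.prod_insert hnot]
  simp only [hprod]
  exact hfin

end Disc32
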