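import Pool.Agent.Work.Disc32.Core

/-! J17: from `core` to the final statement. -/

namespace Disc32

open Finset Disc3

lemma num_loglog {N : ℕ} (hN : 3 ≤ N) : 1 / 16 ≤ Real.log (Real.log N) := by
  have hN3 : (3 : ℝ) ≤ N := by exact_mod_cast hN
  have h1 : Real.log 3 ≤ Real.log N := Real.log_le_log (by norm_num) hN3
  have h2 : 1 + (1 - (3 / Real.exp 1)⁻¹) ≤ Real.log 3 := by
    have h3 : Real.log 3 = 1 + Real.log (3 / Real.exp 1) := by
      rw [Real.log_div (by norm_num) (Real.exp_pos 1).ne', Real.log_exp]; ring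
    rw [h3]
    have := Real.one_sub_inv_le_log_of_pos (x := 3 / Real.exp 1)
      (div_pos (by norm_num) (Real.exp_pos 1))
    linarith
  have h4 : (109 / 100 : ℝ) ≤ Real.log N := by
    rw [inv_div] at h2
    have := Real.exp_one_lt_d9
    linarith
  have h5 : Real.log (109 / 100) ≤ Real.log (Real.log N) :=
    Real.log_le_log (by norm_num) h4
  have h6 := Real.one_sub_inv_le_log_of_pos (x := 109 / 100) (by norm_num)
  norm_num at h6
  linarith

theorem final : ∃ c : ℝ, 0 < c ∧ ∀ N : ℕ, 3 ≤ N → ∀ u : Fin N → Fin 3 → ℝ,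
    (∀ i c, 0 ≤ u i c ∧ u i c < 1) → ∃ α : Fin 3 → ℝ, (∀ c, 0 ≤ α c ∧ α c < 1) ∧
      c * (Real.log N / Real.log (Real.log N)) ^ (3 / 2 : ℝ) ≤
        |((univ.filter (fun i : Fin N => ∀ c, u i c ≤ α c)).card : ℝ) - N * ∏ c, α c| := by
  refine ⟨1 / 10 ^ 25, by positivity, fun N hN u hu => ?_⟩
  by_contra hcon
  push Not at hcon
  have hNpos : (0 : ℝ) < N := by exact_mod_cast (by omega : 0 < N)
  have hll : 1 / 16 ≤ Real.log (Real.log N) := num_loglog hN
  have hll0 : 0 < Real.log (Real.log N) := by linarith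
  have hlog1 : 1 < Real.log N := by
    by_contra h
    have h0 : 0 ≤ Real.log N := Real.log_nonneg (by exact_mod_cast (by omega : 1 ≤ N))
    have := Real.log_nonpos h0 (not_lt.1 h)
    linarith
  have hlog0 : 0 < Real.log N := by linarith
  set r : ℝ := Real.log N / Real.log (Real.log N) with hr
  have hr0 : 0 < r := div_pos hlog0 hll0
  -- the scale
  set n : ℕ := Nat.log 2 (1024 * N) + 1 with hndef
  have hn1 : 1024 * N < 2 ^ n := Nat.lt_pow_succ_log_self (by norm_num) _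
  have hn2 : 2 ^ n ≤ 2048 * N := by
    have := Nat.pow_log_le_self 2 (x := 1024 * N) (by omega)
    rw [hndef, pow_succ]; omega
  have hl2a : (1 / 2 : ℝ) ≤ Real.log 2 := by have := Real.log_two_gt_d9; linarith
  have hl2b : Real.log 2 ≤ 7 / 10 := by have := Real.log_two_lt_d9; linarith
  have hlogn : Real.log N ≤ n := by
    have h3 : Real.log N ≤ Real.log (2 ^ n) := by
      apply Real.log_le_log hNpos
      have : N ≤ 2 ^ n := by omega
      exact_mod_cast this
    rw [Real.log_pow] at h3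
    have h4 : (0 : ℝ) ≤ n := Nat.cast_nonneg n
    nlinarith
  rcases lt_or_ge n (2 ^ 40) with hsmall | hbig
  · -- bounded range
    have h5 := half_le (by omega : 0 < N) hu (M := 1 / 100) (fun α hα => by
      refine (hcon α hα).le.trans ?_
      have h6 : r ≤ (2 : ℝ) ^ 44 := by
        rw [hr, div_le_iff₀ hll0]
        have h7 : (n : ℝ) ≤ 2 ^ 40 := by exact_mod_cast hsmall.le
        calc Real.log N ≤ 2 ^ 40 := hlogn.trans h7
          _ = 2 ^ 44 * (1 / 16) := by norm_num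
          _ ≤ 2 ^ 44 * Real.log (Real.log N) := mul_le_mul_of_nonneg_left hll (by positivity)
      have h8 : r ^ (3 / 2 : ℝ) ≤ (2 : ℝ) ^ 66 := by
        have h9 : ((2 : ℝ) ^ 44) ^ (3 / 2 : ℝ) = 2 ^ 66 := by
          rw [← Real.rpow_natCast, ← Real.rpow_mul (by norm_num), ← Real.rpow_natCast]
          norm_num
        rw [← h9]
        exact Real.rpow_le_rpow hr0.le h6 (by norm_num)
      calc 1 / 10 ^ 25 * r ^ (3 / 2 : ℝ) ≤ 1 / 10 ^ 25 * 2 ^ 66 :=
            mul_le_mul_of_nonneg_left h8 (by positivity)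
        _ ≤ 1 / 100 := by norm_num)
    norm_num at h5
  · -- the main range
    have hnR : (2 : ℝ) ^ 40 ≤ n := by exact_mod_cast hbig
    have hn0 : (0 : ℝ) < n := by linarith [show (0:ℝ) < 2 ^ 40 by norm_num]
    have he : Real.exp 1 ≤ 3 := by have := Real.exp_one_lt_d9; linarith
    -- `log N` is large
    have hlogN : Real.exp 1 ≤ Real.log N := by
      have h1 : Real.log (2 ^ n) ≤ Real.log (2048 * N) := by
        apply Real.log_le_log (by positivity)
        exact_mod_cast hn2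
      have h2 : Real.log (2048 * (N : ℝ)) = 11 * Real.log 2 + Real.log N := by
        rw [Real.log_mul (by norm_num) hNpos.ne',
          show (2048 : ℝ) = 2 ^ 11 by norm_num, Real.log_pow]
        norm_num
      rw [Real.log_pow, h2] at h1
      have h3 : (n : ℝ) * (1 / 2) ≤ n * Real.log 2 := mul_le_mul_of_nonneg_left hl2a hn0.le
      have h4 : (100 : ℝ) ≤ n := le_trans (by norm_num) hnR
      have h5 : Real.log 2 ≤ 1 := by linarith
      clear_value n
      clear hnR hbig hn1 hn2 hndef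
      linarith
    have hll1 : 1 ≤ Real.log (Real.log N) := by
      have := Real.log_le_log (Real.exp_pos 1) hlogN
      rwa [Real.log_exp] at this
    have hmono := Real.log_div_self_antitoneOn
    -- `t / log t` is increasing
    have hinc : ∀ a b : ℝ, Real.exp 1 ≤ a → a ≤ b → a / Real.log a ≤ b / Real.log b := by
      intro a b ha hab
      have ha0 : 0 < a := lt_of_lt_of_le (Real.exp_pos 1) ha
      have hb0 : 0 < b := lt_of_lt_of_le ha0 hab
      have hla : 1 ≤ Real.log a := by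
        have := Real.log_le_log (Real.exp_pos 1) ha
        rwa [Real.log_exp] at this
      have hlb : 1 ≤ Real.log b := hla.trans (Real.log_le_log ha0 hab)
      have h1 := hmono (show a ∈ {x : ℝ | Real.exp 1 ≤ x} from ha)
        (show b ∈ {x : ℝ | Real.exp 1 ≤ x} from ha.trans hab) hab
      simp only at h1
      rw [div_le_div_iff₀ hb0 ha0] at h1
      rw [div_le_div_iff₀ (by linarith) (by linarith)]
      linarith
    have hlogn1 : 1 ≤ Real.log n := hll1.trans (Real.log_le_log hlog0 hlogn)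
    have hrn : r ≤ n / Real.log n := hinc _ _ hlogN hlogn
    have hn28 : (2 : ℝ) ^ 40 / 28 ≤ n / Real.log n := by
      have h1 := hinc (2 ^ 40) n (he.trans (by norm_num)) hnR
      have h2 : Real.log ((2 : ℝ) ^ 40) = 40 * Real.log 2 := by
        rw [Real.log_pow]; norm_num
      rw [h2] at h1
      refine le_trans ?_ h1
      apply div_le_div_of_nonneg_left (by positivity) (by linarith)
      linarith
    -- the block length
    set m : ℕ := Nat.log 2 (n ^ 6) + 1 with hmdef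
    have hm0 : 0 < m := by omega
    have hnnat : 0 < n := by omega
    have hm1 : n ^ 6 < 2 ^ m := Nat.lt_pow_succ_log_self (by norm_num) _
    have hm2 : (m : ℝ) ≤ 10 * Real.log n := by
      have h1 := Nat.pow_log_le_self 2 (x := n ^ 6) (by positivity)
      have h2 : Real.log ((2 : ℝ) ^ (Nat.log 2 (n ^ 6))) ≤ Real.log ((n : ℝ) ^ 6) := by
        apply Real.log_le_log (by positivity)
        exact_mod_cast h1
      rw [Real.log_pow, Real.log_pow] at h2
      have h3 : (m : ℝ) = (Nat.log 2 (n ^ 6) : ℝ) + 1 := by rw [hmdef]; push_cast; ring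
      have h4 := Real.log_two_gt_d9
      have h5 : (0 : ℝ) ≤ (Nat.log 2 (n ^ 6) : ℝ) := Nat.cast_nonneg _
      rw [h3]
      have h6 : (Nat.log 2 (n ^ 6) : ℝ) * (2 / 3) ≤ (6 : ℕ) * Real.log n :=
        le_trans (mul_le_mul_of_nonneg_left (by linarith) h5) h2
      push_cast at h6
      linarith
    have hmR : (0 : ℝ) < m := by exact_mod_cast hm0
    set k : ℕ := n / m with hkdef
    have hk1 : m * k ≤ n := Nat.mul_div_le n m
    have hk2 : n < m * (k + 1) := by
      have := Nat.lt_mul_div_succ n hm0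
      exact this
    have hk2R : (n : ℝ) < m * (k + 1) := by exact_mod_cast hk2
    have hlnpos : 0 < Real.log n := by linarith
    have hq : (n : ℝ) / Real.log n ≤ 10 * (k + 1) := by
      rw [div_le_iff₀ hlnpos]
      have h1 : (m : ℝ) * (k + 1) ≤ 10 * Real.log n * (k + 1) :=
        mul_le_mul_of_nonneg_right hm2 (by positivity)
      calc (n : ℝ) ≤ m * (k + 1) := hk2R.le
        _ ≤ 10 * Real.log n * (k + 1) := h1
        _ = 10 * (k + 1) * Real.log n := by ring
    have hk : 10 ^ 7 ≤ k := by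
      have h1 : (2 : ℝ) ^ 40 / 28 ≤ 10 * (k + 1) := hn28.trans hq
      have h2 : (10 : ℝ) ^ 7 ≤ k := by
        have : (10 : ℝ) ^ 7 * 10 + 10 ≤ 2 ^ 40 / 28 := by norm_num
        linarith
      exact_mod_cast h2
    have hkR : (10 : ℝ) ^ 7 ≤ k := by exact_mod_cast hk
    have hr20 : r ≤ 20 * k := by
      have : (1 : ℝ) ≤ k := le_trans (by norm_num) hkR
      linarith
    set M : ℝ := 1 / 10 ^ 25 * r ^ (3 / 2 : ℝ) with hMdef
    have hM0 : 0 ≤ M := by positivity
    have hMn : M ≤ (n : ℝ) ^ 2 := by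
      have h1 : r ≤ n := by
        refine hrn.trans ?_
        exact div_le_self hn0.le hlogn1
      have h2 : r ^ (3 / 2 : ℝ) ≤ (n : ℝ) ^ (3 / 2 : ℝ) := Real.rpow_le_rpow hr0.le h1 (by norm_num)
      have h3 : (n : ℝ) ^ (3 / 2 : ℝ) ≤ (n : ℝ) ^ (2 : ℝ) :=
        Real.rpow_le_rpow_of_exponent_le (by linarith [show (1:ℝ) ≤ 2 ^ 40 by norm_num])
          (by norm_num)
      rw [Real.rpow_two] at h3
      have h4 : 0 ≤ r ^ (3 / 2 : ℝ) := by positivity
      rw [hMdef]
      have h5 : 1 / 10 ^ 25 * r ^ (3 / 2 : ℝ) ≤ 1 * r ^ (3 / 2 : ℝ) :=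
        mul_le_mul_of_nonneg_right (by norm_num) h4
      linarith
    have hkn : (k : ℝ) ≤ n := by
      have : k ≤ n := Nat.div_le_self n m
      exact_mod_cast this
    have hsm : 10 ^ 4 * (k : ℝ) ^ 2 * (1 + M) ≤ 2 ^ m := by
      have h1 : (k : ℝ) ^ 2 ≤ (n : ℝ) ^ 2 := pow_le_pow_left₀ (by positivity) hkn 2
      have hn1' : (1 : ℝ) ≤ n := le_trans (by norm_num) hnR
      have h2 : (1 : ℝ) ≤ (n : ℝ) ^ 2 := one_le_pow₀ hn1'
      have h3 : 10 ^ 4 * (k : ℝ) ^ 2 * (1 + M) ≤ 10 ^ 4 * (n : ℝ) ^ 2 * (2 * (n : ℝ) ^ 2) := by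
        apply mul_le_mul
        · exact mul_le_mul_of_nonneg_left h1 (by norm_num)
        · linarith
        · linarith
        · positivity
      have h4 : (n : ℝ) ^ 6 ≤ 2 ^ m := by exact_mod_cast hm1.le
      have h5 : (2 * 10 ^ 4 : ℝ) ≤ (n : ℝ) ^ 2 := by
        have h6 : ((2 : ℝ) ^ 40) ^ 2 ≤ (n : ℝ) ^ 2 := pow_le_pow_left₀ (by norm_num) hnR 2
        exact le_trans (by norm_num) h6
      calc 10 ^ 4 * (k : ℝ) ^ 2 * (1 + M) ≤ 10 ^ 4 * (n : ℝ) ^ 2 * (2 * (n : ℝ) ^ 2) := h3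
        _ = (2 * 10 ^ 4) * (n : ℝ) ^ 4 := by ring
        _ ≤ (n : ℝ) ^ 2 * (n : ℝ) ^ 4 := mul_le_mul_of_nonneg_right h5 (by positivity)
        _ = (n : ℝ) ^ 6 := by ring
        _ ≤ 2 ^ m := h4
    have hcore := core hu hM0 (Dm_bound hu (fun α hα => (hcon α hα).le)) hn1.le hn2 hm0 hk1 hk2 hk
      hsm
    have hkpos : (0 : ℝ) < (k : ℝ) ^ (3 / 2 : ℝ) := Real.rpow_pos_of_pos (by linarith [show (0:ℝ) < 10 ^ 7 by norm_num]) _
    have h20 : (20 : ℝ) ^ (3 / 2 : ℝ) ≤ 400 := by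
      have : (20 : ℝ) ^ (3 / 2 : ℝ) ≤ 20 ^ (2 : ℝ) :=
        Real.rpow_le_rpow_of_exponent_le (by norm_num) (by norm_num)
      rw [Real.rpow_two] at this
      linarith
    have hfin : r ^ (3 / 2 : ℝ) ≤ 400 * (k : ℝ) ^ (3 / 2 : ℝ) := by
      calc r ^ (3 / 2 : ℝ) ≤ (20 * (k : ℝ)) ^ (3 / 2 : ℝ) :=
            Real.rpow_le_rpow hr0.le hr20 (by norm_num)
        _ = 20 ^ (3 / 2 : ℝ) * (k : ℝ) ^ (3 / 2 : ℝ) :=
            Real.mul_rpow (by norm_num) (by positivity)
        _ ≤ _ := mul_le_mul_of_nonneg_right h20 hkpos.le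
    have hfin2 : M ≤ 1 / 10 ^ 25 * (400 * (k : ℝ) ^ (3 / 2 : ℝ)) :=
      mul_le_mul_of_nonneg_left hfin (by norm_num)
    have : (k : ℝ) ^ (3 / 2 : ℝ) / 10 ^ 19 ≤ 1 / 10 ^ 25 * (400 * (k : ℝ) ^ (3 / 2 : ℝ)) :=
      hcore.trans hfin2
    have h7 : 1 / 10 ^ 25 * (400 * (k : ℝ) ^ (3 / 2 : ℝ)) < (k : ℝ) ^ (3 / 2 : ℝ) / 10 ^ 19 := by
      have h8 : 1 / 10 ^ 25 * (400 * (k : ℝ) ^ (3 / 2 : ℝ)) =
          (k : ℝ) ^ (3 / 2 : ℝ) * (400 / 10 ^ 25) := by ring
      have h9 : (k : ℝ) ^ (3 / 2 : ℝ) / 10 ^ 19 = (k : ℝ) ^ (3 / 2 : ℝ) * (1 / 10 ^ 19) := by ring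
      rw [h8, h9]
      exact mul_lt_mul_of_pos_left (by norm_num) hkpos
    exact absurd this (not_le.2 h7)

end Disc32
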