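import Pool.Agent.Work.Disc32.Trans

/-!
# The recursion and the end point

Module J3b of the transfer theorem.
-/

namespace Disc32

open Finset

variable {D : ℕ}

section

variable {G : Type*} [AddCommGroup G] [DecidableEq G]

/-- the translation that carries level `s` to level `s + 1` -/
def rec_d (F : Cube D → Cube D → G) (s : ℕ) (x z : Cube D) : G :=
  F (cut (s + 1) x) z - F (cut s x) z

lemma rec_d_congr {F : Cube D → Cube D → G} {s t : ℕ} (hF : Split F s t) {x x' z z' : Cube D}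
    (hx : agree (s + 1) x x') (hz : agree t z z') : rec_d F s x z = rec_d F s x' z' := by
  unfold rec_d
  rw [cut_of_agree hx, cut_of_agree (agree_mono (Nat.le_succ s) hx)]
  have hc : agree s (cut (s + 1) x') (cut s x') :=
    agree_trans (agree_mono (Nat.le_succ s) (agree_cut (s + 1) x')) (agree_symm (agree_cut s x'))
  have h := hF (cut (s + 1) x') (cut s x') z z' hc hz
  rw [sub_eq_sub_iff_add_eq_add, h, add_comm]

lemma rec_uu (S : Finset G) (F : Cube D → Cube D → G) (s : ℕ) (x z : Cube D) (w : G) :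
    uu S F (s + 1) x z (w + rec_d F s x z) = uu S F s x z w := by
  unfold uu rec_d
  congr 1
  abel

lemma rec_vv (S : Finset G) (F : Cube D → Cube D → G) (s : ℕ) (x z : Cube D) (w : G) :
    vv S F (s + 1) x z (w + rec_d F s x z) = vv S F s x z w := by
  unfold vv rec_d
  congr 1
  abel

lemma rec_bb (S : Finset G) {F : Cube D → Cube D → G} {s t : ℕ} (hF : Split F s t)
    (x z : Cube D) (w : G) :
    bb S F (s + 1) (s + 1) x z (w + rec_d F s x z) = bb S F s (s + 1) x z w := by
  unfold bb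
  refine Mt_congr_fun _ fun y hy => ?_
  rw [← rec_d_congr hF hy (agree_refl t z), rec_vv]

lemma rec_aa (S : Finset G) {F : Cube D → Cube D → G} {s t : ℕ} (hF : Split F s t)
    (x z : Cube D) (w : G) :
    aa S F (s + 1) t x z (w + rec_d F s x z) = aa S F s t x z w := by
  unfold aa
  refine Mt_congr_fun _ fun y hy => ?_
  rw [← rec_d_congr hF (agree_refl (s + 1) x) hy, rec_uu]

lemma rec_pp (S : Finset G) {F : Cube D → Cube D → G} {s t : ℕ} (hF : Split F s t) (θ : ℝ)
    (Φ : Cube D → Cube D → ℝ) (x z : Cube D) (w : G) :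
    pp S F θ Φ (s + 1) (s + 1) t x z (w + rec_d F s x z) = pp S F θ Φ s (s + 1) t x z w := by
  unfold pp
  refine Mt_congr_fun _ fun y hy => ?_
  rw [← rec_d_congr hF (agree_refl (s + 1) x) hy, rec_uu]

variable [Fintype G]

theorem En_succ {S : Finset G} {F : Cube D → Cube D → G} {θ : ℝ} {Φ : Cube D → Cube D → ℝ}
    {ν s : ℕ} (hs : s + 1 ≤ ν) (hF : Split F s (ν - s)) :
    En S F θ Φ ν (s + 1) = En' S F θ Φ ν s := by
  unfold En En'
  have h1 : ν - (s + 1) + 1 = ν - s := by omega
  rw [h1, ← EE_shift S _ (rec_d F s)]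
  refine trans_EE_congr S fun x z w => ?_
  rw [rec_bb S hF, rec_aa S hF, rec_pp S hF]

/-! ### the end point -/

/-- Cauchy-Schwarz in the form needed here -/
lemma rec_cs (S : Finset G) {a b p : Cube D → Cube D → G → ℝ} (hb : ∀ x z w, 0 ≤ b x z w)
    (hp : ∀ x z w, 0 ≤ p x z w) (hpa : ∀ x z w, p x z w ≤ a x z w) :
    EE S (fun x z w => b x z w * p x z w) ^ 2 ≤
      EE S (fun x z w => a x z w * b x z w) * EE S (fun x z w => b x z w * p x z w ^ 2 / a x z w) := by
  set X := EE S (fun x z w => b x z w * p x z w) with hX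
  set m := EE S (fun x z w => a x z w * b x z w) with hm
  set T := EE S (fun x z w => b x z w * p x z w ^ 2 / a x z w) with hT
  have hX0 : 0 ≤ X := trans_EE_nonneg S fun x z w => mul_nonneg (hb x z w) (hp x z w)
  have hXm : X ≤ m := trans_EE_mono S fun x z w => by
    rw [mul_comm (a x z w)]
    exact mul_le_mul_of_nonneg_left (hpa x z w) (hb x z w)
  have key : ∀ l : ℝ, 2 * l * X ≤ l ^ 2 * m + T := by
    intro l
    rw [hX, hm, hT, ← trans_EE_const_mul, ← trans_EE_const_mul, ← trans_EE_add]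
    refine trans_EE_mono S fun x z w => ?_
    have h0 := hb x z w
    have h1 := hp x z w
    have h2 := hpa x z w
    rcases eq_or_lt_of_le (h1.trans h2) with h3 | h3
    · have h4 : p x z w = 0 := le_antisymm (by linarith) h1
      rw [h4, ← h3]
      simp
    · have h5 : l ^ 2 * (a x z w * b x z w) + b x z w * p x z w ^ 2 / a x z w
          - 2 * l * (b x z w * p x z w) = b x z w * (l * a x z w - p x z w) ^ 2 / a x z w := by
        field_simp
        ring
      have h6 : 0 ≤ b x z w * (l * a x z w - p x z w) ^ 2 / a x z w := by positivity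
      linarith
  rcases eq_or_lt_of_le (hX0.trans hXm) with h | h
  · have h4 : X = 0 := le_antisymm (by linarith) hX0
    rw [h4, ← h]
    simp
  · have h5 := key (X / m)
    have h6 : 2 * (X / m) * X = 2 * (X ^ 2 / m) := by ring
    have h7 : (X / m) ^ 2 * m = X ^ 2 / m := by field_simp
    rw [h6, h7] at h5
    have h8 : X ^ 2 / m ≤ T := by linarith
    rw [div_le_iff₀ h] at h8
    linarith

/-- complex version of the mass identity, for one pair `(x, z)` -/
lemma rec_KK (S : Finset G) (F : Cube D → Cube D → G) (s : ℕ) (x z : Cube D) :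
    KK S (F x z) = (S.card : ℝ)⁻¹ * ∑ w, uu S F s x z w * vv S F s x z w := by
  unfold KK
  congr 1
  rw [← Equiv.sum_comp (Equiv.addRight (F (cut s x) z)) (fun w => uu S F s x z w * vv S F s x z w)]
  have h1 : ∀ w : G, uu S F s x z (Equiv.addRight (F (cut s x) z) w) *
      vv S F s x z (Equiv.addRight (F (cut s x) z) w) = if w ∈ S then ind S (w + F x z) else 0 := by
    intro w
    rw [Equiv.coe_addRight]
    unfold uu vv
    rw [add_sub_cancel_right, add_assoc, add_sub_cancel]
    by_cases hw : w ∈ S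
    · rw [if_pos hw]
      have : ind S w = 1 := if_pos hw
      rw [this, one_mul]
    · rw [if_neg hw]
      have : ind S w = 0 := if_neg hw
      rw [this, zero_mul]
  rw [Finset.sum_congr rfl (fun w _ => h1 w), Finset.sum_ite_mem, Finset.univ_inter]

lemma rec_pp_congr (S : Finset G) (F : Cube D → Cube D → G) (θ : ℝ) (Φ : Cube D → Cube D → ℝ)
    {s r t : ℕ} (hsr : s ≤ r) {x x' z z' : Cube D} (hx : agree r x x') (hz : agree t z z') (w : G) :
    pp S F θ Φ s r t x z w = pp S F θ Φ s r t x' z' w := by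
  unfold pp
  rw [Mt_congr _ hz]
  refine Mt_congr_fun _ fun y _ => ?_
  rw [trans_uu_congr S F (agree_mono hsr hx) y w]
  unfold Lam
  rw [cut_of_agree hx]

theorem end_bound {S : Finset G} (hS : S.Nonempty) {F : Cube D → Cube D → G} {θ : ℝ}
    {Φ : Cube D → Cube D → ℝ} {ν : ℕ} (hF : Split F ν 0) (hΦ : Split Φ (ν + 1) 0) :
    ‖avc (fun x => avc (fun z => (KK S (F x z) : ℂ) *
        Complex.exp (Complex.I * ((θ * Φ x z : ℝ) : ℂ))))‖ ^ 2 ≤
      avc (fun x => avc (fun z => KK S (F x z))) * En' S F θ Φ ν ν := by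
  -- mass
  have hm : EE S (fun x z w => aa S F ν 0 x z w * bb S F ν (ν + 1) x z w) =
      avc (fun x => avc (fun z => KK S (F x z))) := by
    have h1 := EE_aa_bb (S := S) hF (Nat.le_succ ν) (t' := 0) le_rfl (h := fun _ _ => (1 : ℝ))
      (fun _ _ _ _ _ _ => rfl)
    simpa only [mul_one] using h1
  -- Cauchy-Schwarz
  have hcs := rec_cs S (a := aa S F ν 0) (b := bb S F ν (ν + 1))
    (p := fun x z w => ‖pp S F θ Φ ν (ν + 1) 0 x z w‖)
    (fun x z w => trans_bb_nonneg S F ν (ν + 1) x z w) (fun x z w => norm_nonneg _)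
    (fun x z w => trans_norm_pp_le S F θ Φ ν (ν + 1) 0 x z w)
  rw [hm] at hcs
  have hE : En' S F θ Φ ν ν = EE S (fun x z w => bb S F ν (ν + 1) x z w *
      ‖pp S F θ Φ ν (ν + 1) 0 x z w‖ ^ 2 / aa S F ν 0 x z w) := by
    unfold En'
    rw [Nat.sub_self]
  rw [hE]
  refine le_trans ?_ hcs
  refine pow_le_pow_left₀ (norm_nonneg _) ?_ 2
  -- the phase of `x`
  set z0 : Cube D := fun _ => false with hz0
  set ps : Cube D → ℂ := fun x =>
    Complex.exp (Complex.I * ((θ * (Φ x z0 - Φ (cut (ν + 1) x) z0) : ℝ) : ℂ)) with hps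
  have hps1 : ∀ x, ‖ps x‖ = 1 := fun x => by
    rw [hps]
    beta_reduce
    rw [mul_comm, Complex.norm_exp_ofReal_mul_I]
  have hph : ∀ x z, Complex.exp (Complex.I * ((θ * Φ x z : ℝ) : ℂ)) =
      ps x * Lam θ Φ (ν + 1) x z := by
    intro x z
    have h := hΦ x (cut (ν + 1) x) z z0 (agree_symm (agree_cut (ν + 1) x))
      (fun i hi => absurd hi (Nat.not_lt_zero _))
    rw [hps]
    unfold Lam
    beta_reduce
    rw [← Complex.exp_add, ← mul_add, ← Complex.ofReal_add]
    congr 3
    have h2 : Φ x z = (Φ x z0 - Φ (cut (ν + 1) x) z0) + Φ (cut (ν + 1) x) z := by linarith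
    rw [h2]
    ring
  -- the average over `z`
  have hz : ∀ x, avc (fun z => (KK S (F x z) : ℂ) *
      Complex.exp (Complex.I * ((θ * Φ x z : ℝ) : ℂ))) =
      (S.card : ℝ)⁻¹ • ∑ w, (vv S F ν x z0 w) • (ps x * pp S F θ Φ ν (ν + 1) 0 x z0 w) := by
    intro x
    have h1 : ∀ z, (KK S (F x z) : ℂ) * Complex.exp (Complex.I * ((θ * Φ x z : ℝ) : ℂ)) =
        (S.card : ℝ)⁻¹ • ∑ w, (vv S F ν x z0 w) • (ps x * (uu S F ν x z w •
          Lam θ Φ (ν + 1) x z)) := by
      intro z
      rw [hph, rec_KK S F ν x z]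
      have h2 : ∀ w, vv S F ν x z w = vv S F ν x z0 w := fun w =>
        trans_vv_congr S hF x (fun i hi => absurd hi (Nat.not_lt_zero _)) w
      simp only [h2, Complex.real_smul]
      push_cast
      rw [mul_assoc, Finset.sum_mul]
      congr 1
      refine Finset.sum_congr rfl fun w _ => ?_
      ring
    rw [avc_congr h1, avc_smul, avc_sum]
    congr 1
    refine Finset.sum_congr rfl fun w _ => ?_
    rw [avc_smul]
    congr 1
    unfold pp
    rw [Mt_zero]
    unfold avc
    rw [mul_smul_comm, Finset.mul_sum]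
  rw [avc_congr hz]
  -- the norm
  refine (avc_norm_le _).trans ?_
  have hn : ∀ x, ‖(S.card : ℝ)⁻¹ • ∑ w, (vv S F ν x z0 w) •
      (ps x * pp S F θ Φ ν (ν + 1) 0 x z0 w)‖ ≤
      (S.card : ℝ)⁻¹ * ∑ w, vv S F ν x z0 w * ‖pp S F θ Φ ν (ν + 1) 0 x z0 w‖ := by
    intro x
    rw [norm_smul, Real.norm_of_nonneg (by positivity)]
    refine mul_le_mul_of_nonneg_left ((norm_sum_le _ _).trans (le_of_eq ?_)) (by positivity)
    refine Finset.sum_congr rfl fun w _ => ?_
    rw [norm_smul, norm_mul, hps1, one_mul, Real.norm_of_nonneg (trans_vv_nonneg _ _ _ _ _ _)]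
  refine (avc_mono hn).trans (le_of_eq ?_)
  rw [avc_mul_left, avc_sum]
  unfold EE
  congr 1
  refine Finset.sum_congr rfl fun w _ => ?_
  -- average over x and z for fixed w
  have h3 : ∀ x, avc (fun z => bb S F ν (ν + 1) x z w * ‖pp S F θ Φ ν (ν + 1) 0 x z w‖) =
      bb S F ν (ν + 1) x z0 w * ‖pp S F θ Φ ν (ν + 1) 0 x z0 w‖ := by
    intro x
    rw [← avc_const (D := D) (bb S F ν (ν + 1) x z0 w * ‖pp S F θ Φ ν (ν + 1) 0 x z0 w‖)]
    refine avc_congr fun z => ?_
    rw [trans_bb_congr S hF (agree_refl (ν + 1) x)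
      (fun i hi => absurd hi (Nat.not_lt_zero _) : agree 0 z z0) w,
      rec_pp_congr S F θ Φ (Nat.le_succ ν) (agree_refl (ν + 1) x)
      (fun i hi => absurd hi (Nat.not_lt_zero _) : agree 0 z z0) w]
  rw [avc_congr h3]
  have h4 := avc_mul_Mt (s := ν + 1) (h := fun x => ‖pp S F θ Φ ν (ν + 1) 0 x z0 w‖)
    (fun x x' hx => by rw [rec_pp_congr S F θ Φ (Nat.le_succ ν) hx (agree_refl 0 z0) w])
    (fun x => vv S F ν x z0 w)
  calc avc (fun x => vv S F ν x z0 w * ‖pp S F θ Φ ν (ν + 1) 0 x z0 w‖)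
      = avc (fun x => ‖pp S F θ Φ ν (ν + 1) 0 x z0 w‖ * vv S F ν x z0 w) :=
        avc_congr fun x => mul_comm _ _
    _ = avc (fun x => ‖pp S F θ Φ ν (ν + 1) 0 x z0 w‖ * Mt (ν + 1) (fun x' => vv S F ν x' z0 w) x) :=
        h4.symm
    _ = _ := avc_congr fun x => by unfold bb; ring

end

end Disc32
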