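import Pool.Agent.Work.Disc32.Trans

/-!
# The end point of the recursion

Module J3b (second half) of the transfer theorem.
-/

namespace Disc32

open Finset

variable {D : ℕ}

section

variable {G : Type*} [AddCommGroup G] [DecidableEq G]

lemma recEnd_quad {p a : ℝ} (l : ℝ) (hp : 0 ≤ p) (h : p ≤ a) :
    0 ≤ a * (l * l) + (-2 * p) * l + p ^ 2 / a := by
  rcases eq_or_lt_of_le (hp.trans h) with h0 | h0
  · have hp0 : p = 0 := le_antisymm (h0 ▸ h) hp
    rw [← h0, hp0]
    simp
  · have : a * (l * l) + (-2 * p) * l + p ^ 2 / a = (l * a - p) ^ 2 / a := by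
      field_simp
      ring
    rw [this]
    positivity

lemma recEnd_pp_congr (S : Finset G) (F : Cube D → Cube D → G) (θ : ℝ) (Φ : Cube D → Cube D → ℝ)
    {s r t : ℕ} (hr : s ≤ r) {x x' : Cube D} (hx : agree r x x') (z : Cube D) (w : G) :
    pp S F θ Φ s r t x z w = pp S F θ Φ s r t x' z w := by
  unfold pp
  refine Mt_congr_fun _ (fun y _ => ?_)
  rw [trans_uu_congr S F (agree_mono hr hx) y w]
  unfold Lam
  rw [cut_of_agree hx]

lemma recEnd_re_avc (g : Cube D → ℂ) : (avc g).re = avc (fun x => (g x).re) := by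
  unfold avc
  rw [Complex.smul_re, Complex.re_sum]

variable [Fintype G]

lemma recEnd_cs (S : Finset G) (F : Cube D → Cube D → G) (θ : ℝ) (Φ : Cube D → Cube D → ℝ)
    (s r t : ℕ) :
    EE S (fun x z w => bb S F s r x z w * ‖pp S F θ Φ s r t x z w‖) ^ 2 ≤
      EE S (fun x z w => aa S F s t x z w * bb S F s r x z w) *
      EE S (fun x z w => bb S F s r x z w * ‖pp S F θ Φ s r t x z w‖ ^ 2
        / aa S F s t x z w) := by
  have key : ∀ l : ℝ, 0 ≤ EE S (fun x z w => aa S F s t x z w * bb S F s r x z w) * (l * l) +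
      (-2 * EE S (fun x z w => bb S F s r x z w * ‖pp S F θ Φ s r t x z w‖)) * l +
      EE S (fun x z w => bb S F s r x z w * ‖pp S F θ Φ s r t x z w‖ ^ 2
        / aa S F s t x z w) := by
    intro l
    have h1 : 0 ≤ EE S (fun x z w => ((l * l) * (aa S F s t x z w * bb S F s r x z w) +
        (-2 * l) * (bb S F s r x z w * ‖pp S F θ Φ s r t x z w‖)) +
        bb S F s r x z w * ‖pp S F θ Φ s r t x z w‖ ^ 2 / aa S F s t x z w) := by
      refine trans_EE_nonneg S fun x z w => ?_
      have h2 := mul_nonneg (trans_bb_nonneg S F s r x z w)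
        (recEnd_quad l (norm_nonneg _) (trans_norm_pp_le S F θ Φ s r t x z w))
      calc (0 : ℝ) ≤ _ := h2
        _ = _ := by ring
    rw [trans_EE_add, trans_EE_add, trans_EE_const_mul, trans_EE_const_mul] at h1
    linarith
  have h3 := discrim_le_zero key
  unfold discrim at h3
  nlinarith

theorem end_bound {S : Finset G} (hS : S.Nonempty) {F : Cube D → Cube D → G} {θ : ℝ}
    {Φ : Cube D → Cube D → ℝ} {ν : ℕ} (hF : Split F ν 0) (hΦ : Split Φ (ν + 1) 0) :
    ‖avc (fun x => avc (fun z => (KK S (F x z) : ℂ) *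
        Complex.exp (Complex.I * ((θ * Φ x z : ℝ) : ℂ))))‖ ^ 2 ≤
      avc (fun x => avc (fun z => KK S (F x z))) * En' S F θ Φ ν ν := by
  have _ := hS
  -- rotate
  obtain ⟨c, hc1, hc2⟩ := RCLike.exists_norm_eq_mul_self
    (avc (fun x => avc (fun z => (KK S (F x z) : ℂ) *
        Complex.exp (Complex.I * ((θ * Φ x z : ℝ) : ℂ)))))
  have h1 : ‖avc (fun x => avc (fun z => (KK S (F x z) : ℂ) *
        Complex.exp (Complex.I * ((θ * Φ x z : ℝ) : ℂ))))‖ =
      avc (fun x => avc (fun z => KK S (F x z) *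
        (c * Complex.exp (Complex.I * ((θ * Φ x z : ℝ) : ℂ))).re)) := by
    have h2 := congrArg Complex.re hc2
    have h3 : ∀ g : Cube D → ℂ, c * avc g = avc (fun x => c * g x) := by
      intro g
      unfold avc
      rw [mul_smul_comm, Finset.mul_sum]
    rw [h3, recEnd_re_avc] at h2
    have h4 : ∀ r : ℝ, ((r : ℂ)).re = r := Complex.ofReal_re
    calc _ = _ := (h4 _).symm
      _ = _ := h2
      _ = _ := avc_congr fun x => by
        rw [h3, recEnd_re_avc]
        refine avc_congr fun z => ?_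
        rw [mul_left_comm, Complex.re_ofReal_mul]
  -- mass identity
  rw [h1, ← mass F ν]
  -- the pointwise bound after averaging over `z`
  have h5 : EE S (fun x z w => uu S F ν x z w * vv S F ν x z w *
      (c * Complex.exp (Complex.I * ((θ * Φ x z : ℝ) : ℂ))).re) ≤
      EE S (fun x z w => bb S F ν (ν + 1) x z w * ‖pp S F θ Φ ν (ν + 1) (ν - ν) x z w‖) := by
    unfold EE
    refine mul_le_mul_of_nonneg_left (Finset.sum_le_sum fun w _ => ?_) (by positivity)
    have h6 : avc (fun x => avc (fun z => bb S F ν (ν + 1) x z w *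
        ‖pp S F θ Φ ν (ν + 1) (ν - ν) x z w‖)) =
        avc (fun x => avc (fun z => vv S F ν x z w *
        ‖pp S F θ Φ ν (ν + 1) (ν - ν) x z w‖)) := by
      rw [avc_comm, avc_comm (fun x z => vv S F ν x z w *
        ‖pp S F θ Φ ν (ν + 1) (ν - ν) x z w‖)]
      refine avc_congr fun z => ?_
      have := avc_mul_Mt (s := ν + 1)
        (h := fun x => ‖pp S F θ Φ ν (ν + 1) (ν - ν) x z w‖)
        (fun x x' hx => by rw [recEnd_pp_congr S F θ Φ (by omega) hx z w])
        (fun x => vv S F ν x z w)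
      calc _ = avc (fun x => ‖pp S F θ Φ ν (ν + 1) (ν - ν) x z w‖ *
            Mt (ν + 1) (fun x' => vv S F ν x' z w) x) :=
            avc_congr fun x => by unfold bb; ring
        _ = _ := this
        _ = _ := avc_congr fun x => by ring
    rw [h6]
    refine avc_mono fun x => ?_
    -- fixed `x` and `w`
    have hz0 : ∀ z z' : Cube D, agree 0 z z' := fun z z' i hi => absurd hi (Nat.not_lt_zero _)
    set z0 : Cube D := fun _ => false with hz0def
    have hv : ∀ z, vv S F ν x z w = vv S F ν x z0 w :=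
      fun z => trans_vv_congr S hF x (hz0 z z0) w
    have hL : ∀ z, Complex.exp (Complex.I * ((θ * Φ x z : ℝ) : ℂ)) =
        Complex.exp (Complex.I * ((θ * (Φ x z0 - Φ (cut (ν + 1) x) z0) : ℝ) : ℂ)) *
          Lam θ Φ (ν + 1) x z := by
      intro z
      unfold Lam
      rw [← Complex.exp_add, ← mul_add, ← Complex.ofReal_add]
      congr 3
      have := hΦ x (cut (ν + 1) x) z z0 (agree_symm (agree_cut _ _)) (hz0 _ _)
      have h7 : Φ x z = Φ x z0 - Φ (cut (ν + 1) x) z0 + Φ (cut (ν + 1) x) z := by linarith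
      rw [h7]
      ring
    set e0 : ℂ := Complex.exp (Complex.I * ((θ * (Φ x z0 - Φ (cut (ν + 1) x) z0) : ℝ) : ℂ))
      with he0
    have he0n : ‖e0‖ = 1 := by
      rw [he0, mul_comm, Complex.norm_exp_ofReal_mul_I]
    have hpp : ∀ z, pp S F θ Φ ν (ν + 1) (ν - ν) x z w =
        avc (fun z' => uu S F ν x z' w • Lam θ Φ (ν + 1) x z') := by
      intro z
      unfold pp
      rw [Nat.sub_self, Mt_zero]
    have hR : avc (fun z => vv S F ν x z w * ‖pp S F θ Φ ν (ν + 1) (ν - ν) x z w‖) =
        vv S F ν x z0 w * ‖avc (fun z' => uu S F ν x z' w • Lam θ Φ (ν + 1) x z')‖ := by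
      rw [avc_congr (fun z => by rw [hv z, hpp z]), avc_const]
    rw [hR]
    have hLft : avc (fun z => uu S F ν x z w * vv S F ν x z w *
        (c * Complex.exp (Complex.I * ((θ * Φ x z : ℝ) : ℂ))).re) =
        vv S F ν x z0 w *
          ((c * e0) * avc (fun z' => uu S F ν x z' w • Lam θ Φ (ν + 1) x z')).re := by
      have h8 : (c * e0) * avc (fun z' => uu S F ν x z' w • Lam θ Φ (ν + 1) x z') =
          avc (fun z' => (c * e0) * (uu S F ν x z' w • Lam θ Φ (ν + 1) x z')) := by
        unfold avc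
        rw [mul_smul_comm, Finset.mul_sum]
      rw [h8, recEnd_re_avc, ← avc_mul_left]
      refine avc_congr fun z => ?_
      rw [hv z, hL z, mul_smul_comm, Complex.smul_re, smul_eq_mul, mul_assoc c e0]
      ring
    rw [hLft]
    refine mul_le_mul_of_nonneg_left ?_ (trans_vv_nonneg _ _ _ _ _ _)
    refine (Complex.re_le_norm _).trans ?_
    rw [norm_mul, norm_mul, hc1, he0n, one_mul, one_mul]
  -- Cauchy-Schwarz
  have h0 : 0 ≤ EE S (fun x z w => uu S F ν x z w * vv S F ν x z w *
      (c * Complex.exp (Complex.I * ((θ * Φ x z : ℝ) : ℂ))).re) := by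
    rw [mass F ν, ← h1]
    exact norm_nonneg _
  have h9 := recEnd_cs S F θ Φ ν (ν + 1) (ν - ν)
  have h10 := EE_aa_bb (S := S) (F := F) (s := ν) (t := 0) (r := ν + 1) hF (by omega)
    (t' := ν - ν) (Nat.zero_le _) (h := fun _ _ => (1 : ℝ)) (fun _ _ _ _ _ _ => rfl)
  simp only [mul_one] at h10
  rw [h10] at h9
  unfold En'
  exact (pow_le_pow_left₀ h0 h5 2).trans h9

end

end Disc32
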