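import Mathlib

/-! # The per state inequality of the transfer theorem (helper34) -/

set_option autoImplicit false

namespace Disc32.PS

theorem core_id {c s g b p q r t : ℝ} (hcs : c ^ 2 + s ^ 2 = 1) {np nm Eh Ek : ℝ}
    (hnp : np = (c * (p + g * r) - s * (g * q + t)) ^ 2 + (c * (q + g * t) + s * (g * p + r)) ^ 2)
    (hnm : nm = (c * (p + g * r) + s * (g * q + t)) ^ 2 + (c * (q + g * t) - s * (g * p + r)) ^ 2)
    (hEk : Ek = (1 + b) / 2 * np + (1 - b) / 2 * nm)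
    (hEh : Eh = (1 + g) / 2 * ((p + r) ^ 2 + (q + t) ^ 2) +
      (1 - g) / 2 * ((p - r) ^ 2 + (q - t) ^ 2)) :
    Eh - Ek = (1 - g ^ 2) * ((1 - b ^ 2) * s ^ 2 * (p ^ 2 + q ^ 2)) +
      (1 - g ^ 2) * ((c * r - b * s * q) ^ 2 + (c * t + b * s * p) ^ 2) := by
  subst hEk hEh hnp hnm
  linear_combination (-(p ^ 2 + q ^ 2 + g ^ 2 * (r ^ 2 + t ^ 2) + 2 * g * (p * r + q * t))
      + (g ^ 2 - 1) * (r ^ 2 + t ^ 2)) * hcs

theorem sq_two (x y : ℝ) : (x + y) ^ 2 ≤ 2 * x ^ 2 + 2 * y ^ 2 := by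
  linarith [sq_nonneg (x - y), show 2 * x ^ 2 + 2 * y ^ 2 = (x + y) ^ 2 + (x - y) ^ 2 by ring]

theorem sq_two' (x y : ℝ) : (x - y) ^ 2 ≤ 2 * x ^ 2 + 2 * y ^ 2 := by
  linarith [sq_nonneg (x + y), show 2 * x ^ 2 + 2 * y ^ 2 = (x + y) ^ 2 + (x - y) ^ 2 by ring]

theorem n_le {c s u1 u2 v1 v2 K : ℝ} (hcs : c ^ 2 + s ^ 2 = 1) (hV : v1 ^ 2 + v2 ^ 2 ≤ 1)
    (hU : u1 ^ 2 + u2 ^ 2 ≤ K) :
    (c * u1 - s * v2) ^ 2 + (c * u2 + s * v1) ^ 2 ≤ 2 * K + 2 * s ^ 2 ∧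
    (c * u1 + s * v2) ^ 2 + (c * u2 - s * v1) ^ 2 ≤ 2 * K + 2 * s ^ 2 := by
  have hc1 : c ^ 2 ≤ 1 := by linarith [sq_nonneg s]
  have hUn : 0 ≤ u1 ^ 2 + u2 ^ 2 := by positivity
  have h7 : s ^ 2 * (v1 ^ 2 + v2 ^ 2) ≤ s ^ 2 * 1 := mul_le_mul_of_nonneg_left hV (sq_nonneg s)
  have h8 : c ^ 2 * (u1 ^ 2 + u2 ^ 2) ≤ 1 * (u1 ^ 2 + u2 ^ 2) :=
    mul_le_mul_of_nonneg_right hc1 hUn
  have e1 : (c * u1) ^ 2 + (c * u2) ^ 2 = c ^ 2 * (u1 ^ 2 + u2 ^ 2) := by ring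
  have e2 : (s * v2) ^ 2 + (s * v1) ^ 2 = s ^ 2 * (v1 ^ 2 + v2 ^ 2) := by ring
  constructor
  · linarith [sq_two' (c * u1) (s * v2), sq_two (c * u2) (s * v1)]
  · linarith [sq_two (c * u1) (s * v2), sq_two' (c * u2) (s * v1)]

/-- normalised real form: `X = H0 + H1`, `Y = H0 - H1`, `H0 = (p, q)`, `H1 = (r, t)` -/
theorem core_norm {c s g b p q r t : ℝ} (hcs : c ^ 2 + s ^ 2 = 1) (hg : g ^ 2 ≤ 1)
    (hb : b ^ 2 ≤ 1) (hX : (p + r) ^ 2 + (q + t) ^ 2 ≤ 1) (hY : (p - r) ^ 2 + (q - t) ^ 2 ≤ 1)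
    {np nm Eh Ek : ℝ}
    (hnp : np = (c * (p + g * r) - s * (g * q + t)) ^ 2 + (c * (q + g * t) + s * (g * p + r)) ^ 2)
    (hnm : nm = (c * (p + g * r) + s * (g * q + t)) ^ 2 + (c * (q + g * t) - s * (g * p + r)) ^ 2)
    (hEk : Ek = (1 + b) / 2 * np + (1 - b) / 2 * nm)
    (hEh : Eh = (1 + g) / 2 * ((p + r) ^ 2 + (q + t) ^ 2) +
      (1 - g) / 2 * ((p - r) ^ 2 + (q - t) ^ 2)) :
    0 ≤ Eh - Ek ∧ s ^ 2 * (Ek / 4 - s ^ 2 / 2 - 2 * g ^ 2 - b ^ 2) ≤ Eh - Ek := by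
  have hid := core_id hcs hnp hnm hEk hEh
  have hH : p ^ 2 + q ^ 2 + (r ^ 2 + t ^ 2) ≤ 1 := by
    linarith [show (p + r) ^ 2 + (q + t) ^ 2 + ((p - r) ^ 2 + (q - t) ^ 2) =
      2 * (p ^ 2 + q ^ 2 + (r ^ 2 + t ^ 2)) by ring]
  have hH0 : p ^ 2 + q ^ 2 ≤ 1 := by linarith [sq_nonneg r, sq_nonneg t]
  have hH1 : r ^ 2 + t ^ 2 ≤ 1 := by linarith [sq_nonneg p, sq_nonneg q]
  have hg' : 0 ≤ 1 - g ^ 2 := by linarith
  have hb' : 0 ≤ 1 - b ^ 2 := by linarith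
  have hHn : 0 ≤ p ^ 2 + q ^ 2 := by positivity
  have h0 : 0 ≤ (1 - g ^ 2) * ((1 - b ^ 2) * s ^ 2 * (p ^ 2 + q ^ 2)) :=
    mul_nonneg hg' (mul_nonneg (mul_nonneg hb' (sq_nonneg s)) hHn)
  have h1 : 0 ≤ (1 - g ^ 2) * ((c * r - b * s * q) ^ 2 + (c * t + b * s * p) ^ 2) :=
    mul_nonneg hg' (by positivity)
  have hlow : (1 - g ^ 2) * ((1 - b ^ 2) * s ^ 2 * (p ^ 2 + q ^ 2)) ≤ Eh - Ek := by
    rw [hid]; linarith
  refine ⟨h0.trans hlow, le_trans ?_ hlow⟩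
  have hgg : |g| ≤ 1 := (sq_le_one_iff_abs_le_one g).1 hg
  have hbb : |b| ≤ 1 := (sq_le_one_iff_abs_le_one b).1 hb
  obtain ⟨hg1, hg2⟩ := abs_le.1 hgg
  obtain ⟨hb1, hb2⟩ := abs_le.1 hbb
  have hV : (g * p + r) ^ 2 + (g * q + t) ^ 2 ≤ 1 := by
    have h2 : (1 + g) / 2 * ((p + r) ^ 2 + (q + t) ^ 2) +
        (1 - g) / 2 * ((p - r) ^ 2 + (q - t) ^ 2)
        - ((g * p + r) ^ 2 + (g * q + t) ^ 2) = (1 - g ^ 2) * (p ^ 2 + q ^ 2) := by ring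
    have h3 : 0 ≤ (1 - g ^ 2) * (p ^ 2 + q ^ 2) := mul_nonneg hg' hHn
    have h31 := mul_le_mul_of_nonneg_left hX (by linarith : 0 ≤ (1 + g) / 2)
    have h32 := mul_le_mul_of_nonneg_left hY (by linarith : 0 ≤ (1 - g) / 2)
    linarith
  have hU : (p + g * r) ^ 2 + (q + g * t) ^ 2 ≤ 2 * (p ^ 2 + q ^ 2) + 2 * g ^ 2 := by
    have h5 : g ^ 2 * (r ^ 2 + t ^ 2) ≤ g ^ 2 * 1 := mul_le_mul_of_nonneg_left hH1 (sq_nonneg g)
    linarith [sq_two p (g * r), sq_two q (g * t),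
      show (g * r) ^ 2 + (g * t) ^ 2 = g ^ 2 * (r ^ 2 + t ^ 2) by ring]
  obtain ⟨hnp', hnm'⟩ := n_le hcs hV hU
  rw [← hnp] at hnp'
  rw [← hnm] at hnm'
  have hEk' : Ek ≤ 4 * (p ^ 2 + q ^ 2) + 4 * g ^ 2 + 2 * s ^ 2 := by
    rw [hEk]
    have h14 := mul_le_mul_of_nonneg_left hnp' (by linarith : 0 ≤ (1 + b) / 2)
    have h15 := mul_le_mul_of_nonneg_left hnm' (by linarith : 0 ≤ (1 - b) / 2)
    linarith
  have h9 : (p ^ 2 + q ^ 2) - g ^ 2 - b ^ 2 ≤ (1 - g ^ 2) * ((1 - b ^ 2) * (p ^ 2 + q ^ 2)) := by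
    have h10 : 0 ≤ g ^ 2 * b ^ 2 * (p ^ 2 + q ^ 2) := by positivity
    have h11 : g ^ 2 * (p ^ 2 + q ^ 2) ≤ g ^ 2 * 1 := mul_le_mul_of_nonneg_left hH0 (sq_nonneg g)
    have h12 : b ^ 2 * (p ^ 2 + q ^ 2) ≤ b ^ 2 * 1 := mul_le_mul_of_nonneg_left hH0 (sq_nonneg b)
    linarith [show (1 - g ^ 2) * ((1 - b ^ 2) * (p ^ 2 + q ^ 2)) = (p ^ 2 + q ^ 2)
      - g ^ 2 * (p ^ 2 + q ^ 2) - b ^ 2 * (p ^ 2 + q ^ 2)
      + g ^ 2 * b ^ 2 * (p ^ 2 + q ^ 2) by ring]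
  have h13 : Ek / 4 - s ^ 2 / 2 - 2 * g ^ 2 - b ^ 2 ≤
      (1 - g ^ 2) * ((1 - b ^ 2) * (p ^ 2 + q ^ 2)) := by linarith
  calc s ^ 2 * (Ek / 4 - s ^ 2 / 2 - 2 * g ^ 2 - b ^ 2)
      ≤ s ^ 2 * ((1 - g ^ 2) * ((1 - b ^ 2) * (p ^ 2 + q ^ 2))) :=
        mul_le_mul_of_nonneg_left h13 (sq_nonneg s)
    _ = (1 - g ^ 2) * ((1 - b ^ 2) * s ^ 2 * (p ^ 2 + q ^ 2)) := by ring

open Complex in
theorem wre (a b α : ℝ) (X Y : ℂ) :
    ‖Complex.exp (α * I) * (a * X) + Complex.exp (-(α * I)) * (b * Y)‖ ^ 2 =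
      (a * (Real.cos α * X.re - Real.sin α * X.im) +
        b * (Real.cos α * Y.re + Real.sin α * Y.im)) ^ 2 +
      (a * (Real.cos α * X.im + Real.sin α * X.re) +
        b * (Real.cos α * Y.im - Real.sin α * Y.re)) ^ 2 := by
  have h1 : Complex.exp (α * I) = ⟨Real.cos α, Real.sin α⟩ := by
    apply Complex.ext
    · simp [Complex.exp_re]
    · simp [Complex.exp_im]
  have h2 : Complex.exp (-(α * I)) = ⟨Real.cos α, -Real.sin α⟩ := by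
    apply Complex.ext
    · simp [Complex.exp_re]
    · simp [Complex.exp_im]
  rw [h1, h2, ← Complex.normSq_eq_norm_sq, Complex.normSq_apply]
  simp only [Complex.add_re, Complex.mul_re, Complex.ofReal_re, Complex.ofReal_im,
    Complex.add_im, Complex.mul_im]
  ring

/-- the per state inequality in terms of `X, Y` (phases already symmetrised) -/
theorem per_XY {ap am bp bm α : ℝ} (hap : 0 ≤ ap) (ham : 0 ≤ am) (hbp : 0 ≤ bp) (hbm : 0 ≤ bm)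
    {X Y : ℂ} (hX : ‖X‖ ≤ 1) (hY : ‖Y‖ ≤ 1) (hA : 0 < ap + am) (hB : 0 < bp + bm) {Np Nm : ℝ}
    (hNp : Np = ‖Complex.exp (α * Complex.I) * (ap * X) +
      Complex.exp (-(α * Complex.I)) * (am * Y)‖ ^ 2)
    (hNm : Nm = ‖Complex.exp (-(α * Complex.I)) * (ap * X) +
      Complex.exp (α * Complex.I) * (am * Y)‖ ^ 2) :
    0 ≤ (bp + bm) * (ap * ‖X‖ ^ 2 + am * ‖Y‖ ^ 2) - (bp * Np + bm * Nm) / (ap + am) ∧
    Real.sin α ^ 2 * (1 / 4 * ((bp * Np + bm * Nm) / (ap + am)) -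
      1 / 2 * Real.sin α ^ 2 * ((ap + am) * (bp + bm)) -
      2 * ((bp + bm) * (ap - am) ^ 2 / (ap + am)) - (ap + am) * (bp - bm) ^ 2 / (bp + bm)) ≤
      (bp + bm) * (ap * ‖X‖ ^ 2 + am * ‖Y‖ ^ 2) - (bp * Np + bm * Nm) / (ap + am) := by
  have hcs : Real.cos α ^ 2 + Real.sin α ^ 2 = 1 := by
    rw [add_comm]; exact Real.sin_sq_add_cos_sq α
  have hNm' : Nm = ‖Complex.exp (((-α : ℝ) : ℂ) * Complex.I) * (ap * X) +
      Complex.exp (-(((-α : ℝ) : ℂ) * Complex.I)) * (am * Y)‖ ^ 2 := by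
    rw [hNm]; push_cast; simp only [neg_mul, neg_neg]
  rw [wre] at hNp hNm'
  rw [Real.cos_neg, Real.sin_neg] at hNm'
  have hX2 : ‖X‖ ^ 2 = X.re ^ 2 + X.im ^ 2 := by
    rw [← Complex.normSq_eq_norm_sq, Complex.normSq_apply]; ring
  have hY2 : ‖Y‖ ^ 2 = Y.re ^ 2 + Y.im ^ 2 := by
    rw [← Complex.normSq_eq_norm_sq, Complex.normSq_apply]; ring
  have hX1 : X.re ^ 2 + X.im ^ 2 ≤ 1 := by rw [← hX2]; exact pow_le_one₀ (norm_nonneg _) hX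
  have hY1 : Y.re ^ 2 + Y.im ^ 2 ≤ 1 := by rw [← hY2]; exact pow_le_one₀ (norm_nonneg _) hY
  set A := ap + am with hAd
  set B := bp + bm with hBd
  set g := (ap - am) / A with hg
  set b := (bp - bm) / B with hb
  have hgA : g * A = ap - am := by rw [hg]; field_simp
  have hbB : b * B = bp - bm := by rw [hb]; field_simp
  have hap' : ap = A * (1 + g) / 2 := by linarith
  have ham' : am = A * (1 - g) / 2 := by linarith
  have hbp' : bp = B * (1 + b) / 2 := by linarith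
  have hbm' : bm = B * (1 - b) / 2 := by linarith
  have hg1 : g ^ 2 ≤ 1 := by
    have h1 : |g| ≤ 1 := by
      rw [hg, abs_div, abs_of_pos hA, div_le_one hA, abs_le]; constructor <;> linarith
    exact (sq_le_one_iff_abs_le_one g).2 h1
  have hb1 : b ^ 2 ≤ 1 := by
    have h1 : |b| ≤ 1 := by
      rw [hb, abs_div, abs_of_pos hB, div_le_one hB, abs_le]; constructor <;> linarith
    exact (sq_le_one_iff_abs_le_one b).2 h1
  obtain ⟨h1, h2⟩ := core_norm (c := Real.cos α) (s := Real.sin α) (g := g) (b := b)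
    (p := (X.re + Y.re) / 2) (q := (X.im + Y.im) / 2) (r := (X.re - Y.re) / 2)
    (t := (X.im - Y.im) / 2) hcs hg1 hb1 (by
      rw [show (X.re + Y.re) / 2 + (X.re - Y.re) / 2 = X.re by ring,
        show (X.im + Y.im) / 2 + (X.im - Y.im) / 2 = X.im by ring]; exact hX1) (by
      rw [show (X.re + Y.re) / 2 - (X.re - Y.re) / 2 = Y.re by ring,
        show (X.im + Y.im) / 2 - (X.im - Y.im) / 2 = Y.im by ring]; exact hY1)
    (np := Np / A ^ 2) (nm := Nm / A ^ 2)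
    (Eh := (1 + g) / 2 * ‖X‖ ^ 2 + (1 - g) / 2 * ‖Y‖ ^ 2)
    (Ek := (1 + b) / 2 * (Np / A ^ 2) + (1 - b) / 2 * (Nm / A ^ 2))
    (by
      rw [div_eq_iff (by positivity), hNp, hap', ham']; ring)
    (by
      rw [div_eq_iff (by positivity), hNm', hap', ham']; ring)
    rfl
    (by
      rw [hX2, hY2, show (X.re + Y.re) / 2 + (X.re - Y.re) / 2 = X.re by ring,
        show (X.im + Y.im) / 2 + (X.im - Y.im) / 2 = X.im by ring,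
        show (X.re + Y.re) / 2 - (X.re - Y.re) / 2 = Y.re by ring,
        show (X.im + Y.im) / 2 - (X.im - Y.im) / 2 = Y.im by ring])
  have e1 : (bp * Np + bm * Nm) / A =
      A * B * ((1 + b) / 2 * (Np / A ^ 2) + (1 - b) / 2 * (Nm / A ^ 2)) := by
    rw [hbp', hbm']; field_simp
  have e2 : B * (ap * ‖X‖ ^ 2 + am * ‖Y‖ ^ 2) =
      A * B * ((1 + g) / 2 * ‖X‖ ^ 2 + (1 - g) / 2 * ‖Y‖ ^ 2) := by
    rw [hap', ham']; ring
  have e3 : B * (ap - am) ^ 2 / A = A * B * g ^ 2 := by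
    rw [← hgA]; field_simp
  have e4 : A * (bp - bm) ^ 2 / B = A * B * b ^ 2 := by
    rw [← hbB]; field_simp
  have hAB : 0 < A * B := mul_pos hA hB
  rw [e1, e2, e3, e4]
  constructor
  · rw [← mul_sub]; exact mul_nonneg hAB.le h1
  · have h3 := mul_le_mul_of_nonneg_left h2 hAB.le
    linarith [h3]

/-- the general case, `A, B > 0` -/
theorem per_gen {a1 a0 b1 b0 : ℝ} (ha1 : 0 ≤ a1) (ha0 : 0 ≤ a0) (hb1 : 0 ≤ b1) (hb0 : 0 ≤ b0)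
    {p1 p0 : ℂ} (hp1 : ‖p1‖ ≤ a1) (hp0 : ‖p0‖ ≤ a0) (f1 f0 : ℝ) :
    0 ≤ (b1 + b0) * (‖p1‖ ^ 2 / a1 + ‖p0‖ ^ 2 / a0) -
      (b1 * ‖Complex.exp (Complex.I * (f1 : ℂ)) * p1 + Complex.exp (Complex.I * (f0 : ℂ)) * p0‖ ^ 2
        + b0 * ‖p1 + p0‖ ^ 2) / (a1 + a0) ∧
    Real.sin ((f1 - f0) / 4) ^ 2 *
      (1 / 4 * ((b1 * ‖Complex.exp (Complex.I * (f1 : ℂ)) * p1
          + Complex.exp (Complex.I * (f0 : ℂ)) * p0‖ ^ 2 + b0 * ‖p1 + p0‖ ^ 2) / (a1 + a0))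
        - 1 / 2 * Real.sin ((f1 - f0) / 4) ^ 2 * ((a1 + a0) * (b1 + b0))
        - 2 * ((b1 + b0) * (a1 - a0) ^ 2 / (a1 + a0)) - (a1 + a0) * (b1 - b0) ^ 2 / (b1 + b0)) ≤
    (b1 + b0) * (‖p1‖ ^ 2 / a1 + ‖p0‖ ^ 2 / a0) -
      (b1 * ‖Complex.exp (Complex.I * (f1 : ℂ)) * p1 + Complex.exp (Complex.I * (f0 : ℂ)) * p0‖ ^ 2
        + b0 * ‖p1 + p0‖ ^ 2) / (a1 + a0) := by
  rcases (add_nonneg ha1 ha0).eq_or_lt with hA | hA
  · have h1 : a1 = 0 := by linarith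
    have h0 : a0 = 0 := by linarith
    subst h1 h0
    have e1 : p1 = 0 := norm_le_zero_iff.1 hp1
    have e0 : p0 = 0 := norm_le_zero_iff.1 hp0
    subst e1 e0
    simp
  rcases (add_nonneg hb1 hb0).eq_or_lt with hB | hB
  · have h1 : b1 = 0 := by linarith
    have h0 : b0 = 0 := by linarith
    subst h1 h0
    simp
  set α : ℝ := (f1 - f0) / 4 with hα
  set β : ℝ := (f1 + f0) / 2 with hβ
  set X : ℂ := Complex.exp (α * Complex.I) * (p1 / a1) with hX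
  set Y : ℂ := Complex.exp (-(α * Complex.I)) * (p0 / a0) with hY
  have n1 : ‖Complex.exp (α * Complex.I)‖ = 1 := Complex.norm_exp_ofReal_mul_I α
  have n2 : ‖Complex.exp (-(α * Complex.I))‖ = 1 := by
    have := Complex.norm_exp_ofReal_mul_I (-α)
    push_cast at this
    rwa [neg_mul] at this
  have nX : ‖X‖ = ‖p1‖ / a1 := by
    rw [hX, norm_mul, n1, one_mul, norm_div, Complex.norm_real, Real.norm_of_nonneg ha1]
  have nY : ‖Y‖ = ‖p0‖ / a0 := by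
    rw [hY, norm_mul, n2, one_mul, norm_div, Complex.norm_real, Real.norm_of_nonneg ha0]
  have hX1 : ‖X‖ ≤ 1 := by rw [nX]; exact div_le_one_of_le₀ hp1 ha1
  have hY1 : ‖Y‖ ≤ 1 := by rw [nY]; exact div_le_one_of_le₀ hp0 ha0
  have c1 : (a1 : ℂ) * (p1 / a1) = p1 := by
    rcases ha1.eq_or_lt with h | h
    · subst h
      have e1 : p1 = 0 := norm_le_zero_iff.1 hp1
      simp [e1]
    · have hne : (a1 : ℂ) ≠ 0 := by exact_mod_cast h.ne'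
      field_simp
  have c0 : (a0 : ℂ) * (p0 / a0) = p0 := by
    rcases ha0.eq_or_lt with h | h
    · subst h
      have e1 : p0 = 0 := norm_le_zero_iff.1 hp0
      simp [e1]
    · have hne : (a0 : ℂ) ≠ 0 := by exact_mod_cast h.ne'
      field_simp
  have e12 : Complex.exp (α * Complex.I) * Complex.exp (-(α * Complex.I)) = 1 := by
    rw [← Complex.exp_add, add_neg_cancel, Complex.exp_zero]
  have km : p1 + p0 = Complex.exp (-(α * Complex.I)) * (a1 * X) +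
      Complex.exp (α * Complex.I) * (a0 * Y) := by
    rw [hX, hY]
    calc p1 + p0 = (Complex.exp (α * Complex.I) * Complex.exp (-(α * Complex.I))) * (a1 * (p1 / a1))
          + (Complex.exp (α * Complex.I) * Complex.exp (-(α * Complex.I))) * (a0 * (p0 / a0)) := by
            rw [e12, c1, c0]; ring
      _ = _ := by ring
  have kp : Complex.exp (Complex.I * (f1 : ℂ)) * p1 + Complex.exp (Complex.I * (f0 : ℂ)) * p0 =
      Complex.exp (β * Complex.I) * (Complex.exp (α * Complex.I) * (a1 * X) +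
      Complex.exp (-(α * Complex.I)) * (a0 * Y)) := by
    have h1 : Complex.exp (Complex.I * (f1 : ℂ)) = Complex.exp (β * Complex.I) *
        (Complex.exp (α * Complex.I) * Complex.exp (α * Complex.I)) := by
      rw [← Complex.exp_add, ← Complex.exp_add]
      congr 1
      rw [hα, hβ]; push_cast; ring
    have h0 : Complex.exp (Complex.I * (f0 : ℂ)) = Complex.exp (β * Complex.I) *
        (Complex.exp (-(α * Complex.I)) * Complex.exp (-(α * Complex.I))) := by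
      rw [← Complex.exp_add, ← Complex.exp_add]
      congr 1
      rw [hα, hβ]; push_cast; ring
    rw [h1, h0, hX, hY]
    set E := Complex.exp (β * Complex.I)
    set E1 := Complex.exp (α * Complex.I)
    set E2 := Complex.exp (-(α * Complex.I))
    calc E * (E1 * E1) * p1 + E * (E2 * E2) * p0
        = E * (E1 * E1) * (a1 * (p1 / a1)) + E * (E2 * E2) * (a0 * (p0 / a0)) := by rw [c1, c0]
      _ = _ := by ring
  have nkp : ‖Complex.exp (Complex.I * (f1 : ℂ)) * p1 + Complex.exp (Complex.I * (f0 : ℂ)) * p0‖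
      = ‖Complex.exp (α * Complex.I) * (a1 * X) + Complex.exp (-(α * Complex.I)) * (a0 * Y)‖ := by
    rw [kp, norm_mul, Complex.norm_exp_ofReal_mul_I, one_mul]
  have q1 : ‖p1‖ ^ 2 / a1 = a1 * ‖X‖ ^ 2 := by
    rw [nX]
    rcases ha1.eq_or_lt with h | h
    · subst h; simp
    · field_simp
  have q0 : ‖p0‖ ^ 2 / a0 = a0 * ‖Y‖ ^ 2 := by
    rw [nY]
    rcases ha0.eq_or_lt with h | h
    · subst h; simp
    · field_simp
  have := per_XY (α := α) ha1 ha0 hb1 hb0 hX1 hY1 hA hB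
    (Np := ‖Complex.exp (Complex.I * (f1 : ℂ)) * p1 + Complex.exp (Complex.I * (f0 : ℂ)) * p0‖ ^ 2)
    (Nm := ‖p1 + p0‖ ^ 2) (by rw [nkp]) (by rw [km])
  rw [q1, q0]
  exact this

end Disc32.PS

namespace Disc32

/-- left side nonnegative -/
theorem state_nonneg {a1 a0 b1 b0 : ℝ} (ha1 : 0 ≤ a1) (ha0 : 0 ≤ a0) (hb1 : 0 ≤ b1) (hb0 : 0 ≤ b0)
    {p1 p0 : ℂ} (hp1 : ‖p1‖ ≤ a1) (hp0 : ‖p0‖ ≤ a0) (f1 f0 : ℝ) :
    (b1 * ‖Complex.exp (Complex.I * (f1 : ℂ)) * p1 + Complex.exp (Complex.I * (f0 : ℂ)) * p0‖ ^ 2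
        + b0 * ‖p1 + p0‖ ^ 2) / (a1 + a0) ≤
      (b1 + b0) * (‖p1‖ ^ 2 / a1 + ‖p0‖ ^ 2 / a0) :=
  sub_nonneg.1 (PS.per_gen ha1 ha0 hb1 hb0 hp1 hp0 f1 f0).1

theorem state_ineq {a1 a0 b1 b0 : ℝ} (ha1 : 0 ≤ a1) (ha0 : 0 ≤ a0) (hb1 : 0 ≤ b1) (hb0 : 0 ≤ b0)
    {p1 p0 : ℂ} (hp1 : ‖p1‖ ≤ a1) (hp0 : ‖p0‖ ≤ a0) (f1 f0 : ℝ) :
    Real.sin ((f1 - f0) / 4) ^ 2 *
      ((b1 * ‖Complex.exp (Complex.I * (f1 : ℂ)) * p1
          + Complex.exp (Complex.I * (f0 : ℂ)) * p0‖ ^ 2 + b0 * ‖p1 + p0‖ ^ 2) / (a1 + a0) / 4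
        - Real.sin ((f1 - f0) / 4) ^ 2 * ((a1 + a0) * (b1 + b0)) / 2
        - 2 * ((b1 + b0) * (a1 - a0) ^ 2 / (a1 + a0)) - (a1 + a0) * (b1 - b0) ^ 2 / (b1 + b0)) ≤
    (b1 + b0) * (‖p1‖ ^ 2 / a1 + ‖p0‖ ^ 2 / a0) -
      (b1 * ‖Complex.exp (Complex.I * (f1 : ℂ)) * p1 + Complex.exp (Complex.I * (f0 : ℂ)) * p0‖ ^ 2
        + b0 * ‖p1 + p0‖ ^ 2) / (a1 + a0) := by
  refine le_trans (le_of_eq ?_) (PS.per_gen ha1 ha0 hb1 hb0 hp1 hp0 f1 f0).2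
  ring

end Disc32
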