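import Pool.Agent.Work.Disc32.State
import Pool.Agent.Work.Disc32.Trans

/-! # The energy drop at one interface (helper34) -/

set_option linter.unusedSectionVars false

namespace Disc32

open Finset

variable {D : ℕ}

section

variable {G : Type*} [AddCommGroup G] [DecidableEq G]

/-! ### dependence -/

lemma st_uu_setb_x (S : Finset G) (F : Cube D → Cube D → G) (s : ℕ) (b : Bool) (x z : Cube D) (w : G) :
    uu S F s (setb s b x) z w = uu S F s x z w := by
  unfold uu; rw [cut_setb]

lemma st_aa_setb_x (S : Finset G) (F : Cube D → Cube D → G) (s t : ℕ) (b : Bool) (x z : Cube D)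
    (w : G) : aa S F s t (setb s b x) z w = aa S F s t x z w := by
  unfold aa; simp only [st_uu_setb_x]

lemma st_vv_agree {S : Finset G} {F : Cube D → Cube D → G} {s t : ℕ} (hF : Split F s t)
    (x : Cube D) {z z' : Cube D} (hz : agree t z z') (w : G) :
    vv S F s x z w = vv S F s x z' w := by
  unfold vv
  have h := hF x (cut s x) z z' (agree_symm (agree_cut s x)) hz
  congr 1
  rw [add_right_inj, sub_eq_sub_iff_add_eq_add, h, add_comm]

lemma st_bb_agree {S : Finset G} {F : Cube D → Cube D → G} {s t : ℕ} (hF : Split F s t) (r : ℕ)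
    (x : Cube D) {z z' : Cube D} (hz : agree t z z') (w : G) :
    bb S F s r x z w = bb S F s r x z' w := by
  unfold bb
  exact congrArg (fun f => Mt r f x) (funext fun x' => st_vv_agree hF x' hz w)

lemma st_uu_nonneg (S : Finset G) (F : Cube D → Cube D → G) (s : ℕ) (x z : Cube D) (w : G) :
    0 ≤ uu S F s x z w := by
  unfold uu ind; split_ifs <;> norm_num

lemma st_vv_nonneg (S : Finset G) (F : Cube D → Cube D → G) (s : ℕ) (x z : Cube D) (w : G) :
    0 ≤ vv S F s x z w := by
  unfold vv ind; split_ifs <;> norm_num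

lemma st_aa_nonneg (S : Finset G) (F : Cube D → Cube D → G) (s t : ℕ) (x z : Cube D) (w : G) :
    0 ≤ aa S F s t x z w := Mt_nonneg t (fun z' => st_uu_nonneg S F s x z' w) z

lemma st_bb_nonneg (S : Finset G) (F : Cube D → Cube D → G) (s r : ℕ) (x z : Cube D) (w : G) :
    0 ≤ bb S F s r x z w := Mt_nonneg r (fun x' => st_vv_nonneg S F s x' z w) x

lemma st_aa_succ {S : Finset G} {F : Cube D → Cube D → G} {s t : ℕ} (ht : t < D) (x z : Cube D)
    (w : G) : aa S F s t x z w =
      (aa S F s (t + 1) x (setb t true z) w + aa S F s (t + 1) x (setb t false z) w) / 2 := by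
  unfold aa
  rw [Mt_succ ht, smul_eq_mul]
  ring

lemma st_bb_succ {S : Finset G} {F : Cube D → Cube D → G} {s : ℕ} (hs : s < D) (x z : Cube D)
    (w : G) : bb S F s s x z w =
      (bb S F s (s + 1) (setb s true x) z w + bb S F s (s + 1) (setb s false x) z w) / 2 := by
  unfold bb
  rw [Mt_succ hs, smul_eq_mul]
  ring

lemma st_biasz_succ {S : Finset G} {F : Cube D → Cube D → G} {s t : ℕ} (ht : t < D) (x z : Cube D)
    (w : G) : Mt t (fun z' => sg t z' * uu S F s x z' w) z =
      (aa S F s (t + 1) x (setb t true z) w - aa S F s (t + 1) x (setb t false z) w) / 2 := by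
  have h1 : ∀ b : Bool, Mt (t + 1) (fun z' => sg t z' * uu S F s x z' w) (setb t b z) =
      (if b then 1 else -1) * aa S F s (t + 1) x (setb t b z) w := by
    intro b
    unfold aa
    rw [Mt_mul_left (h := fun z' => sg t z') (fun a b hab => sg_agree (Nat.lt_succ_self t) hab),
      sg_setb ht]
  rw [Mt_succ ht, h1, h1, smul_eq_mul]
  simp only [if_true, Bool.false_eq_true, if_false]
  ring

lemma st_biasx_succ {S : Finset G} {F : Cube D → Cube D → G} {s : ℕ} (hs : s < D) (x z : Cube D)
    (w : G) : Mt s (fun x' => sg s x' * vv S F s x' z w) x =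
      (bb S F s (s + 1) (setb s true x) z w - bb S F s (s + 1) (setb s false x) z w) / 2 := by
  have h1 : ∀ b : Bool, Mt (s + 1) (fun x' => sg s x' * vv S F s x' z w) (setb s b x) =
      (if b then 1 else -1) * bb S F s (s + 1) (setb s b x) z w := by
    intro b
    unfold bb
    rw [Mt_mul_left (h := fun x' => sg s x') (fun a b hab => sg_agree (Nat.lt_succ_self s) hab),
      sg_setb hs]
  rw [Mt_succ hs, h1, h1, smul_eq_mul]
  simp only [if_true, Bool.false_eq_true, if_false]
  ring

lemma st_norm_Lam (θ : ℝ) (Φ : Cube D → Cube D → ℝ) (r : ℕ) (x z : Cube D) : ‖Lam θ Φ r x z‖ = 1 := by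
  unfold Lam
  rw [mul_comm]
  exact Complex.norm_exp_ofReal_mul_I _

lemma st_norm_pp_leS (S : Finset G) (F : Cube D → Cube D → G) (θ : ℝ) (Φ : Cube D → Cube D → ℝ)
    (s r t : ℕ) (x z : Cube D) (w : G) : ‖pp S F θ Φ s r t x z w‖ ≤ aa S F s t x z w := by
  unfold pp aa
  refine (Mt_norm_le _ _ _).trans (le_of_eq ?_)
  exact congrArg (fun f => Mt t f z) (funext fun z' => by
    rw [norm_smul, st_norm_Lam, mul_one, Real.norm_of_nonneg (st_uu_nonneg S F s x z' w)])

lemma st_pp_setb_x (S : Finset G) (F : Cube D → Cube D → G) (θ : ℝ) (Φ : Cube D → Cube D → ℝ)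
    (s t : ℕ) (b : Bool) (x z : Cube D) (w : G) :
    pp S F θ Φ s s t (setb s b x) z w = pp S F θ Φ s s t x z w := by
  unfold pp Lam; simp only [st_uu_setb_x, cut_setb]

/-- the phase increment -/
def st_fz (θ : ℝ) (Φ : Cube D → Cube D → ℝ) (s : ℕ) (x z : Cube D) : ℝ :=
  θ * (Φ (setb s true (cut s x)) z - Φ (cut s x) z)

lemma st_Lam_succ_true {θ : ℝ} {Φ : Cube D → Cube D → ℝ} {s t : ℕ} (hΦ : Split Φ s (t + 1))
    (x : Cube D) {z z' : Cube D} (hz : agree (t + 1) z' z) :
    Lam θ Φ (s + 1) (setb s true x) z' =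
      Complex.exp (Complex.I * (st_fz θ Φ s x z : ℂ)) * Lam θ Φ s x z' := by
  have h := hΦ (setb s true (cut s x)) (cut s x) z' z (agree_setb le_rfl true _) hz
  unfold Lam st_fz
  rw [cut_succ_setb_true, ← Complex.exp_add]
  congr 1
  have h2 : Φ (setb s true (cut s x)) z' =
      (Φ (setb s true (cut s x)) z - Φ (cut s x) z) + Φ (cut s x) z' := by linarith
  rw [h2]
  push_cast
  ring

lemma st_Lam_succ_false (θ : ℝ) (Φ : Cube D → Cube D → ℝ) (s : ℕ) (x z' : Cube D) :
    Lam θ Φ (s + 1) (setb s false x) z' = Lam θ Φ s x z' := by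
  unfold Lam
  rw [cut_succ_setb_false]

lemma st_pp_succ_true {S : Finset G} {F : Cube D → Cube D → G} {θ : ℝ} {Φ : Cube D → Cube D → ℝ}
    {s t : ℕ} (ht : t < D) (hΦ : Split Φ s (t + 1)) (x z : Cube D) (w : G) :
    pp S F θ Φ s (s + 1) t (setb s true x) z w = (1 / 2 : ℝ) •
      (Complex.exp (Complex.I * (st_fz θ Φ s x (setb t true z) : ℂ)) *
          pp S F θ Φ s s (t + 1) x (setb t true z) w +
        Complex.exp (Complex.I * (st_fz θ Φ s x (setb t false z) : ℂ)) *
          pp S F θ Φ s s (t + 1) x (setb t false z) w) := by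
  have h1 : ∀ b : Bool, Mt (t + 1) (fun z' => uu S F s (setb s true x) z' w •
      Lam θ Φ (s + 1) (setb s true x) z') (setb t b z) =
      Complex.exp (Complex.I * (st_fz θ Φ s x (setb t b z) : ℂ)) *
        pp S F θ Φ s s (t + 1) x (setb t b z) w := by
    intro b
    unfold pp
    rw [← Mt_mul_left_complex (h := fun _ => Complex.exp (Complex.I *
      (st_fz θ Φ s x (setb t b z) : ℂ))) (fun _ _ _ => rfl)]
    refine Mt_congr_fun _ fun y hy => ?_
    rw [st_uu_setb_x, st_Lam_succ_true hΦ x hy, mul_smul_comm]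
  unfold pp at *
  rw [Mt_succ ht, h1, h1]

lemma st_pp_succ_false {S : Finset G} {F : Cube D → Cube D → G} {θ : ℝ} {Φ : Cube D → Cube D → ℝ}
    {s t : ℕ} (ht : t < D) (x z : Cube D) (w : G) :
    pp S F θ Φ s (s + 1) t (setb s false x) z w = (1 / 2 : ℝ) •
      (pp S F θ Φ s s (t + 1) x (setb t true z) w +
        pp S F θ Φ s s (t + 1) x (setb t false z) w) := by
  have h1 : ∀ b : Bool, Mt (t + 1) (fun z' => uu S F s (setb s false x) z' w •
      Lam θ Φ (s + 1) (setb s false x) z') (setb t b z) =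
        pp S F θ Φ s s (t + 1) x (setb t b z) w := by
    intro b
    unfold pp
    refine Mt_congr_fun _ fun y hy => ?_
    rw [st_uu_setb_x, st_Lam_succ_false]
  unfold pp at *
  rw [Mt_succ ht, h1, h1]

variable [Fintype G]

lemma st_EE_congr {S : Finset G} {g h : Cube D → Cube D → G → ℝ} (H : ∀ x z w, g x z w = h x z w) :
    EE S g = EE S h := by
  rw [show g = h from funext fun x => funext fun z => funext fun w => H x z w]

lemma st_EE_mono {S : Finset G} {g h : Cube D → Cube D → G → ℝ} (H : ∀ x z w, g x z w ≤ h x z w) :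
    EE S g ≤ EE S h := by
  unfold EE
  exact mul_le_mul_of_nonneg_left (Finset.sum_le_sum fun w _ =>
    avc_mono fun x => avc_mono fun z => H x z w) (by positivity)

lemma st_EE_sub (S : Finset G) (g h : Cube D → Cube D → G → ℝ) :
    EE S (fun x z w => g x z w - h x z w) = EE S g - EE S h := by
  unfold EE
  rw [← mul_sub, ← Finset.sum_sub_distrib]
  congr 1
  refine Finset.sum_congr rfl fun w _ => ?_
  simp only [avc_sub]

lemma st_EE_mul (S : Finset G) (c : ℝ) (g : Cube D → Cube D → G → ℝ) :
    EE S (fun x z w => c * g x z w) = c * EE S g := by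
  unfold EE
  have h1 : ∀ w, avc (fun x => avc (fun z => c * g x z w)) =
      c * avc (fun x => avc (fun z => g x z w)) := fun w => by
    simp only [avc_mul_left]
  rw [Finset.sum_congr rfl fun w _ => h1 w, ← Finset.mul_sum]
  ring

lemma st_EE_bits (S : Finset G) {s t : ℕ} (hs : s < D) (ht : t < D) (g : Cube D → Cube D → G → ℝ) :
    EE S g = EE S (fun x z w => (g (setb s true x) (setb t true z) w +
      g (setb s true x) (setb t false z) w + g (setb s false x) (setb t true z) w +
      g (setb s false x) (setb t false z) w) / 4) := by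
  unfold EE
  congr 1
  refine Finset.sum_congr rfl fun w _ => ?_
  rw [avc_setb hs]
  refine avc_congr fun x => ?_
  rw [avc_setb ht, avc_setb ht (fun z => g (setb s false x) z w), ← avc_add, ← avc_smul]
  refine avc_congr fun z => ?_
  simp only [smul_eq_mul]
  ring

lemma st_bb_state {S : Finset G} {F : Cube D → Cube D → G} {s t : ℕ} (hs : s < D)
    (hF : Split F s t) (b c : Bool) (x z : Cube D) (w : G) :
    bb S F s s (setb s b x) (setb t c z) w =
      (bb S F s (s + 1) (setb s true x) z w + bb S F s (s + 1) (setb s false x) z w) / 2 := by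
  rw [st_bb_agree hF s _ (agree_setb le_rfl c z), ← st_bb_succ hs]
  unfold bb
  exact Mt_congr _ (agree_setb le_rfl b x)

lemma st_aa_state {S : Finset G} {F : Cube D → Cube D → G} {s t : ℕ} (ht : t < D)
    (b c : Bool) (x z : Cube D) (w : G) :
    aa S F s t (setb s b x) (setb t c z) w =
      (aa S F s (t + 1) x (setb t true z) w + aa S F s (t + 1) x (setb t false z) w) / 2 := by
  rw [st_aa_setb_x, ← st_aa_succ ht]
  unfold aa
  exact Mt_congr _ (agree_setb le_rfl c z)

lemma st_En_state {S : Finset G} {F : Cube D → Cube D → G} {θ : ℝ} {Φ : Cube D → Cube D → ℝ}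
    {s t : ℕ} (hs : s < D) (ht : t < D) (hF : Split F s t) :
    En S F θ Φ (s + t) s = EE S (fun x z w =>
      (bb S F s (s + 1) (setb s true x) z w + bb S F s (s + 1) (setb s false x) z w) *
      (‖pp S F θ Φ s s (t + 1) x (setb t true z) w‖ ^ 2 / aa S F s (t + 1) x (setb t true z) w +
       ‖pp S F θ Φ s s (t + 1) x (setb t false z) w‖ ^ 2 /
        aa S F s (t + 1) x (setb t false z) w) / 4) := by
  unfold En
  rw [show s + t - s + 1 = t + 1 by omega, st_EE_bits S hs ht]
  refine st_EE_congr fun x z w => ?_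
  simp only [st_bb_state hs hF, st_pp_setb_x, st_aa_setb_x]
  ring

lemma st_En'_state {S : Finset G} {F : Cube D → Cube D → G} {θ : ℝ} {Φ : Cube D → Cube D → ℝ}
    {s t : ℕ} (hs : s < D) (ht : t < D) (hF : Split F s t) (hΦ : Split Φ s (t + 1)) :
    En' S F θ Φ (s + t) s = EE S (fun x z w =>
      (bb S F s (s + 1) (setb s true x) z w *
        ‖Complex.exp (Complex.I * (st_fz θ Φ s x (setb t true z) : ℂ)) *
          pp S F θ Φ s s (t + 1) x (setb t true z) w +
        Complex.exp (Complex.I * (st_fz θ Φ s x (setb t false z) : ℂ)) *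
          pp S F θ Φ s s (t + 1) x (setb t false z) w‖ ^ 2 +
      bb S F s (s + 1) (setb s false x) z w *
        ‖pp S F θ Φ s s (t + 1) x (setb t true z) w +
          pp S F θ Φ s s (t + 1) x (setb t false z) w‖ ^ 2) /
      (aa S F s (t + 1) x (setb t true z) w + aa S F s (t + 1) x (setb t false z) w) / 4) := by
  unfold En'
  rw [show s + t - s = t by omega, st_EE_bits S hs ht]
  refine st_EE_congr fun x z w => ?_
  have h1 : ∀ b c : Bool, pp S F θ Φ s (s + 1) t (setb s b x) (setb t c z) w =
      pp S F θ Φ s (s + 1) t (setb s b x) z w := fun b c => by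
    unfold pp; exact Mt_congr _ (agree_setb le_rfl c z)
  have h2 : ∀ b c : Bool, bb S F s (s + 1) (setb s b x) (setb t c z) w =
      bb S F s (s + 1) (setb s b x) z w := fun b c =>
    st_bb_agree hF (s + 1) _ (agree_setb le_rfl c z) w
  simp only [h1, h2, st_aa_state ht, st_pp_succ_true ht hΦ, st_pp_succ_false ht, norm_smul]
  generalize bb S F s (s + 1) (setb s true x) z w = b1
  generalize bb S F s (s + 1) (setb s false x) z w = b0
  generalize aa S F s (t + 1) x (setb t true z) w + aa S F s (t + 1) x (setb t false z) w = A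
  rw [show ‖(1 / 2 : ℝ)‖ = 1 / 2 by norm_num]
  ring

lemma st_betaz_state {S : Finset G} {F : Cube D → Cube D → G}
    {s t : ℕ} (hs : s < D) (ht : t < D) (hF : Split F s t) :
    betaz S F s t = EE S (fun x z w =>
      (bb S F s (s + 1) (setb s true x) z w + bb S F s (s + 1) (setb s false x) z w) *
      (aa S F s (t + 1) x (setb t true z) w - aa S F s (t + 1) x (setb t false z) w) ^ 2 /
      (aa S F s (t + 1) x (setb t true z) w + aa S F s (t + 1) x (setb t false z) w) / 4) := by
  unfold betaz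
  rw [st_EE_bits S hs ht]
  refine st_EE_congr fun x z w => ?_
  have h1 : ∀ b c : Bool, Mt t (fun z' => sg t z' * uu S F s (setb s b x) z' w) (setb t c z) =
      (aa S F s (t + 1) x (setb t true z) w - aa S F s (t + 1) x (setb t false z) w) / 2 := by
    intro b c
    rw [Mt_congr _ (agree_setb le_rfl c z), st_biasz_succ ht, st_aa_setb_x, st_aa_setb_x]
  simp only [st_bb_state hs hF, st_aa_state ht, h1]
  generalize bb S F s (s + 1) (setb s true x) z w = b1
  generalize bb S F s (s + 1) (setb s false x) z w = b0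
  generalize aa S F s (t + 1) x (setb t true z) w + aa S F s (t + 1) x (setb t false z) w = A
  ring

lemma st_betax_state {S : Finset G} {F : Cube D → Cube D → G}
    {s t : ℕ} (hs : s < D) (ht : t < D) (hF : Split F s t) :
    betax S F s t = EE S (fun x z w =>
      (aa S F s (t + 1) x (setb t true z) w + aa S F s (t + 1) x (setb t false z) w) *
      (bb S F s (s + 1) (setb s true x) z w - bb S F s (s + 1) (setb s false x) z w) ^ 2 /
      (bb S F s (s + 1) (setb s true x) z w + bb S F s (s + 1) (setb s false x) z w) / 4) := by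
  unfold betax
  rw [st_EE_bits S hs ht]
  refine st_EE_congr fun x z w => ?_
  have h1 : ∀ b c : Bool, Mt s (fun x' => sg s x' * vv S F s x' (setb t c z) w) (setb s b x) =
      (bb S F s (s + 1) (setb s true x) z w - bb S F s (s + 1) (setb s false x) z w) / 2 := by
    intro b c
    rw [Mt_congr _ (agree_setb le_rfl b x), st_biasx_succ hs,
      st_bb_agree hF (s + 1) _ (agree_setb le_rfl c z) w,
      st_bb_agree hF (s + 1) _ (agree_setb le_rfl c z) w]
  simp only [st_bb_state hs hF, st_aa_state ht, h1]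
  generalize aa S F s (t + 1) x (setb t true z) w = a1
  generalize aa S F s (t + 1) x (setb t false z) w = a0
  generalize bb S F s (s + 1) (setb s true x) z w + bb S F s (s + 1) (setb s false x) z w = B
  ring

lemma st_mass_state {S : Finset G} {F : Cube D → Cube D → G}
    {s t : ℕ} (hs : s < D) (ht : t < D) (hF : Split F s t) {h : Cube D → Cube D → ℝ}
    (hh : ∀ x x' z z', agree s x x' → agree t z z' → h x z = h x' z') :
    avc (fun x => avc (fun z => KK S (F x z) * h x z)) = EE S (fun x z w =>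
      (aa S F s (t + 1) x (setb t true z) w + aa S F s (t + 1) x (setb t false z) w) *
      (bb S F s (s + 1) (setb s true x) z w + bb S F s (s + 1) (setb s false x) z w) / 4 *
      h x z) := by
  rw [← EE_aa_bb hF le_rfl le_rfl hh]
  refine st_EE_congr fun x z w => ?_
  rw [st_aa_succ ht, st_bb_succ hs]
  ring

theorem step_nonneg {S : Finset G} {F : Cube D → Cube D → G} {θ : ℝ} {Φ : Cube D → Cube D → ℝ}
    {s t : ℕ} (hs : s < D) (ht : t < D) (hF : Split F s t) (hΦ : Split Φ s (t + 1)) :
    En' S F θ Φ (s + t) s ≤ En S F θ Φ (s + t) s := by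
  rw [st_En_state hs ht hF, st_En'_state hs ht hF hΦ]
  refine st_EE_mono fun x z w => ?_
  have := state_nonneg (st_aa_nonneg S F s (t + 1) x (setb t true z) w)
    (st_aa_nonneg S F s (t + 1) x (setb t false z) w)
    (st_bb_nonneg S F s (s + 1) (setb s true x) z w) (st_bb_nonneg S F s (s + 1) (setb s false x) z w)
    (st_norm_pp_leS S F θ Φ s s (t + 1) x (setb t true z) w)
    (st_norm_pp_leS S F θ Φ s s (t + 1) x (setb t false z) w)
    (st_fz θ Φ s x (setb t true z)) (st_fz θ Φ s x (setb t false z))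
  linarith

theorem step_bound {S : Finset G} {F : Cube D → Cube D → G} {θ κ : ℝ} {Φ : Cube D → Cube D → ℝ}
    {s t : ℕ} (hs : s < D) (ht : t < D) (hF : Split F s t)
    (hΦ : Split Φ s (t + 1)) {e : Cube D → Cube D → ℝ} (he : ∀ x z, e x z = 0 ∨ e x z = 1)
    (hem : ∀ x x' z z', agree s x x' → agree t z z' → e x z = e x' z')
    (htop : ∀ x z, e x z = 1 → |DD Φ s t x z| = 4 * κ) :
    Real.sin (θ * κ) ^ 2 *
      (En' S F θ Φ (s + t) s / 4
        - Real.sin (θ * κ) ^ 2 * avc (fun x => avc (fun z => KK S (F x z))) / 2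
        - 2 * betaz S F s t - betax S F s t
        - avc (fun x => avc (fun z => KK S (F x z) * (1 - e x z))) / 4) ≤
    En S F θ Φ (s + t) s - En' S F θ Φ (s + t) s := by
  have hm1 : avc (fun x => avc (fun z => KK S (F x z))) =
      avc (fun x => avc (fun z => KK S (F x z) * 1)) := by simp only [mul_one]
  rw [hm1, st_mass_state hs ht hF (h := fun _ _ => 1) (fun _ _ _ _ _ _ => rfl),
    st_mass_state hs ht hF (h := fun x z => 1 - e x z)
      (fun x x' z z' h1 h2 => by rw [hem x x' z z' h1 h2]),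
    st_En_state hs ht hF, st_En'_state hs ht hF hΦ, st_betaz_state hs ht hF, st_betax_state hs ht hF]
  set q := Real.sin (θ * κ) ^ 2 with hq
  have hq0 : 0 ≤ q := sq_nonneg _
  have e1 : ∀ (a b c d f : Cube D → Cube D → G → ℝ),
      q * (EE S a / 4 - q * EE S b / 2 - 2 * EE S c - EE S d - EE S f / 4) =
      EE S (fun x z w => q * (a x z w / 4 - q * b x z w / 2 - 2 * c x z w - d x z w
        - f x z w / 4)) := by
    intro a b c d f
    rw [st_EE_mul, st_EE_sub, st_EE_sub, st_EE_sub, st_EE_sub]
    have h1 : EE S (fun x z w => a x z w / 4) = EE S a / 4 := by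
      rw [← st_EE_congr (g := fun x z w => (1 / 4) * a x z w) (fun _ _ _ => by ring), st_EE_mul]; ring
    have h2 : EE S (fun x z w => q * b x z w / 2) = q * EE S b / 2 := by
      rw [← st_EE_congr (g := fun x z w => (q / 2) * b x z w) (fun _ _ _ => by ring), st_EE_mul]; ring
    have h3 : EE S (fun x z w => f x z w / 4) = EE S f / 4 := by
      rw [← st_EE_congr (g := fun x z w => (1 / 4) * f x z w) (fun _ _ _ => by ring), st_EE_mul]; ring
    rw [h1, h2, h3, st_EE_mul]
  rw [e1, ← st_EE_sub]
  refine st_EE_mono fun x z w => ?_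
  have hn := state_nonneg (st_aa_nonneg S F s (t + 1) x (setb t true z) w)
    (st_aa_nonneg S F s (t + 1) x (setb t false z) w)
    (st_bb_nonneg S F s (s + 1) (setb s true x) z w) (st_bb_nonneg S F s (s + 1) (setb s false x) z w)
    (st_norm_pp_leS S F θ Φ s s (t + 1) x (setb t true z) w)
    (st_norm_pp_leS S F θ Φ s s (t + 1) x (setb t false z) w)
    (st_fz θ Φ s x (setb t true z)) (st_fz θ Φ s x (setb t false z))
  have hi := state_ineq (st_aa_nonneg S F s (t + 1) x (setb t true z) w)
    (st_aa_nonneg S F s (t + 1) x (setb t false z) w)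
    (st_bb_nonneg S F s (s + 1) (setb s true x) z w) (st_bb_nonneg S F s (s + 1) (setb s false x) z w)
    (st_norm_pp_leS S F θ Φ s s (t + 1) x (setb t true z) w)
    (st_norm_pp_leS S F θ Φ s s (t + 1) x (setb t false z) w)
    (st_fz θ Φ s x (setb t true z)) (st_fz θ Φ s x (setb t false z))
  have hfz : st_fz θ Φ s x (setb t true z) - st_fz θ Φ s x (setb t false z) =
      θ * DD Φ s t (cut s x) z := by
    unfold st_fz DD
    rw [setb_cut]
    ring
  have ha1 := st_aa_nonneg S F s (t + 1) x (setb t true z) w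
  have ha0 := st_aa_nonneg S F s (t + 1) x (setb t false z) w
  have hb1 := st_bb_nonneg S F s (s + 1) (setb s true x) z w
  have hb0 := st_bb_nonneg S F s (s + 1) (setb s false x) z w
  have hp1 := st_norm_pp_leS S F θ Φ s s (t + 1) x (setb t true z) w
  have hp0 := st_norm_pp_leS S F θ Φ s s (t + 1) x (setb t false z) w
  rw [hfz] at hi
  generalize st_fz θ Φ s x (setb t true z) = f1 at *
  generalize st_fz θ Φ s x (setb t false z) = f0 at *
  generalize pp S F θ Φ s s (t + 1) x (setb t true z) w = p1 at *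
  generalize pp S F θ Φ s s (t + 1) x (setb t false z) w = p0 at *
  generalize aa S F s (t + 1) x (setb t true z) w = a1 at *
  generalize aa S F s (t + 1) x (setb t false z) w = a0 at *
  generalize bb S F s (s + 1) (setb s true x) z w = b1 at *
  generalize bb S F s (s + 1) (setb s false x) z w = b0 at *
  rcases he x z with h0 | h1
  · -- empty weight
    rw [h0]
    have hk1 : ‖Complex.exp (Complex.I * (f1 : ℂ)) * p1 + Complex.exp (Complex.I * (f0 : ℂ)) * p0‖
        ≤ a1 + a0 := by
      refine (norm_add_le _ _).trans ?_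
      rw [norm_mul, norm_mul, mul_comm Complex.I, mul_comm Complex.I,
        Complex.norm_exp_ofReal_mul_I, Complex.norm_exp_ofReal_mul_I, one_mul, one_mul]
      exact add_le_add hp1 hp0
    have hk0 : ‖p1 + p0‖ ≤ a1 + a0 := (norm_add_le _ _).trans (add_le_add hp1 hp0)
    have n1 := norm_nonneg (Complex.exp (Complex.I * (f1 : ℂ)) * p1 +
      Complex.exp (Complex.I * (f0 : ℂ)) * p0)
    have n0 := norm_nonneg (p1 + p0)
    generalize ‖Complex.exp (Complex.I * (f1 : ℂ)) * p1 +
      Complex.exp (Complex.I * (f0 : ℂ)) * p0‖ = k1 at *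
    generalize ‖p1 + p0‖ = k0 at *
    have hA0 : 0 ≤ a1 + a0 := add_nonneg ha1 ha0
    have hB0 : 0 ≤ b1 + b0 := add_nonneg hb1 hb0
    have hK : (b1 * k1 ^ 2 + b0 * k0 ^ 2) / (a1 + a0) ≤ (a1 + a0) * (b1 + b0) := by
      rcases hA0.eq_or_lt with hA | hA
      · rw [← hA]; simp
      · rw [div_le_iff₀ hA]
        have h1 : b1 * k1 ^ 2 ≤ b1 * (a1 + a0) ^ 2 :=
          mul_le_mul_of_nonneg_left (pow_le_pow_left₀ n1 hk1 2) hb1
        have h2 : b0 * k0 ^ 2 ≤ b0 * (a1 + a0) ^ 2 :=
          mul_le_mul_of_nonneg_left (pow_le_pow_left₀ n0 hk0 2) hb0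
        linarith [show (a1 + a0) * (b1 + b0) * (a1 + a0) =
          b1 * (a1 + a0) ^ 2 + b0 * (a1 + a0) ^ 2 by ring]
    have hAB : 0 ≤ (a1 + a0) * (b1 + b0) := mul_nonneg hA0 hB0
    have t1 : 0 ≤ (b1 + b0) * (a1 - a0) ^ 2 / (a1 + a0) :=
      div_nonneg (mul_nonneg hB0 (sq_nonneg _)) hA0
    have t2 : 0 ≤ (a1 + a0) * (b1 - b0) ^ 2 / (b1 + b0) :=
      div_nonneg (mul_nonneg hA0 (sq_nonneg _)) hB0
    have t3 : 0 ≤ q * ((a1 + a0) * (b1 + b0)) := mul_nonneg hq0 hAB
    refine le_trans (mul_nonpos_of_nonneg_of_nonpos hq0 ?_) (b := 0) ?_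
    · linarith
    · linarith
  · rw [h1]
    have h2 : e (cut s x) z = 1 := by
      rw [← hem x (cut s x) z z (agree_symm (agree_cut s x)) (agree_refl t z)]; exact h1
    have h3 := htop _ _ h2
    have h4 : Real.sin (θ * DD Φ s t (cut s x) z / 4) ^ 2 = q := by
      rcases abs_choice (DD Φ s t (cut s x) z) with h5 | h5
      · rw [h5] at h3
        rw [h3, hq, show θ * (4 * κ) / 4 = θ * κ by ring]
      · rw [h5] at h3
        rw [show θ * DD Φ s t (cut s x) z / 4 = -(θ * κ) by
          rw [show DD Φ s t (cut s x) z = -(4 * κ) by linarith]; ring, Real.sin_neg, neg_sq]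
    rw [h4] at hi
    linarith

end

end Disc32
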