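import Pool.Agent.Work.Disc32.Trans
import Pool.Agent.Work.Disc32.Rec
import Pool.Agent.Work.Disc32.Step
import Pool.Agent.Work.Disc32.Bias2

namespace Disc32

open Finset

variable {D : ℕ}

section

variable {G : Type*} [AddCommGroup G] [DecidableEq G] [Fintype G]

lemma transfer_KK_nonneg (S : Finset G) (g : G) : 0 ≤ KK S g := by
  unfold KK
  refine mul_nonneg (by positivity) (Finset.sum_nonneg fun w _ => ?_)
  unfold ind; split_ifs <;> norm_num

/-- the telescoped energy inequality -/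
theorem energy_sum {S : Finset G} {F : Cube D → Cube D → G} {θ κ : ℝ}
    {Φ : Cube D → Cube D → ℝ} {ν : ℕ} (hν : ν < D)
    (hF : ∀ s ≤ ν, Split F s (ν - s)) (hΦ : ∀ s ≤ ν + 1, Split Φ s (ν + 1 - s))
    {e : ℕ → Cube D → Cube D → ℝ} (he : ∀ s x z, e s x z = 0 ∨ e s x z = 1)
    (hem : ∀ s ≤ ν, ∀ x x' z z', agree s x x' → agree (ν - s) z z' → e s x z = e s x' z')
    (htop : ∀ s ≤ ν, ∀ x z, e s x z = 1 → |DD Φ s (ν - s) x z| = 4 * κ) :
    Real.sin (θ * κ) ^ 2 *
      (∑ s ∈ range (ν + 1), (En' S F θ Φ ν ν / 4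
        - Real.sin (θ * κ) ^ 2 * avc (fun x => avc (fun z => KK S (F x z))) / 2
        - 2 * betaz S F s (ν - s) - betax S F s (ν - s)
        - avc (fun x => avc (fun z => KK S (F x z) * (1 - e s x z))) / 4)) ≤
      avc (fun x => avc (fun z => KK S (F x z))) - En' S F θ Φ ν ν := by
  have hstep : ∀ s ≤ ν, Real.sin (θ * κ) ^ 2 *
      (En' S F θ Φ ν s / 4
        - Real.sin (θ * κ) ^ 2 * avc (fun x => avc (fun z => KK S (F x z))) / 2
        - 2 * betaz S F s (ν - s) - betax S F s (ν - s)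
        - avc (fun x => avc (fun z => KK S (F x z) * (1 - e s x z))) / 4) ≤
      En S F θ Φ ν s - En' S F θ Φ ν s := by
    intro s hs
    have h1 : s + (ν - s) = ν := by omega
    have h2 : ν - s + 1 = ν + 1 - s := by omega
    have := step_bound (S := S) (F := F) (θ := θ) (κ := κ) (Φ := Φ) (s := s) (t := ν - s)
      (by omega) (by omega) (hF s hs) (by rw [h2]; exact hΦ s (by omega))
      (he s) (hem s hs) (htop s hs)
    rw [h1] at this
    exact this
  have hmono : ∀ s ≤ ν, En' S F θ Φ ν s ≤ En S F θ Φ ν s := by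
    intro s hs
    have h1 : s + (ν - s) = ν := by omega
    have h2 : ν - s + 1 = ν + 1 - s := by omega
    have := step_nonneg (S := S) (F := F) (θ := θ) (Φ := Φ) (s := s) (t := ν - s)
      (by omega) (by omega) (hF s hs) (by rw [h2]; exact hΦ s (by omega))
    rw [h1] at this
    exact this
  have hsucc : ∀ s, s + 1 ≤ ν → En S F θ Φ ν (s + 1) = En' S F θ Φ ν s :=
    fun s hs => En_succ hs (hF s (by omega))
  -- `En' ν ν ≤ En' ν s`
  have hle : ∀ j, j ≤ ν → En' S F θ Φ ν ν ≤ En' S F θ Φ ν (ν - j) := by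
    intro j
    induction j with
    | zero => intro _; simp
    | succ j ih =>
      intro hj
      have h1 := ih (by omega)
      have h2 := hmono (ν - j) (by omega)
      have h3 : ν - j = ν - (j + 1) + 1 := by omega
      have h4 := hsucc (ν - (j + 1)) (by omega)
      rw [← h3] at h4
      rw [h4] at h2
      exact h1.trans h2
  have hle' : ∀ s ≤ ν, En' S F θ Φ ν ν ≤ En' S F θ Φ ν s := by
    intro s hs
    have := hle (ν - s) (by omega)
    rwa [show ν - (ν - s) = s by omega] at this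
  -- telescoping
  have htel : ∀ j, j ≤ ν → ∑ s ∈ range (j + 1), (En S F θ Φ ν s - En' S F θ Φ ν s) =
      En S F θ Φ ν 0 - En' S F θ Φ ν j := by
    intro j
    induction j with
    | zero => intro _; simp
    | succ j ih =>
      intro hj
      rw [Finset.sum_range_succ, ih (by omega), hsucc j (by omega)]
      ring
  have h0 : En S F θ Φ ν 0 ≤ avc (fun x => avc (fun z => KK S (F x z))) :=
    En_zero_le (by simpa using hF 0 (by omega))
  rw [Finset.mul_sum]
  calc ∑ s ∈ range (ν + 1), Real.sin (θ * κ) ^ 2 * (En' S F θ Φ ν ν / 4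
        - Real.sin (θ * κ) ^ 2 * avc (fun x => avc (fun z => KK S (F x z))) / 2
        - 2 * betaz S F s (ν - s) - betax S F s (ν - s)
        - avc (fun x => avc (fun z => KK S (F x z) * (1 - e s x z))) / 4)
      ≤ ∑ s ∈ range (ν + 1), (En S F θ Φ ν s - En' S F θ Φ ν s) := by
        refine Finset.sum_le_sum fun s hs => ?_
        have hs' : s ≤ ν := by have := mem_range.1 hs; omega
        refine le_trans ?_ (hstep s hs')
        refine mul_le_mul_of_nonneg_left ?_ (sq_nonneg _)
        have := hle' s hs'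
        linarith
    _ = En S F θ Φ ν 0 - En' S F θ Φ ν ν := htel ν le_rfl
    _ ≤ _ := by linarith

theorem transfer {S : Finset G} (hS : S.Nonempty) {F : Cube D → Cube D → G} {θ κ : ℝ}
    {Φ : Cube D → Cube D → ℝ} {ν : ℕ} (hν : ν < D)
    (hF : ∀ s ≤ ν, Split F s (ν - s)) (hΦ : ∀ s ≤ ν + 1, Split Φ s (ν + 1 - s))
    {e : ℕ → Cube D → Cube D → ℝ} (he : ∀ s x z, e s x z = 0 ∨ e s x z = 1)
    (hem : ∀ s ≤ ν, ∀ x x' z z', agree s x x' → agree (ν - s) z z' → e s x z = e s x' z')
    (htop : ∀ s ≤ ν, ∀ x z, e s x z = 1 → |DD Φ s (ν - s) x z| = 4 * κ)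
    (hsin : Real.sin (θ * κ) ≠ 0) :
    ‖avc (fun x => avc (fun z => (KK S (F x z) : ℂ) *
        Complex.exp (Complex.I * ((θ * Φ x z : ℝ) : ℂ))))‖ ≤
      (1 / 4 + 4 / (Real.sin (θ * κ) ^ 2 * (ν + 1)) + 2 * Real.sin (θ * κ) ^ 2) *
          avc (fun x => avc (fun z => KK S (F x z)))
        + (72 * Real.negMulLog (avc (fun x => avc (fun z => KK S (F x z))))
          + ∑ s ∈ range (ν + 1), avc (fun x => avc (fun z => KK S (F x z) * (1 - e s x z))))
          / (ν + 1) := by
  have h1 := energy_sum (S := S) (θ := θ) hν hF hΦ he hem htop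
  have h2 := sum_betaz hS hν hF
  have h3 := sum_betax hS hν hF
  have h4 : ‖avc (fun x => avc (fun z => (KK S (F x z) : ℂ) *
        Complex.exp (Complex.I * ((θ * Φ x z : ℝ) : ℂ))))‖ ^ 2 ≤
      avc (fun x => avc (fun z => KK S (F x z))) * En' S F θ Φ ν ν :=
    end_bound hS (by simpa using hF ν le_rfl) (by simpa using hΦ (ν + 1) le_rfl)
  have hZ0 : 0 ≤ avc (fun x => avc (fun z => KK S (F x z))) :=
    avc_nonneg fun x => avc_nonneg fun z => transfer_KK_nonneg S _
  set Z : ℝ := avc (fun x => avc (fun z => KK S (F x z))) with hZ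
  set q : ℝ := Real.sin (θ * κ) ^ 2 with hq
  have hq0 : 0 < q := by positivity
  set En1 : ℝ := En' S F θ Φ ν ν with hEn1
  set X : ℝ := ‖avc (fun x => avc (fun z => (KK S (F x z) : ℂ) *
        Complex.exp (Complex.I * ((θ * Φ x z : ℝ) : ℂ))))‖ with hX
  have hX0 : 0 ≤ X := norm_nonneg _
  set Se : ℝ := ∑ s ∈ range (ν + 1), avc (fun x => avc (fun z => KK S (F x z) * (1 - e s x z)))
    with hSe
  have hn : (0 : ℝ) < ν + 1 := by positivity
  -- expand the sum
  have h5 : ∑ s ∈ range (ν + 1), (En1 / 4 - q * Z / 2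
        - 2 * betaz S F s (ν - s) - betax S F s (ν - s)
        - avc (fun x => avc (fun z => KK S (F x z) * (1 - e s x z))) / 4) =
      (ν + 1) * (En1 / 4 - q * Z / 2) - 2 * ∑ s ∈ range (ν + 1), betaz S F s (ν - s)
        - ∑ s ∈ range (ν + 1), betax S F s (ν - s) - Se / 4 := by
    rw [hSe, Finset.sum_sub_distrib, Finset.sum_sub_distrib, Finset.sum_sub_distrib,
      Finset.sum_const, card_range, nsmul_eq_mul, Finset.mul_sum, Finset.sum_div]
    push_cast
    ring
  rw [h5] at h1
  -- `En1 ≤ 4 T`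
  have hE0 : 0 ≤ En1 ∨ En1 < 0 := le_or_gt 0 En1
  have h6 : q * ((ν + 1) * (En1 / 4 - q * Z / 2) - 18 * Real.negMulLog Z - Se / 4) ≤
      Z - En1 := by
    refine le_trans ?_ h1
    refine mul_le_mul_of_nonneg_left ?_ hq0.le
    linarith
  rcases hE0 with hE0 | hE0
  · have h7 : (ν + 1) * (En1 / 4 - q * Z / 2) - 18 * Real.negMulLog Z - Se / 4 ≤ Z / q := by
      rw [le_div_iff₀ hq0]
      linarith
    have h8 : En1 ≤ 4 / (q * (ν + 1)) * Z + 2 * q * Z
        + (72 * Real.negMulLog Z + Se) / (ν + 1) := by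
      have h9 : (ν + 1) * En1 ≤ 4 * (Z / q) + 2 * q * Z * (ν + 1)
          + (72 * Real.negMulLog Z + Se) := by linarith
      have h10 : En1 ≤ (4 * (Z / q) + 2 * q * Z * (ν + 1)
          + (72 * Real.negMulLog Z + Se)) / (ν + 1) := by
        rw [le_div_iff₀ hn]; linarith
      refine h10.trans (le_of_eq ?_)
      field_simp
    have h11 : X ≤ Z / 4 + En1 := by
      have : X ^ 2 ≤ (Z / 4 + En1) ^ 2 := by nlinarith [sq_nonneg (Z / 4 - En1)]
      exact le_of_sq_le_sq this (by positivity)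
    calc X ≤ Z / 4 + En1 := h11
      _ ≤ Z / 4 + (4 / (q * (ν + 1)) * Z + 2 * q * Z
        + (72 * Real.negMulLog Z + Se) / (ν + 1)) := by linarith
      _ = _ := by ring
  · -- then `X = 0`
    exfalso
    have h12 : 0 ≤ En1 := by
      rw [hEn1]
      unfold En' EE
      refine mul_nonneg (by positivity) (Finset.sum_nonneg fun w _ => avc_nonneg fun x =>
        avc_nonneg fun z => ?_)
      refine div_nonneg (mul_nonneg (Mt_nonneg _ (fun x => ?_) _) (sq_nonneg _))
        (Mt_nonneg _ (fun x => ?_) _)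
      · unfold vv ind; split_ifs <;> norm_num
      · unfold uu ind; split_ifs <;> norm_num
    linarith

end

end Disc32
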